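import Pool.Agent.Helper44K9.FN.Stm
import Pool.Agent.Helper44K9.FU.Mone

/-! [ABS] the list method for abstract classes of sequences. -/

set_option autoImplicit false

namespace Pool.Agent.Helper44K9.FN

open Finset MeasureTheory Polynomial
open Pool.Agent.H807R2.Dav (ee)
open Pool.Agent.Helper44K9.FU (Mul1 MM S_TK S_EQ S_DIL S_PIG S_SUB)
open Pool.Agent.Helper44K9.FU.ML

/-- the dilated sequence -/
def dl (p : ℕ) (ψ : ℕ → ℂ) : ℕ → ℂ := fun m => ψ (p * m)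

lemma pw_symm (ψ ψ' : ℕ → ℂ) (n H : ℕ) : pw ψ ψ' n H = pw ψ' ψ n H := by
  unfold pw
  rw [← RCLike.norm_conj (∑ m ∈ Ioc n (n + H), ψ m * (starRingEnd ℂ) (ψ' m)), map_sum]
  congr 1
  refine sum_congr rfl fun m _ => ?_
  rw [map_mul, Complex.conj_conj, mul_comm]

/-- a list of `r` phases with small correlations which correlate with `f` -/
def Lt (C : Set (ℕ → ℂ)) (f : ℕ → ℂ) (δ t : ℝ) (n H r : ℕ) : Prop :=
  ∃ ψ : Fin r → ℕ → ℂ, (∀ i, ψ i ∈ C) ∧ (∀ i, t * H ≤ cw f (ψ i) n H) ∧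
    ∀ i j, i ≠ j → pw (ψ i) (ψ j) n H < δ * H

/-- the maximal length of a list -/
noncomputable def rk (C : Set (ℕ → ℂ)) (f : ℕ → ℂ) (δ t : ℝ) (n H : ℕ) : ℕ :=
  if 1 ≤ H then sSup {r | Lt C f δ t n H r} else 0

lemma Lt.zero (C : Set (ℕ → ℂ)) (f : ℕ → ℂ) (δ t : ℝ) (n H : ℕ) : Lt C f δ t n H 0 :=
  ⟨fun i => i.elim0, fun i => i.elim0, fun i => i.elim0, fun i => i.elim0⟩

lemma rk_spec {C : Set (ℕ → ℂ)} {f : ℕ → ℂ} {δ t : ℝ} {n H R : ℕ} (hH : 1 ≤ H)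
    (hR : ∀ r, Lt C f δ t n H r → r ≤ R) :
    Lt C f δ t n H (rk C f δ t n H) ∧ ∀ r, Lt C f δ t n H r → r ≤ rk C f δ t n H := by
  unfold rk
  rw [if_pos hH]
  have hb : BddAbove {r | Lt C f δ t n H r} := ⟨R, fun r hr => hR r hr⟩
  exact ⟨Nat.sSup_mem ⟨0, Lt.zero C f δ t n H⟩ hb, fun r hr => le_csSup hb hr⟩

lemma rk_le {C : Set (ℕ → ℂ)} {f : ℕ → ℂ} {δ t : ℝ} {n H R : ℕ}
    (hR : 1 ≤ H → ∀ r, Lt C f δ t n H r → r ≤ R) : rk C f δ t n H ≤ R := by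
  by_cases hH : 1 ≤ H
  · exact hR hH _ (rk_spec hH (hR hH)).1
  · unfold rk
    rw [if_neg hH]
    exact Nat.zero_le _

/-- saturation -/
lemma saturated {C : Set (ℕ → ℂ)} (hC : Clos C) {f : ℕ → ℂ} {δ t : ℝ} {n H r : ℕ} {ψ : Fin r → ℕ → ℂ} {p : ℕ} {R : ℕ}
    (hH : 1 ≤ H / p) (hR : ∀ r, Lt C f δ t (n / p) (H / p) r → r ≤ R)
    (hd : ∀ i, ψ i ∈ C) (h1 : ∀ i, t * ((H / p : ℕ) : ℝ) ≤ cw f (dl p (ψ i)) (n / p) (H / p))
    (h2 : ∀ i j, i ≠ j → pw (dl p (ψ i)) (dl p (ψ j)) (n / p) (H / p) < δ * ((H / p : ℕ) : ℝ)) :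
    r ≤ rk C f δ t (n / p) (H / p) ∧ (rk C f δ t (n / p) (H / p) = r → ∀ φ ∈ C,
      t * ((H / p : ℕ) : ℝ) ≤ cw f φ (n / p) (H / p) →
      ∃ i, δ * ((H / p : ℕ) : ℝ) ≤ pw φ (dl p (ψ i)) (n / p) (H / p)) := by
  have hs := rk_spec hH hR
  refine ⟨hs.2 r ⟨fun i => dl p (ψ i), fun i => hC.2 _ (hd i) p, h1, h2⟩, ?_⟩
  intro hr φ hφ hφt
  by_contra hcon
  push Not at hcon
  have h3 : Lt C f δ t (n / p) (H / p) (r + 1) := by
    refine ⟨Fin.cons φ (fun i => dl p (ψ i)), ?_, ?_, ?_⟩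
    · intro i
      refine Fin.cases ?_ (fun i => ?_) i
      · simpa using hφ
      · rw [Fin.cons_succ]
        exact hC.2 _ (hd i) p
    · intro i
      refine Fin.cases ?_ (fun i => ?_) i
      · simpa using hφt
      · simpa using h1 i
    · intro i j
      refine Fin.cases ?_ (fun i => ?_) i
      · refine Fin.cases (fun h => absurd rfl h) (fun j _ => ?_) j
        rw [Fin.cons_zero, Fin.cons_succ]
        exact hcon j
      · refine Fin.cases (fun _ => ?_) (fun j hij => ?_) j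
        · rw [Fin.cons_zero, Fin.cons_succ, pw_symm]
          exact hcon i
        · rw [Fin.cons_succ, Fin.cons_succ]
          exact h2 i j fun h => hij (by rw [h])
  have := hs.2 _ h3
  omega

open Classical in
lemma exc_bound {R : ℕ} {I : Finset ℕ} {η η₂ t δ : ℝ} {f : ℕ → ℂ} {n H r : ℕ} {ψ : Fin r → ℕ → ℂ}
    (hr : r ≤ R) (hH : 0 < H) (hHp : ∀ p ∈ I, 1 ≤ H / p) (ht : ∀ i, t * H ≤ cw f (ψ i) n H)
    (hpair : ∀ i j, i ≠ j → pw (ψ i) (ψ j) n H < δ * H)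
    (hpush : ∀ i, ∑ p ∈ I.filter (fun p => cw f (dl p (ψ i)) (n / p) (H / p) <
      (cw f (ψ i) n H / H - η) * ((H / p : ℕ) : ℝ)), 1 / (p : ℝ) ≤ 100 / η ^ 2)
    (hpp : ∀ i j, ∑ p ∈ I.filter (fun p => (pw (ψ i) (ψ j) n H / H + η₂) * ((H / p : ℕ) : ℝ) <
      pw (dl p (ψ i)) (dl p (ψ j)) (n / p) (H / p)), 1 / (p : ℝ) ≤ 100 / η₂ ^ 2) :
    ∑ p ∈ I.filter (fun p => ¬ ((∀ i, (t - η) * ((H / p : ℕ) : ℝ) ≤ cw f (dl p (ψ i)) (n / p) (H / p)) ∧
      ∀ i j, i ≠ j → pw (dl p (ψ i)) (dl p (ψ j)) (n / p) (H / p) < (δ + η₂) * ((H / p : ℕ) : ℝ))),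
      1 / (p : ℝ) ≤ R * (100 / η ^ 2) + (R : ℝ) ^ 2 * (100 / η₂ ^ 2) := by
  have hHr : (0 : ℝ) < H := by exact_mod_cast hH
  rw [sum_filter]
  have hnn : ∀ (p : ℕ) (Q : Prop) [Decidable Q], (0 : ℝ) ≤ if Q then 1 / (p : ℝ) else 0 := by
    intro p Q _; split_ifs <;> positivity
  have h1 : ∀ p ∈ I, (if ¬ ((∀ i, (t - η) * ((H / p : ℕ) : ℝ) ≤ cw f (dl p (ψ i)) (n / p) (H / p)) ∧
      ∀ i j, i ≠ j → pw (dl p (ψ i)) (dl p (ψ j)) (n / p) (H / p) < (δ + η₂) * ((H / p : ℕ) : ℝ)) then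
      1 / (p : ℝ) else 0) ≤
      ∑ i : Fin r, (if cw f (dl p (ψ i)) (n / p) (H / p) < (cw f (ψ i) n H / H - η) * ((H / p : ℕ) : ℝ) then
        1 / (p : ℝ) else 0) +
      ∑ i : Fin r, ∑ j : Fin r, (if (pw (ψ i) (ψ j) n H / H + η₂) * ((H / p : ℕ) : ℝ) <
        pw (dl p (ψ i)) (dl p (ψ j)) (n / p) (H / p) then 1 / (p : ℝ) else 0) := by
    intro p hp
    have hHp0 : (0 : ℝ) < ((H / p : ℕ) : ℝ) := by exact_mod_cast hHp p hp
    have hn1 : 0 ≤ ∑ i : Fin r, (if cw f (dl p (ψ i)) (n / p) (H / p) < (cw f (ψ i) n H / H - η) * ((H / p : ℕ) : ℝ) then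
        1 / (p : ℝ) else 0) := sum_nonneg fun _ _ => hnn _ _
    have hn2 : 0 ≤ ∑ i : Fin r, ∑ j : Fin r, (if (pw (ψ i) (ψ j) n H / H + η₂) * ((H / p : ℕ) : ℝ) <
        pw (dl p (ψ i)) (dl p (ψ j)) (n / p) (H / p) then 1 / (p : ℝ) else 0) :=
      sum_nonneg fun _ _ => sum_nonneg fun _ _ => hnn _ _
    by_cases hc : ((∀ i, (t - η) * ((H / p : ℕ) : ℝ) ≤ cw f (dl p (ψ i)) (n / p) (H / p)) ∧
      ∀ i j, i ≠ j → pw (dl p (ψ i)) (dl p (ψ j)) (n / p) (H / p) < (δ + η₂) * ((H / p : ℕ) : ℝ))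
    · rw [if_neg (not_not.2 hc)]
      linarith
    · rw [if_pos hc]
      rw [not_and_or] at hc
      rcases hc with hc | hc
      · push Not at hc
        obtain ⟨i, hi⟩ := hc
        have h2 : cw f (dl p (ψ i)) (n / p) (H / p) < (cw f (ψ i) n H / H - η) * ((H / p : ℕ) : ℝ) := by
          refine lt_of_lt_of_le hi ?_
          refine mul_le_mul_of_nonneg_right ?_ (Nat.cast_nonneg _)
          have := ht i
          rw [← le_div_iff₀ hHr] at this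
          linarith
        have h3 := single_le_sum (f := fun i : Fin r => (if cw f (dl p (ψ i)) (n / p) (H / p) <
          (cw f (ψ i) n H / H - η) * ((H / p : ℕ) : ℝ) then 1 / (p : ℝ) else 0)) (fun _ _ => hnn _ _) (mem_univ i)
        simp only [if_pos h2] at h3
        linarith
      · push Not at hc
        obtain ⟨i, j, hij, hR⟩ := hc
        have h2 : (pw (ψ i) (ψ j) n H / H + η₂) * ((H / p : ℕ) : ℝ) < pw (dl p (ψ i)) (dl p (ψ j)) (n / p) (H / p) := by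
          refine lt_of_lt_of_le ?_ hR
          refine mul_lt_mul_of_pos_right ?_ hHp0
          have := hpair i j hij
          rw [← div_lt_iff₀ hHr] at this
          linarith
        have h3 := single_le_sum (f := fun i : Fin r => ∑ j : Fin r, (if (pw (ψ i) (ψ j) n H / H + η₂) *
          ((H / p : ℕ) : ℝ) < pw (dl p (ψ i)) (dl p (ψ j)) (n / p) (H / p) then 1 / (p : ℝ) else 0))
          (fun _ _ => sum_nonneg fun _ _ => hnn _ _) (mem_univ i)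
        have h4 := single_le_sum (f := fun j : Fin r => (if (pw (ψ i) (ψ j) n H / H + η₂) *
          ((H / p : ℕ) : ℝ) < pw (dl p (ψ i)) (dl p (ψ j)) (n / p) (H / p) then 1 / (p : ℝ) else 0))
          (fun _ _ => hnn _ _) (mem_univ j)
        simp only [if_pos h2] at h4
        linarith
  refine (sum_le_sum h1).trans ?_
  rw [sum_add_distrib]
  have hrR : (r : ℝ) ≤ R := by exact_mod_cast hr
  apply add_le_add
  · rw [sum_comm]
    calc ∑ i : Fin r, ∑ p ∈ I, (if cw f (dl p (ψ i)) (n / p) (H / p) < (cw f (ψ i) n H / H - η) * ((H / p : ℕ) : ℝ) then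
        1 / (p : ℝ) else 0) ≤ ∑ i : Fin r, 100 / η ^ 2 := by
          refine sum_le_sum fun i _ => ?_
          rw [← sum_filter]
          exact hpush i
      _ = r * (100 / η ^ 2) := by simp
      _ ≤ R * (100 / η ^ 2) := mul_le_mul_of_nonneg_right hrR (by positivity)
  · rw [sum_comm]
    calc ∑ i : Fin r, ∑ p ∈ I, ∑ j : Fin r, (if (pw (ψ i) (ψ j) n H / H + η₂) * ((H / p : ℕ) : ℝ) <
        pw (dl p (ψ i)) (dl p (ψ j)) (n / p) (H / p) then 1 / (p : ℝ) else 0) ≤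
        ∑ i : Fin r, (r : ℝ) * (100 / η₂ ^ 2) := by
          refine sum_le_sum fun i _ => ?_
          rw [sum_comm]
          refine (sum_le_sum fun j _ => (by rw [← sum_filter]; exact hpp i j :
            (∑ p ∈ I, (if (pw (ψ i) (ψ j) n H / H + η₂) * ((H / p : ℕ) : ℝ) <
              pw (dl p (ψ i)) (dl p (ψ j)) (n / p) (H / p) then 1 / (p : ℝ) else 0)) ≤ 100 / η₂ ^ 2)).trans ?_
          simp
      _ = (r : ℝ) * (r * (100 / η₂ ^ 2)) := by simp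
      _ ≤ (R : ℝ) ^ 2 * (100 / η₂ ^ 2) := by
          rw [sq (R : ℝ), mul_assoc]
          exact mul_le_mul hrR (mul_le_mul_of_nonneg_right hrR (by positivity)) (by positivity) (Nat.cast_nonneg _)

lemma br1 {Er ℓ hn ε : ℝ} (hℓ : 0 ≤ ℓ) (h : 32 * Er ≤ hn * ε) : Er * ℓ ≤ ε / 32 * (ℓ * hn) := by nlinarith

lemma br2 {Er ℓ hn ε : ℝ} (hℓ : 0 ≤ hn) (h : 32 * Er ≤ ℓ * ε) : Er * hn ≤ ε / 32 * (ℓ * hn) := by nlinarith

open Classical in
/-- [ABS] -/
theorem abs_ (hBES : S_BESA) (hPUSH : S_PUSHA) (hPAIR : S_PAIRP) (hDIL : S_DIL) (hPIG : S_PIG) : S_ABS := by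
  intro C T hC hTC hEQ ε hε
  obtain ⟨R, hB⟩ := hBES (ε / 2) (by positivity)
  -- the number of levels
  obtain ⟨J, hJ1, hJ⟩ : ∃ J : ℕ, 1 ≤ J ∧ (R : ℝ) / J ≤ ε / 8 := by
    obtain ⟨J, hJ⟩ := exists_nat_ge (8 * R / ε)
    refine ⟨J + 1, by omega, ?_⟩
    have h1 : (0 : ℝ) < ((J + 1 : ℕ) : ℝ) := by positivity
    rw [div_le_iff₀ h1]
    rw [div_le_iff₀ hε] at hJ
    push_cast
    nlinarith
  have hJr : (0 : ℝ) < J := by exact_mod_cast hJ1
  set η : ℝ := ε / (2 * J) with hη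
  have hη0 : 0 < η := by positivity
  set η₂ : ℝ := ε ^ 2 / (32 * J) with hη₂
  have hη₂0 : 0 < η₂ := by positivity
  set t : ℕ → ℝ := fun j => ε - j * η with ht
  have ht_le : ∀ j ≤ J, ε / 2 ≤ t j := by
    intro j hj
    have h1 : (j : ℝ) * η ≤ J * η := mul_le_mul_of_nonneg_right (by exact_mod_cast hj) hη0.le
    have h2 : (J : ℝ) * η = ε / 2 := by rw [hη]; field_simp
    simp only [ht]
    linarith
  have ht_step : ∀ j, t j - η = t (j + 1) := by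
    intro j; simp only [ht]; push_cast; ring
  have ht_mono : ∀ j, t j ≤ ε := by
    intro j
    have : 0 ≤ (j : ℝ) * η := by positivity
    simp only [ht]; linarith
  set D : ℕ → ℝ := fun j => ε ^ 2 / 32 + j * η₂ with hD
  have hD_step : ∀ j, D j + η₂ = D (j + 1) := by
    intro j; simp only [hD]; push_cast; ring
  have hD_ge : ∀ j, ε ^ 2 / 32 ≤ D j := by
    intro j
    have : 0 ≤ (j : ℝ) * η₂ := by positivity
    simp only [hD]; linarith
  have hD_le : ∀ j ≤ J, D j ≤ (ε / 2) ^ 2 / 4 := by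
    intro j hj
    have h1 : (j : ℝ) * η₂ ≤ J * η₂ := mul_le_mul_of_nonneg_right (by exact_mod_cast hj) hη₂0.le
    have h2 : (J : ℝ) * η₂ = ε ^ 2 / 32 := by rw [hη₂]; field_simp
    simp only [hD]
    linarith
  set δ₀ : ℝ := ε ^ 2 / 32 with hδ₀
  have hδ₀0 : 0 < δ₀ := by positivity
  set c : ℝ := ε / (8 * (R + 1)) with hc
  have hc0 : 0 < c := by positivity
  -- the primes
  set κ₀ : ℝ := R * (100 / η ^ 2) + (R : ℝ) ^ 2 * (100 / η₂ ^ 2) with hκ₀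
  have hκ₀0 : 0 ≤ κ₀ := by positivity
  obtain ⟨I, hIp, hIA, HE, hEQ'⟩ := hEQ δ₀ c hδ₀0 hc0 (⌈8 / η⌉₊ + ⌈8 / η₂⌉₊) (8 * (R + 2) * κ₀ / ε + 1)
  set L : ℝ := ∑ p ∈ I, 1 / (p : ℝ) with hL
  have hL0 : 0 < L := by
    have : 0 ≤ 8 * (R + 2) * κ₀ / ε := by positivity
    linarith
  set w : ℕ → ℝ := fun p => (1 / (p : ℝ)) / L with hw
  have hw0 : ∀ p ∈ I, 0 ≤ w p := fun p _ => by simp only [hw]; positivity
  have hw1 : ∑ p ∈ I, w p = 1 := by
    simp only [hw]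
    rw [← sum_div, ← hL, div_self hL0.ne']
  have hwsum : ∀ (s : Finset ℕ) (x : ℝ), ∑ p ∈ s, 1 / (p : ℝ) ≤ x → ∑ p ∈ s, w p ≤ x / L := by
    intro s x hx
    simp only [hw]
    rw [← sum_div]
    exact div_le_div_of_nonneg_right hx hL0.le
  set κ : ℝ := κ₀ / L with hκ
  have hκ0 : 0 ≤ κ := by positivity
  have hκ1 : (R + 2) * κ ≤ ε / 8 := by
    have h1 : 8 * (R + 2) * κ₀ / ε ≤ L := by linarith
    rw [div_le_iff₀ hε] at h1
    rw [hκ, mul_div_assoc', div_le_iff₀ hL0]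
    linarith
  obtain ⟨B, hB'⟩ : ∃ B : ℕ, ∀ p ∈ I, p ≤ B := ⟨I.sup id, fun p hp => le_sup (f := id) hp⟩
  have hIprime : ∀ p ∈ I, p.Prime := fun p hp => (hIp p hp).1
  obtain ⟨HP, hHP⟩ := hPUSH I η hη0 (fun p hp => ⟨hIprime p hp, by
    have h1 := (hIp p hp).2
    have h2 : ⌈8 / η⌉₊ ≤ p := by omega
    exact (Nat.le_ceil _).trans (by exact_mod_cast h2)⟩)
  obtain ⟨HQ, hHQ⟩ := hPAIR I η₂ hη₂0 (fun p hp => ⟨hIprime p hp, by
    have h1 := (hIp p hp).2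
    have h2 : ⌈8 / η₂⌉₊ ≤ p := by omega
    exact (Nat.le_ceil _).trans (by exact_mod_cast h2)⟩)
  -- the scales
  set H₁ : ℕ := HP + HQ + HE + 2 * B + 1 with hH₁
  set Er : ℝ := (R + 1) * (4 + 2 * Real.log (B + 1)) with hEr
  have hlogB : 0 ≤ Real.log ((B : ℝ) + 1) := Real.log_nonneg (by
    have : (0 : ℝ) ≤ B := Nat.cast_nonneg _
    linarith)
  have hEr0 : 0 < Er := by positivity
  set Λ : ℝ := 32 * Er / ε with hΛ
  have hΛ0 : 0 < Λ := by positivity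
  have hdiv := Real.tendsto_sum_range_one_div_nat_succ_atTop
  obtain ⟨H₂, hH₂, hH₂Λ⟩ : ∃ H₂ : ℕ, H₁ ≤ H₂ ∧ Λ ≤ ∑ H ∈ Ico H₁ H₂, 1 / (H : ℝ) := by
    obtain ⟨M', hM'⟩ := (hdiv.eventually_ge_atTop (Λ + ∑ k ∈ range H₁, 1 / ((k : ℝ)))).exists
    refine ⟨max H₁ (M' + 1), le_max_left _ _, ?_⟩
    have h2 : ∑ i ∈ range M', 1 / ((i : ℝ) + 1) = ∑ k ∈ range (M' + 1), 1 / (k : ℝ) := by
      rw [sum_range_succ' (fun k : ℕ => 1 / (k : ℝ)) M']
      push_cast; simp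
    rw [h2] at hM'
    have h3 : ∑ k ∈ range (M' + 1), 1 / (k : ℝ) ≤ ∑ k ∈ range (max H₁ (M' + 1)), 1 / (k : ℝ) :=
      sum_le_sum_of_subset_of_nonneg (range_subset_range.2 (le_max_right _ _)) fun _ _ _ => by positivity
    rw [sum_Ico_eq_sub _ (le_max_left _ _)]
    linarith
  obtain ⟨N₀, hN₀⟩ : ∃ N₀ : ℕ, ∀ N ≥ N₀, Λ ≤ ∑ n ∈ Icc 1 N, 1 / (n : ℝ) := by
    obtain ⟨N₀, hN₀⟩ := Filter.eventually_atTop.1 (hdiv.eventually_ge_atTop Λ)
    refine ⟨N₀, fun N hN => ?_⟩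
    have h1 := hN₀ N hN
    have h2 : ∑ n ∈ Icc 1 N, 1 / (n : ℝ) = ∑ i ∈ range N, 1 / ((i : ℝ) + 1) := by
      rw [← Finset.Ico_succ_right_eq_Icc, sum_Ico_eq_sum_range]
      refine sum_congr (by simp) fun i _ => ?_
      push_cast; rw [add_comm (1 : ℝ)]
    rw [h2]; exact h1
  refine ⟨H₁, H₂, N₀, by omega, fun N hN f hf => ?_⟩
  have hhN := hN₀ N hN
  set hn : ℝ := ∑ n ∈ Icc 1 N, 1 / (n : ℝ) with hhn
  set ℓ : ℝ := ∑ H ∈ Ico H₁ H₂, 1 / (H : ℝ) with hℓ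
  set er : ℝ := Er * (ℓ + hn) with her
  have hmass : MM H₁ H₂ N (fun _ _ => 1) = ℓ * hn := MM_one H₁ H₂ N
  have hℓ0 : 0 < ℓ := lt_of_lt_of_le hΛ0 hH₂Λ
  have hhn0 : 0 < hn := lt_of_lt_of_le hΛ0 hhN
  have hm0 : 0 < ℓ * hn := by positivity
  have herm : er ≤ ε / 16 * (ℓ * hn) := by
    have h1 : Er * ℓ ≤ ε / 32 * (ℓ * hn) := by
      have h2 : 32 * Er ≤ hn * ε := by rw [hΛ, div_le_iff₀ hε] at hhN; exact hhN
      exact br1 hℓ0.le h2
    have h1' : Er * hn ≤ ε / 32 * (ℓ * hn) := by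
      have h2 : 32 * Er ≤ ℓ * ε := by rw [hΛ, div_le_iff₀ hε] at hH₂Λ; exact hH₂Λ
      exact br2 hhn0.le h2
    rw [her, mul_add]; linarith
  -- bounds for primes and scales
  have hscale : ∀ p ∈ I, ∀ H ∈ Ico H₁ H₂, 1 ≤ H / p := by
    intro p hp H hH
    have hpB := hB' p hp
    have hp0 := (hIprime p hp).pos
    rw [mem_Ico] at hH
    rw [Nat.le_div_iff_mul_le hp0]
    omega
  -- the ranks
  set r : ℕ → ℕ → ℕ → ℕ := fun j n H => if j ≤ J then rk C f (D j) (t j) n H else 0 with hr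
  have hLR : ∀ j ≤ J, ∀ n H, 1 ≤ H → ∀ s, Lt C f (D j) (t j) n H s → s ≤ R := by
    rintro j hj n H hH s ⟨ψ, h1, h2, h3⟩
    refine hB f hf.1 n H s ψ hH (fun i => hC.1 _ (h1 i)) (fun i => ?_) fun i i' hi => ?_
    · exact (mul_le_mul_of_nonneg_right (ht_le j hj) (Nat.cast_nonneg _)).trans (h2 i)
    · exact (h3 i i' hi).le.trans (mul_le_mul_of_nonneg_right (hD_le j hj) (Nat.cast_nonneg _))
  have hrR : ∀ j n H, r j n H ≤ R := by
    intro j n H
    simp only [hr]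
    split_ifs with hj
    · exact rk_le (hLR j hj n H)
    · exact Nat.zero_le _
  have hDILr : ∀ (F : ℕ → ℕ → ℝ), (∀ n H, 0 ≤ F n H ∧ F n H ≤ R + 1) → ∀ p ∈ I,
      MM H₁ H₂ N (fun n H => F (n / p) (H / p)) ≤ MM H₁ H₂ N F + er := by
    intro F hF p hp
    have hpB := hB' p hp
    have hp1 := (hIprime p hp).one_le
    refine (hDIL p H₁ H₂ N (R + 1) F hp1 (by omega) hH₂ hF).trans ?_
    have h1 : Real.log p ≤ Real.log (B + 1) := Real.log_le_log (by exact_mod_cast hp1) (by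
      have : (p : ℝ) ≤ B := by exact_mod_cast hpB
      linarith)
    have h2 : ((R : ℝ) + 1) * (4 + 2 * Real.log p) * (ℓ + hn) ≤ er := by
      rw [her, hEr]
      gcongr
    linarith
  -- the data at (n, H)
  have hdata : ∀ j < J, ∀ H ∈ Ico H₁ H₂, ∀ n : ℕ, ∃ ψ : Fin (r j n H) → ℕ → ℂ, (∀ i, ψ i ∈ C) ∧
      ∑ p ∈ I.filter (fun p => ¬ ((∀ i, t (j + 1) * ((H / p : ℕ) : ℝ) ≤ cw f (dl p (ψ i)) (n / p) (H / p)) ∧
        ∀ i i', i ≠ i' → pw (dl p (ψ i)) (dl p (ψ i')) (n / p) (H / p) < D (j + 1) * ((H / p : ℕ) : ℝ))),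
        1 / (p : ℝ) ≤ κ₀ := by
    intro j hj H hH n
    have hH' := mem_Ico.1 hH
    have hH1 : 1 ≤ H := by omega
    have h1 := (rk_spec hH1 (hLR j hj.le n H hH1)).1
    have h2 : r j n H = rk C f (D j) (t j) n H := by simp only [hr]; rw [if_pos hj.le]
    rw [← h2] at h1
    obtain ⟨ψ, hψC, hψt, hψr⟩ := h1
    refine ⟨ψ, hψC, ?_⟩
    have h3 := exc_bound (R := R) (I := I) (η := η) (η₂ := η₂) (t := t j) (δ := D j) (f := f) (n := n) (H := H)
      (ψ := ψ) (hrR j n H) (by omega) (fun p hp => hscale p hp H hH) hψt hψr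
      (fun i => hHP H (by omega) f hf (ψ i) (hC.1 _ (hψC i)) n)
      (fun i i' => hHQ H (by omega) (ψ i) (ψ i') (hC.1 _ (hψC i)) (hC.1 _ (hψC i')) n)
    rw [ht_step, hD_step] at h3
    exact h3
  -- saturation
  have hsat : ∀ j < J, ∀ H ∈ Ico H₁ H₂, ∀ n : ℕ, ∀ p ∈ I, ∀ ψ : Fin (r j n H) → ℕ → ℂ,
      (∀ i, ψ i ∈ C) →
      ((∀ i, t (j + 1) * ((H / p : ℕ) : ℝ) ≤ cw f (dl p (ψ i)) (n / p) (H / p)) ∧
        ∀ i i', i ≠ i' → pw (dl p (ψ i)) (dl p (ψ i')) (n / p) (H / p) < D (j + 1) * ((H / p : ℕ) : ℝ)) →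
      r j n H ≤ r (j + 1) (n / p) (H / p) ∧ (r (j + 1) (n / p) (H / p) = r j n H → ∀ φ ∈ C,
        t (j + 1) * ((H / p : ℕ) : ℝ) ≤ cw f φ (n / p) (H / p) →
        ∃ i, D (j + 1) * ((H / p : ℕ) : ℝ) ≤ pw φ (dl p (ψ i)) (n / p) (H / p)) := by
    intro j hj H hH n p hp ψ hψC hg
    have h1 := hscale p hp H hH
    have h2 : r (j + 1) (n / p) (H / p) = rk C f (D (j + 1)) (t (j + 1)) (n / p) (H / p) := by
      simp only [hr]; rw [if_pos (by omega : j + 1 ≤ J)]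
    rw [h2]
    exact saturated hC h1 (hLR (j + 1) (by omega) (n / p) (H / p) h1) hψC hg.1 hg.2
  -- pigeonhole
  obtain ⟨j, hj, hpig⟩ := hPIG I w hw0 hw1 J R H₁ H₂ N κ er r hJ1 hrR
    (fun j _ p hp => hDILr (fun n H => (r (j + 1) n H : ℝ)) (fun n H => ⟨Nat.cast_nonneg _, by
      have : (r (j + 1) n H : ℝ) ≤ R := by exact_mod_cast hrR (j + 1) n H
      linarith⟩) p hp)
    (fun j hj H hH n _ => by
      obtain ⟨ψ, hψC, hexc⟩ := hdata j hj H hH n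
      refine le_trans (sum_le_sum_of_subset_of_nonneg ?_ fun p hp _ => hw0 p (mem_filter.1 hp).1) (hwsum _ κ₀ hexc)
      intro p hp
      rw [mem_filter] at hp ⊢
      refine ⟨hp.1, fun hg => ?_⟩
      have := (hsat j hj H hH n p hp.1 ψ hψC hg).1
      omega)
  -- the indicator of the windows with a large sum at level j
  set g : ℕ → ℕ → ℕ → ℝ := fun j n H => if ∃ φ ∈ T, t j * H ≤ cw f φ n H then 1 else 0 with hg
  have hg01 : ∀ j n H, 0 ≤ g j n H ∧ g j n H ≤ 1 := by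
    intro j n H
    simp only [hg]
    split_ifs <;> norm_num
  -- pointwise estimate
  have hpt : ∀ H ∈ Ico H₁ H₂, ∀ n ∈ Icc 1 N, ∑ p ∈ I, w p * g (j + 1) (n / p) (H / p) ≤
      ∑ p ∈ I, w p * (if r (j + 1) (n / p) (H / p) ≠ r j n H then 1 else 0) + (κ + R * c) := by
    intro H hH n _
    obtain ⟨ψ, hψC, hexc⟩ := hdata j hj H hH n
    set G : ℕ → Prop := fun p => (∀ i, t (j + 1) * ((H / p : ℕ) : ℝ) ≤ cw f (dl p (ψ i)) (n / p) (H / p)) ∧
        ∀ i i', i ≠ i' → pw (dl p (ψ i)) (dl p (ψ i')) (n / p) (H / p) < D (j + 1) * ((H / p : ℕ) : ℝ) with hG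
    set Bd : Fin (r j n H) → ℕ → Prop := fun i p => ∃ φ ∈ T, δ₀ * ((H / p : ℕ) : ℝ) ≤
      pw φ (fun m => ψ i (p * m)) (n / p) (H / p) with hBd
    have hn3 : ∀ (p : ℕ), p ∈ I → ∀ i : Fin (r j n H), 0 ≤ (if Bd i p then w p else 0) := by
      intro p hp i
      have := hw0 p hp
      split_ifs <;> simp [this]
    have h1 : ∀ p ∈ I, w p * g (j + 1) (n / p) (H / p) ≤
        w p * (if r (j + 1) (n / p) (H / p) ≠ r j n H then 1 else 0) + ((if ¬ G p then w p else 0) +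
          ∑ i, if Bd i p then w p else 0) := by
      intro p hp
      have hwp := hw0 p hp
      have hn1 : 0 ≤ w p * (if r (j + 1) (n / p) (H / p) ≠ r j n H then (1 : ℝ) else 0) := by
        split_ifs <;> simp [hwp]
      have hn2 : 0 ≤ (if ¬ G p then w p else 0) := by split_ifs <;> simp [hwp]
      have hn4 : 0 ≤ ∑ i, if Bd i p then w p else 0 := sum_nonneg fun i _ => hn3 p hp i
      by_cases hgp : ∃ φ ∈ T, t (j + 1) * ((H / p : ℕ) : ℝ) ≤ cw f φ (n / p) (H / p)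
      · have e1 : g (j + 1) (n / p) (H / p) = 1 := by
          simp only [hg]
          rw [if_pos hgp]
        rw [e1, mul_one]
        by_cases hne : r (j + 1) (n / p) (H / p) = r j n H
        · by_cases hGp : G p
          · obtain ⟨φ, hφT, hφt⟩ := hgp
            obtain ⟨i, hi⟩ := (hsat j hj H hH n p hp ψ hψC hGp).2 hne φ (hTC hφT) hφt
            have h2 : Bd i p := by
              refine ⟨φ, hφT, le_trans ?_ hi⟩
              exact mul_le_mul_of_nonneg_right (hD_ge (j + 1)) (Nat.cast_nonneg _)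
            have h3 := single_le_sum (f := fun i => if Bd i p then w p else 0) (fun i _ => hn3 p hp i) (mem_univ i)
            simp only [if_pos h2] at h3
            linarith
          · rw [if_pos hGp]
            linarith
        · rw [if_pos hne, mul_one]
          linarith
      · have e1 : g (j + 1) (n / p) (H / p) = 0 := by
          simp only [hg]
          rw [if_neg hgp]
        rw [e1, mul_zero]
        linarith
    refine (sum_le_sum h1).trans ?_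
    rw [sum_add_distrib, sum_add_distrib]
    have h2 : ∑ p ∈ I, (if ¬ G p then w p else 0) ≤ κ := by
      rw [← sum_filter]
      exact hwsum _ κ₀ hexc
    have h3 : ∑ p ∈ I, ∑ i, (if Bd i p then w p else 0) ≤ R * c := by
      rw [sum_comm]
      calc ∑ i, ∑ p ∈ I, (if Bd i p then w p else 0) ≤ ∑ i : Fin (r j n H), c := by
            refine sum_le_sum fun i _ => ?_
            rw [← sum_filter]
            have h4 := hwsum _ _ (hEQ' H (by have := (mem_Ico.1 hH).1; omega) n (ψ i) (hψC i))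
            rw [mul_div_assoc, div_self hL0.ne', mul_one] at h4
            exact h4
        _ = r j n H * c := by simp
        _ ≤ R * c := mul_le_mul_of_nonneg_right (by exact_mod_cast hrR j n H) hc0.le
    linarith
  -- assembly
  have hs1 : MM H₁ H₂ N (g (j + 1)) ≤ ∑ p ∈ I, w p * MM H₁ H₂ N (fun n H => g (j + 1) (n / p) (H / p)) + er := by
    refine le_of_MM hw1 hw0 fun p hp => hDILr (fun n H => 1 - g (j + 1) n H) (fun n H => ?_) p hp
    have := hg01 (j + 1) n H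
    have hR0 : (0 : ℝ) ≤ R := Nat.cast_nonneg _
    constructor <;> linarith [this.1, this.2]
  have hs2 : ∑ p ∈ I, w p * MM H₁ H₂ N (fun n H => g (j + 1) (n / p) (H / p)) ≤
      ∑ p ∈ I, w p * MM H₁ H₂ N (fun n H => if r (j + 1) (n / p) (H / p) ≠ r j n H then 1 else 0) +
        (κ + R * c) * MM H₁ H₂ N (fun _ _ => 1) := by
    have h1 := MM_mono (H₁ := H₁) (H₂ := H₂) (N := N) (F := fun n H => ∑ p ∈ I, w p * g (j + 1) (n / p) (H / p))
      (G := fun n H => ∑ p ∈ I, w p * (if r (j + 1) (n / p) (H / p) ≠ r j n H then 1 else 0) + (κ + R * c)) hpt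
    rw [MM_add, MM_const] at h1
    rw [MM_sum I H₁ H₂ N (fun p n H => w p * g (j + 1) (n / p) (H / p)),
      MM_sum I H₁ H₂ N (fun p n H => w p * (if r (j + 1) (n / p) (H / p) ≠ r j n H then 1 else 0))] at h1
    simp only [MM_smul] at h1
    exact h1
  have hs3 : MM H₁ H₂ N (g 0) ≤ MM H₁ H₂ N (g (j + 1)) := by
    refine MM_mono fun H _ n _ => ?_
    simp only [hg]
    by_cases h : ∃ φ ∈ T, t 0 * H ≤ cw f φ n H
    · rw [if_pos h, if_pos]
      obtain ⟨φ, h2, h3⟩ := h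
      refine ⟨φ, h2, le_trans (mul_le_mul_of_nonneg_right ?_ (Nat.cast_nonneg _)) h3⟩
      have e1 : t 0 = ε := by simp [ht]
      rw [e1]
      exact ht_mono _
    · rw [if_neg h]
      split_ifs <;> norm_num
  have hRc : (R : ℝ) * c ≤ ε / 8 := by
    rw [hc, mul_div_assoc', div_le_div_iff₀ (by positivity) (by norm_num)]
    have hR0 : (0 : ℝ) ≤ R := Nat.cast_nonneg _
    nlinarith
  have hfin : MM H₁ H₂ N (g 0) ≤ ε * (ℓ * hn) := by
    rw [hmass] at hpig hs2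
    have h1 : (R / J + (R + 1) * κ) * (ℓ * hn) + (κ + R * c) * (ℓ * hn) ≤ (3 * ε / 8) * (ℓ * hn) := by
      have h2 : (R : ℝ) / J + (R + 1) * κ + (κ + R * c) ≤ 3 * ε / 8 := by
        have h3 : ((R : ℝ) + 1) * κ + κ = (R + 2) * κ := by ring
        linarith
      rw [← add_mul]
      exact mul_le_mul_of_nonneg_right h2 hm0.le
    have h4 : 0 < ε * (ℓ * hn) := by positivity
    linarith
  -- some H
  by_contra hcon
  push Not at hcon
  have h1 : ε * (ℓ * hn) < MM H₁ H₂ N (g 0) := by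
    unfold MM
    rw [hℓ, sum_mul, mul_sum]
    have hne : (Ico H₁ H₂).Nonempty := by
      rw [nonempty_Ico]
      by_contra h
      have h2 : Ico H₁ H₂ = ∅ := Ico_eq_empty_of_le (by omega)
      rw [hℓ, h2, sum_empty] at hℓ0
      exact lt_irrefl _ hℓ0
    refine sum_lt_sum_of_nonempty hne fun H hH => ?_
    have h2 := hcon H hH
    have hH0 : (0 : ℝ) < H := by
      have := (mem_Ico.1 hH).1
      exact_mod_cast (by omega : 0 < H)
    have e1 : t 0 = ε := by simp [ht]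
    have h3 : ε * (1 / (H : ℝ) * hn) = 1 / (H : ℝ) * (ε * hn) := by ring
    rw [h3]
    refine mul_lt_mul_of_pos_left ?_ (by positivity)
    simp only [hg, e1]
    exact h2
  linarith

end Pool.Agent.Helper44K9.FN
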