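import Pool.Agent.Helper44K9.FN.Stm

/-! Leaf [AFF] (helper94). -/

set_option autoImplicit false

namespace Pool.Agent.Helper44K9.FN

open Finset

/-- **AFF** -/
theorem aff : S_AFF := by
  intro c W κ₀ hc hW hκ
  obtain ⟨m, hm⟩ : ∃ m : ℕ, m = ⌈4 / c⌉₊ := ⟨_, rfl⟩
  have hm1 : 4 / c ≤ m := by rw [hm]; exact Nat.le_ceil _
  have hm0 : 1 ≤ m := by
    rw [hm]
    exact Nat.one_le_iff_ne_zero.2 (by
      have : 0 < ⌈4 / c⌉₊ := Nat.ceil_pos.2 (by positivity)
      omega)
  obtain ⟨K, hK⟩ : ∃ K : ℕ, K = ⌈8 / c + 2 / c * (2 * m * W / κ₀ + 1)⌉₊ + 1 := ⟨_, rfl⟩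
  have hK1 : 8 / c + 2 / c * (2 * m * W / κ₀ + 1) < K := by
    rw [hK]
    push_cast
    have := Nat.le_ceil (8 / c + 2 / c * (2 * m * W / κ₀ + 1))
    linarith
  have hmR : (1 : ℝ) ≤ m := by exact_mod_cast hm0
  have hK2 : 8 / c ≤ K := by
    have : 0 < 2 / c * (2 * m * W / κ₀ + 1) := by positivity
    linarith
  have hK3 : 8 ≤ c * K := by
    have := mul_le_mul_of_nonneg_left hK2 hc.le
    rwa [mul_div_cancel₀ _ hc.ne'] at this
  have hK4 : 2 * m * W < κ₀ * (c * K / 2 - 1) := by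
    have h1 : 2 / c * (2 * m * W / κ₀ + 1) < K := by
      have : 0 < 8 / c := by positivity
      linarith
    have h2 : 2 * m * W / κ₀ + 1 < c * K / 2 := by
      have h3 := mul_lt_mul_of_pos_left h1 (show (0 : ℝ) < c / 2 by positivity)
      have h4 : c / 2 * (2 / c * (2 * m * W / κ₀ + 1)) = 2 * m * W / κ₀ + 1 := by
        field_simp
      linarith
    have h3 : 2 * m * W / κ₀ < c * K / 2 - 1 := by linarith
    rw [div_lt_iff₀ hκ] at h3
    linarith
  have hK0 : 0 < K := by rw [hK]; omega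
  have hKR : (0 : ℝ) < K := by exact_mod_cast hK0
  refine ⟨K, K + 1, fun H hH U hU hcard l v hv hfar => ?_⟩
  -- a block with many elements
  obtain ⟨n₁, hn₁⟩ : ∃ n₁ : ℕ, n₁ = ⌊c * K / 2⌋₊ := ⟨_, rfl⟩
  have hn1 : (n₁ : ℝ) ≤ c * K / 2 := by rw [hn₁]; exact Nat.floor_le (by positivity)
  have hn2 : c * K / 2 < n₁ + 1 := by rw [hn₁]; exact Nat.lt_floor_add_one _
  have hmap : ∀ h ∈ U, h / K ∈ range (H / K + 1) := by
    intro h hh
    have h1 := mem_Ico.1 (hU hh)
    rw [mem_range]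
    have : h / K ≤ H / K := Nat.div_le_div_right h1.2.le
    omega
  have hlt : (range (H / K + 1)).card * n₁ < U.card := by
    rw [card_range]
    have h1 : (((H / K + 1) * n₁ : ℕ) : ℝ) < c * H := by
      push_cast
      have h2 : ((H / K : ℕ) : ℝ) * K ≤ H := by
        exact_mod_cast Nat.div_mul_le_self H K
      have h3 : (K : ℝ) < H := by
        have : K < H := by omega
        exact_mod_cast this
      have h4 : (0 : ℝ) ≤ ((H / K : ℕ) : ℝ) + 1 := by positivity
      calc (((H / K : ℕ) : ℝ) + 1) * n₁ ≤ (((H / K : ℕ) : ℝ) + 1) * (c * K / 2) :=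
            mul_le_mul_of_nonneg_left hn1 h4
        _ = c / 2 * (((H / K : ℕ) : ℝ) * K + K) := by ring
        _ ≤ c / 2 * (H + K) := mul_le_mul_of_nonneg_left (by linarith) (by positivity)
        _ < c / 2 * (H + H) := mul_lt_mul_of_pos_left (by linarith) (by positivity)
        _ = c * H := by ring
    have h2 := h1.trans_le hcard
    exact_mod_cast h2
  obtain ⟨y, -, hy⟩ := exists_lt_card_fiber_of_mul_lt_card_of_maps_to hmap hlt
  obtain ⟨F, hF⟩ : ∃ F : Finset ℕ, F = U.filter fun h => h / K = y := ⟨_, rfl⟩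
  rw [← hF] at hy
  have hFU : ∀ h ∈ F, h ∈ U ∧ y * K ≤ h ∧ h < y * K + K := by
    intro h hh
    rw [hF, mem_filter] at hh
    refine ⟨hh.1, ?_, ?_⟩
    · rw [← hh.2]
      exact Nat.div_mul_le_self h K
    · rw [← hh.2]
      have h2 : h < (h / K + 1) * K := by
        rw [mul_comm]
        exact Nat.lt_mul_div_succ h hK0
      have h3 : (h / K + 1) * K = h / K * K + K := by ring
      omega
  have hFc : c * K / 2 < F.card := by
    have : ((n₁ + 1 : ℕ) : ℝ) ≤ F.card := by exact_mod_cast hy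
    push_cast at this
    linarith
  -- a pair with a small difference
  have hmap2 : ∀ h ∈ F, h / m ∈ Icc (y * K / m) ((y * K + K) / m) := by
    intro h hh
    obtain ⟨-, h1, h2⟩ := hFU h hh
    rw [mem_Icc]
    exact ⟨Nat.div_le_div_right h1, Nat.div_le_div_right h2.le⟩
  have hlt2 : (Icc (y * K / m) ((y * K + K) / m)).card * 1 < F.card := by
    rw [mul_one, Nat.card_Icc]
    have h1 : (y * K + K) / m ≤ y * K / m + K / m + 1 := by
      have h2 : (y * K + K) / m < y * K / m + K / m + 2 := by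
        rw [Nat.div_lt_iff_lt_mul (by omega)]
        have h3 : y * K < (y * K / m + 1) * m := by
          rw [mul_comm (y * K / m + 1)]
          exact Nat.lt_mul_div_succ _ (by omega)
        have h4 : K < (K / m + 1) * m := by
          rw [mul_comm (K / m + 1)]
          exact Nat.lt_mul_div_succ _ (by omega)
        have h5 : (y * K / m + K / m + 2) * m = (y * K / m + 1) * m + (K / m + 1) * m := by ring
        omega
      omega
    have h2 : (((y * K + K) / m + 1 - y * K / m : ℕ) : ℝ) < F.card := by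
      have h3 : (y * K + K) / m + 1 - y * K / m ≤ K / m + 2 := by
        rw [Nat.sub_le_iff_le_add]
        linarith
      have h4 : (((y * K + K) / m + 1 - y * K / m : ℕ) : ℝ) ≤ ((K / m : ℕ) : ℝ) + 2 := by
        exact_mod_cast h3
      have h5 : ((K / m : ℕ) : ℝ) ≤ K / m := Nat.cast_div_le
      have h6 : (K : ℝ) / m ≤ c * K / 4 := by
        rw [div_le_iff₀ (by linarith)]
        have h7 : 4 ≤ c * m := by
          have := mul_le_mul_of_nonneg_left hm1 hc.le
          rwa [mul_div_cancel₀ _ hc.ne'] at this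
        nlinarith
      linarith
    exact_mod_cast h2
  obtain ⟨y', -, hy'⟩ := exists_lt_card_fiber_of_mul_lt_card_of_maps_to hmap2 hlt2
  obtain ⟨g₁, hg₁, g₂, hg₂, hne⟩ := one_lt_card.1 hy'
  obtain ⟨g, g', hg, hg', hgg, hdiff⟩ : ∃ g g' : ℕ, g ∈ F ∧ g' ∈ F ∧ g < g' ∧ g' ≤ g + m := by
    rw [mem_filter] at hg₁ hg₂
    have key : ∀ a b : ℕ, a / m = b / m → b ≤ a + m := by
      intro a b hab
      have h1 := Nat.div_mul_le_self a m
      have h2 : b < (b / m + 1) * m := by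
        rw [mul_comm (b / m + 1)]
        exact Nat.lt_mul_div_succ _ (by omega)
      rw [← hab] at h2
      have h3 : (a / m + 1) * m = a / m * m + m := by ring
      omega
    rcases Nat.lt_or_gt_of_ne hne with h | h
    · exact ⟨g₁, g₂, hg₁.1, hg₂.1, h, key g₁ g₂ (by rw [hg₁.2, hg₂.2])⟩
    · exact ⟨g₂, g₁, hg₂.1, hg₁.1, h, key g₂ g₁ (by rw [hg₁.2, hg₂.2])⟩
  -- the extreme elements
  have hFne : F.Nonempty := ⟨g, hg⟩
  obtain ⟨h, hh, hmin⟩ := exists_min_image F (fun x => x) hFne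
  obtain ⟨h', hh', hmax⟩ := exists_max_image F (fun x => x) hFne
  have hsub : F ⊆ Icc h h' := fun x hx => mem_Icc.2 ⟨hmin x hx, hmax x hx⟩
  have hcd : F.card ≤ h' + 1 - h := by
    have := card_le_card hsub
    rwa [Nat.card_Icc] at this
  have hle : h ≤ h' := hmin h' hh'
  have hD : c * K / 2 - 1 < (h' : ℝ) - h := by
    have h1 : F.card + h ≤ h' + 1 := by omega
    have h2 : (F.card : ℝ) + h ≤ h' + 1 := by exact_mod_cast h1
    linarith
  have hlt3 : h < h' := by
    have h1 : (0 : ℝ) < (h' : ℝ) - h := by linarith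
    have : (h : ℝ) < h' := by linarith
    exact_mod_cast this
  obtain ⟨a1, a2, a3⟩ := hFU h hh
  obtain ⟨b1, b2, b3⟩ := hFU h' hh'
  obtain ⟨c1, c2, c3⟩ := hFU g hg
  obtain ⟨d1, d2, d3⟩ := hFU g' hg'
  refine ⟨h, a1, h', b1, g, c1, g', d1, hlt3, by omega, hgg, by omega, fun heq => ?_⟩
  -- the slope
  have hs1 : 1 ≤ g' - g := by omega
  have hs2 : g' - g ≤ ⌈4 / c⌉₊ := by rw [← hm]; omega
  have h1 := hfar (g' - g) hs1 hs2 (l g' - l g)
  have e1 := hv h a1
  have e2 := hv h' b1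
  have heqR : ((g' : ℝ) - g) * ((l h' : ℝ) - l h) = ((h' : ℝ) - h) * ((l g' : ℝ) - l g) := by
    exact_mod_cast heq
  have hcast : ((g' - g : ℕ) : ℝ) = (g' : ℝ) - g := Nat.cast_sub hgg.le
  rw [hcast] at h1
  push_cast at h1
  have hDpos : (0 : ℝ) < (h' : ℝ) - h := by linarith
  have h2 : ((h' : ℝ) - h) * (((g' : ℝ) - g) * v - ((l g' : ℝ) - l g)) =
      ((g' : ℝ) - g) * ((((l h : ℝ) - h * v)) - ((l h' : ℝ) - h' * v)) := by
    linear_combination heqR
  have h3 : ((h' : ℝ) - h) * |((g' : ℝ) - g) * v - ((l g' : ℝ) - l g)| ≤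
      ((g' : ℝ) - g) * (2 * W) := by
    have h4 := congrArg abs h2
    rw [abs_mul, abs_mul, abs_of_pos hDpos] at h4
    rw [h4]
    have h5 : 0 ≤ (g' : ℝ) - g := by
      have : (g : ℝ) < g' := by exact_mod_cast hgg
      linarith
    rw [abs_of_nonneg h5]
    refine mul_le_mul_of_nonneg_left ?_ h5
    calc |((l h : ℝ) - h * v) - ((l h' : ℝ) - h' * v)| ≤ |(l h : ℝ) - h * v| +
          |(l h' : ℝ) - h' * v| := abs_sub _ _
      _ ≤ 2 * W := by linarith
  have h6 : (g' : ℝ) - g ≤ m := by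
    have : (g' : ℝ) ≤ g + m := by exact_mod_cast hdiff
    linarith
  have h7 : κ₀ * (c * K / 2 - 1) ≤ κ₀ * ((h' : ℝ) - h) := mul_le_mul_of_nonneg_left hD.le hκ.le
  have h8 : ((h' : ℝ) - h) * κ₀ ≤ ((h' : ℝ) - h) *
      |((g' : ℝ) - g) * v - ((l g' : ℝ) - l g)| := mul_le_mul_of_nonneg_left h1 hDpos.le
  have h9 : ((g' : ℝ) - g) * (2 * W) ≤ m * (2 * W) :=
    mul_le_mul_of_nonneg_right h6 (by positivity)
  linarith

end Pool.Agent.Helper44K9.FN
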