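import Pool.Agent.Helper44K9.FN.Stm
import Pool.Agent.Helper44K9.FB.Mu

/-! Two-step nilmanifolds: assembly. -/

set_option autoImplicit false

namespace Pool.Agent.Helper44K9.FN

open Finset MeasureTheory Polynomial
open Pool.Agent.H807R2.Dav (ee norm_ee)
open Pool.Agent.Helper44K9.FU (Mul1 MM S_TK S_EQ S_DIL S_PIG S_SUB)
open Pool.Agent.Helper44K9.FB (lf aff oSup mu mu_mult fb_mu lf_cont)

lemma Cl_bdd {d : ℕ} {φ : (Fin d → ℝ) → ℂ} (hφ : ∀ x, ‖φ x‖ ≤ 1) {A : Set (Fin d → ℝ)} {ψ : ℕ → ℂ} (hψ : ψ ∈ Cl φ A)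
    (m : ℕ) : ‖ψ m‖ ≤ 1 := by
  obtain ⟨α, _, x, P, _, h⟩ := hψ
  rw [h, norm_mul, norm_ee, one_mul]
  exact hφ _

lemma Cl_clos {d : ℕ} {b : Matrix (Fin d) (Fin d) ℤ} {φ : (Fin d → ℝ) → ℂ} (hφ : Th b φ) : Clos (Cl φ Set.univ) := by
  refine ⟨fun ψ hψ m => Cl_bdd hφ.2.1 hψ m, ?_⟩
  rintro ψ ⟨α, _, x, P, hP, h⟩ p
  refine ⟨(p : ℝ) • α, trivial, x, P.comp (C (p : ℝ) * X), ?_, fun m => ?_⟩
  · refine (natDegree_comp_le).trans ?_
    have h1 : (C (p : ℝ) * X : ℝ[X]).natDegree ≤ 1 := (natDegree_C_mul_le _ _).trans natDegree_X_le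
    calc P.natDegree * (C (p : ℝ) * X : ℝ[X]).natDegree ≤ 2 * 1 := Nat.mul_le_mul hP h1
      _ = 2 := rfl
  · show ψ (p * m) = _
    rw [h, smul_smul]
    push_cast
    rw [eval_comp, eval_mul, eval_C, eval_X, mul_comm (m : ℝ) (p : ℝ)]

lemma Cl_mono {d : ℕ} (φ : (Fin d → ℝ) → ℂ) {A B : Set (Fin d → ℝ)} (h : A ⊆ B) : Cl φ A ⊆ Cl φ B := by
  rintro ψ ⟨α, hα, r⟩
  exact ⟨α, h hα, r⟩

lemma coe_fract (a : ℝ) : ((Int.fract a : ℝ) : UnitAddCircle) = (a : UnitAddCircle) := by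
  have h : (a : UnitAddCircle) = ((Int.fract a + (⌊a⌋ : ℝ) : ℝ) : UnitAddCircle) := by
    rw [Int.fract_add_floor]
  rw [h, AddCircle.coe_add]
  have h2 : (((⌊a⌋ : ℤ) : ℝ) : UnitAddCircle) = 0 := by
    rw [AddCircle.coe_eq_zero_iff]
    exact ⟨⌊a⌋, by simp⟩
  rw [h2, add_zero]

lemma md_fr {d : ℕ} (α : Fin d → ℝ) : md (fr α) = md α := funext fun i => coe_fract (α i)

lemma fr_box {d : ℕ} (α : Fin d → ℝ) : fr α ∈ Box d := fun i => ⟨Int.fract_nonneg _, Int.fract_lt_one _⟩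

lemma cw_le {f ψ : ℕ → ℂ} (hf : ∀ n, ‖f n‖ ≤ 1) (hψ : ∀ n, ‖ψ n‖ ≤ 1) (n H : ℕ) : cw f ψ n H ≤ H := by
  unfold cw
  refine (norm_sum_le _ _).trans ?_
  calc ∑ m ∈ Ioc n (n + H), ‖f m * ψ m‖ ≤ ∑ m ∈ Ioc n (n + H), (1 : ℝ) := by
        refine sum_le_sum fun m _ => ?_
        rw [norm_mul]
        exact mul_le_one₀ (hf m) (norm_nonneg _) (hψ m)
    _ = H := by simp

lemma le_sT {T : Set (ℕ → ℂ)} (hT : ∀ ψ ∈ T, ∀ m, ‖ψ m‖ ≤ 1) {f : ℕ → ℂ} (hf : ∀ n, ‖f n‖ ≤ 1) {ψ : ℕ → ℂ} (hψ : ψ ∈ T)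
    (n H : ℕ) : cw f ψ n H ≤ sT T f n H := by
  refine le_ciSup (f := fun φ : T => cw f φ n H) ⟨H, ?_⟩ (⟨ψ, hψ⟩ : T)
  rintro _ ⟨φ, rfl⟩
  exact cw_le hf (hT _ φ.2) n H

lemma sT_nonneg (T : Set (ℕ → ℂ)) (f : ℕ → ℂ) (n H : ℕ) : 0 ≤ sT T f n H :=
  Real.iSup_nonneg fun _ => norm_nonneg _

/-- the vertical characters -/
theorem vert_part (hFINA : S_FINA) (hEQN : S_EQN) (hLSN : S_LSN) {d : ℕ} {b : Matrix (Fin d) (Fin d) ℤ}
    {φ : (Fin d → ℝ) → ℂ} (hφ : Th b φ) (hb : b.transpose ≠ b) {E : Set (Fin d → UnitAddCircle)} (hEc : IsCompact E)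
    (hEi : Irr E) (hEv : ∀ k : Fin d → ℤ, k ≠ 0 → volume (lf k '' E) = 0) (ε : ℝ) (hε : 0 < ε) :
    ∃ H₀ : ℕ, ∀ f : ℕ → ℂ, Mul1 f → ∀ N H : ℕ, H₀ ≤ H → H ≤ N →
      ∑ n ∈ Icc 1 N, (1 / (n : ℝ)) * sT (Cl φ (Tg E)) f n H ≤ ε * H * Real.log N :=
  hFINA (Cl φ Set.univ) (Cl φ (Tg E)) (Cl_clos hφ) (Cl_mono φ (Set.subset_univ _)) (hEQN d b φ hφ hb E hEc hEi hEv)
    (hLSN d b φ hφ hb E hEc hEi) ε hε

lemma aff_one {d : ℕ} (b x : Fin d → UnitAddCircle) : aff (1 : Matrix (Fin d) (Fin d) ℤ) b x = x + b := by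
  funext i
  unfold aff
  simp only [Pi.add_apply]
  congr 1
  rw [sum_eq_single i]
  · rw [Matrix.one_apply_eq, one_smul]
  · intro j _ hj
    rw [Matrix.one_apply_ne (Ne.symm hj), zero_smul]
  · intro h
    exact absurd (mem_univ i) h

lemma aff_iter {d : ℕ} (α x : Fin d → ℝ) (n : ℕ) :
    (aff (1 : Matrix (Fin d) (Fin d) ℤ) (md α))^[n] (md x) = md ((n : ℝ) • α + x) := by
  induction n with
  | zero => simp
  | succ n ih =>
    rw [Function.iterate_succ_apply', ih, aff_one]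
    funext i
    simp only [md, Pi.add_apply, Pi.smul_apply, smul_eq_mul]
    rw [← AddCircle.coe_add]
    congr 1
    push_cast
    ring

/-- periodic functions live on the torus -/
lemma lift_torus {d : ℕ} {φ : (Fin d → ℝ) → ℂ} (hc : Continuous φ) (hp : ∀ (x : Fin d → ℝ) (m : Fin d → ℤ),
    φ (x + cst m) = φ x) : ∃ F : C(Fin d → UnitAddCircle, ℂ), ∀ x, F (md x) = φ x := by
  have hq : IsOpenQuotientMap (fun x : Fin d → ℝ => md x) := by
    have h1 : ∀ i : Fin d, IsOpenQuotientMap (fun t : ℝ => (t : UnitAddCircle)) := fun _ =>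
      QuotientAddGroup.isOpenQuotientMap_mk
    exact IsOpenQuotientMap.piMap h1
  have hfib : ∀ x y : Fin d → ℝ, md x = md y → φ x = φ y := by
    intro x y hxy
    have h1 : ∀ i, ∃ m : ℤ, x i - y i = m := by
      intro i
      have h2 : (x i : UnitAddCircle) = (y i : UnitAddCircle) := congrFun hxy i
      have h3 : ((x i - y i : ℝ) : UnitAddCircle) = 0 := by rw [AddCircle.coe_sub, h2, sub_self]
      rw [AddCircle.coe_eq_zero_iff] at h3
      obtain ⟨m, hm⟩ := h3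
      exact ⟨m, by rw [← hm]; simp⟩
    choose m hm using h1
    have h4 : x = y + cst m := by
      funext i
      simp only [Pi.add_apply, cst]
      linarith [hm i]
    rw [h4]
    exact hp y m
  have hsurj := hq.surjective
  choose g hg using hsurj
  refine ⟨⟨fun z => φ (g z), ?_⟩, fun x => ?_⟩
  · rw [hq.isQuotientMap.continuous_iff]
    have : (fun z => φ (g z)) ∘ (fun x : Fin d → ℝ => md x) = φ := by
      funext x
      exact hfib _ _ (hg (md x))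
    rw [this]
    exact hc
  · exact hfib _ _ (hg (md x))

/-- the supremum over the rotations with horizontal part in `E` and all starting points -/
noncomputable def nSup {d c : ℕ} (β : Fin c → Matrix (Fin d) (Fin d) ℤ) (F : (Fin d → ℝ) × (Fin c → ℝ) → ℂ)
    (E : Set (Fin d → UnitAddCircle)) (f : ℕ → ℂ) (n H : ℕ) : ℝ :=
  ⨆ p : {g : (Fin d → ℝ) × (Fin c → ℝ) // md g.1 ∈ E} × ((Fin d → ℝ) × (Fin c → ℝ)),
    ‖∑ h ∈ Icc 1 H, f (n + h) * F ((mulG β p.1.1)^[n + h] p.2)‖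

lemma Ioc_image (n H : ℕ) : Ioc n (n + H) = (Icc 1 H).image (fun h => n + h) := by
  ext m
  simp only [mem_Ioc, mem_image, mem_Icc]
  constructor
  · intro h; exact ⟨m - n, by omega, by omega⟩
  · rintro ⟨j, hj, rfl⟩; omega

lemma sum_win (u : ℕ → ℂ) (n H : ℕ) : ∑ m ∈ Ioc n (n + H), u m = ∑ h ∈ Icc 1 H, u (n + h) := by
  rw [Ioc_image, sum_image fun a _ b _ hab => by omega]

/-- **assembly** -/
theorem asm (hFINA : S_FINA) (hEQN : S_EQN) (hLSN : S_LSN) (hRED : S_RED) (hORB : S_ORB) (hVERT : S_VERT)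
    {d c : ℕ} (β : Fin c → Matrix (Fin d) (Fin d) ℤ) (hβ : ∀ k : Fin c → ℤ, k ≠ 0 → (vb β k).transpose ≠ vb β k)
    (F : (Fin d → ℝ) × (Fin c → ℝ) → ℂ) (hF : Continuous F)
    (hinv : ∀ (g : (Fin d → ℝ) × (Fin c → ℝ)) (m : Fin d → ℤ) (j : Fin c → ℤ), F (mulG β g (cst m, cst j)) = F g)
    {E : Set (Fin d → UnitAddCircle)} (hEc : IsCompact E) (hEi : Irr E)
    (hEv : ∀ k : Fin d → ℤ, k ≠ 0 → volume (lf k '' E) = 0) (ε : ℝ) (hε : 0 < ε) :
    ∃ H₀ : ℕ, ∀ N H : ℕ, H₀ ≤ H → H ≤ N →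
      ∑ n ∈ Icc 1 N, (1 / (n : ℝ)) * nSup β F E mu n H ≤ ε * H * Real.log N := by
  classical
  obtain ⟨S, φ, M, hM, hφ, hS⟩ := hVERT d c β F hF hinv (ε / 8) (by positivity)
  set S' : Finset (Fin c → ℤ) := S.filter (fun k => k ≠ 0) with hS'
  -- normalized functions
  have hTh : ∀ k, Th (vb β k) (fun x => φ k x / M) := by
    intro k
    refine ⟨(hφ k).1.div_const _, fun x => ?_, fun x m => ?_⟩
    · rw [norm_div, Complex.norm_real, Real.norm_of_nonneg hM.le, div_le_one hM]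
      exact (hφ k).2.1 x
    · show φ k (x + cst m) / M = _ * (φ k x / M)
      rw [(hφ k).2.2 x m, mul_div_assoc]
  -- the vertical characters
  have hchar : ∀ k : Fin c → ℤ, ∃ H₀ : ℕ, k ∈ S' → ∀ N H : ℕ, H₀ ≤ H → H ≤ N →
      ∑ n ∈ Icc 1 N, (1 / (n : ℝ)) * sT (Cl (fun x => φ k x / M) (Tg E)) mu n H ≤
        (ε / (4 * (#S' + 1) * M)) * H * Real.log N := by
    intro k
    by_cases hk : k ∈ S'
    · have hk0 : k ≠ 0 := (mem_filter.1 hk).2
      obtain ⟨H₀, h⟩ := vert_part hFINA hEQN hLSN (hTh k) (hβ k hk0) hEc hEi hEv (ε / (4 * (#S' + 1) * M))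
        (by positivity)
      exact ⟨H₀, fun _ => h mu mu_mult⟩
    · exact ⟨0, fun h => absurd h hk⟩
  choose HG hG using hchar
  -- the horizontal part
  have hvb0 : vb β (0 : Fin c → ℤ) = 0 := by unfold vb; simp
  have hbf0 : ∀ x y : Fin d → ℝ, bf (0 : Matrix (Fin d) (Fin d) ℤ) x y = 0 := by intro x y; unfold bf; simp
  have hper : ∀ (x : Fin d → ℝ) (m : Fin d → ℤ), φ 0 (x + cst m) = φ 0 x := by
    intro x m
    rw [(hφ 0).2.2 x m, hvb0, hbf0]
    unfold ee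
    simp
  obtain ⟨F₀, hF₀⟩ := lift_torus (hφ 0).1 hper
  obtain ⟨HZ, hZ⟩ := fb_mu (s := 1) (A := (1 : Matrix (Fin d) (Fin d) ℤ)) (by simp) F₀ hEc
    (fun k hk _ => ⟨hEv k hk, hEi k hk⟩) (ε / 4) (by positivity)
  refine ⟨∑ k ∈ S', HG k + HZ + 3, fun N H hH hN => ?_⟩
  have hHr : (0 : ℝ) < H := by exact_mod_cast (by omega : 0 < H)
  have hNr : (3 : ℝ) ≤ N := by exact_mod_cast (by omega : 3 ≤ N)
  have hlog : 1 ≤ Real.log N := by
    rw [Real.le_log_iff_exp_le (by linarith)]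
    linarith [Real.exp_one_lt_d9]
  have hharm : ∑ n ∈ Icc 1 N, 1 / (n : ℝ) ≤ 1 + Real.log N := by
    have h1 := harmonic_le_one_add_log N
    refine le_trans (le_of_eq ?_) h1
    rw [harmonic_eq_sum_Icc]
    push_cast
    exact sum_congr rfl fun x _ => one_div _
  have hμ := mu_mult.1
  -- pointwise
  have hpt : ∀ n, nSup β F E mu n H ≤ ∑ k ∈ S', M * sT (Cl (fun x => φ k x / M) (Tg E)) mu n H +
      oSup (1 : Matrix (Fin d) (Fin d) ℤ) F₀ E mu n H + ε / 8 * H := by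
    intro n
    have hnn : 0 ≤ ∑ k ∈ S', M * sT (Cl (fun x => φ k x / M) (Tg E)) mu n H +
        oSup (1 : Matrix (Fin d) (Fin d) ℤ) F₀ E mu n H + ε / 8 * H := by
      refine add_nonneg (add_nonneg (sum_nonneg fun k _ => mul_nonneg hM.le (sT_nonneg _ _ _ _)) ?_) (by positivity)
      exact Real.iSup_nonneg fun _ => norm_nonneg _
    refine Real.iSup_le (fun p => ?_) hnn
    obtain ⟨⟨g, hg⟩, y⟩ := p
    show ‖∑ h ∈ Icc 1 H, mu (n + h) * F ((mulG β g)^[n + h] y)‖ ≤ _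
    set z : ℕ → (Fin d → ℝ) × (Fin c → ℝ) := fun m => (mulG β g)^[m] y with hz
    have hz1 : ∀ m, (z m).1 = (m : ℝ) • g.1 + y.1 := by
      intro m
      obtain ⟨P, _, hP⟩ := hORB d c β 0 g y
      exact (hP m).1
    -- one nonzero character
    have hone : ∀ k ∈ S', ‖∑ h ∈ Icc 1 H, mu (n + h) * (ee (dt k (z (n + h)).2) * φ k (z (n + h)).1)‖ ≤
        M * sT (Cl (fun x => φ k x / M) (Tg E)) mu n H := by
      intro k _
      obtain ⟨P, hP2, hP⟩ := hORB d c β k g y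
      obtain ⟨P', hP'2, hP'⟩ := hRED d (vb β k) (fun x => φ k x / M) (hTh k) g.1 y.1 P hP2
      have h1 : ∑ h ∈ Icc 1 H, mu (n + h) * (ee (dt k (z (n + h)).2) * φ k (z (n + h)).1) =
          M * ∑ m ∈ Ioc n (n + H), mu m * (ee (P'.eval (m : ℝ)) * (φ k ((m : ℝ) • fr g.1 + y.1) / M)) := by
        rw [sum_win, mul_sum]
        refine sum_congr rfl fun h _ => ?_
        rw [← hP' (n + h), (hP (n + h)).2, (hP (n + h)).1]
        have hM0 : (M : ℂ) ≠ 0 := by exact_mod_cast hM.ne'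
        field_simp
      rw [h1, norm_mul, Complex.norm_real, Real.norm_of_nonneg hM.le]
      refine mul_le_mul_of_nonneg_left ?_ hM.le
      refine le_sT (T := Cl (fun x => φ k x / M) (Tg E)) (fun ψ hψ m => Cl_bdd (hTh k).2.1 hψ m) hμ
        (ψ := fun m => ee (P'.eval (m : ℝ)) * (φ k ((m : ℝ) • fr g.1 + y.1) / M)) ?_ n H
      exact ⟨fr g.1, ⟨fr_box _, by rw [md_fr]; exact hg⟩, y.1, P', hP'2, fun m => rfl⟩
    -- the zero character
    have hzero : ‖∑ h ∈ Icc 1 H, mu (n + h) * φ 0 (z (n + h)).1‖ ≤ oSup (1 : Matrix (Fin d) (Fin d) ℤ) F₀ E mu n H := by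
      have h1 : ∑ h ∈ Icc 1 H, mu (n + h) * φ 0 (z (n + h)).1 =
          ∑ h ∈ Icc 1 H, mu (n + h) * F₀ ((aff (1 : Matrix (Fin d) (Fin d) ℤ) (md g.1))^[n + h] (md y.1)) := by
        refine sum_congr rfl fun h _ => ?_
        rw [aff_iter, hF₀, hz1]
      rw [h1]
      have hbdd : BddAbove (Set.range fun p : E × (Fin d → UnitAddCircle) =>
          ‖∑ h ∈ Icc 1 H, mu (n + h) * F₀ ((aff (1 : Matrix (Fin d) (Fin d) ℤ) p.1)^[n + h] p.2)‖) := by
        refine ⟨∑ h ∈ Icc 1 H, ‖F₀‖, ?_⟩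
        rintro _ ⟨p, rfl⟩
        refine (norm_sum_le _ _).trans (sum_le_sum fun h _ => ?_)
        rw [norm_mul]
        calc _ ≤ 1 * ‖F₀ ((aff (1 : Matrix (Fin d) (Fin d) ℤ) p.1)^[n + h] p.2)‖ :=
              mul_le_mul_of_nonneg_right (hμ _) (norm_nonneg _)
          _ ≤ _ := by rw [one_mul]; exact F₀.norm_coe_le_norm _
      exact le_ciSup hbdd (⟨md g.1, hg⟩, md y.1)
    -- the error
    have herr : ‖∑ h ∈ Icc 1 H, mu (n + h) * (F (z (n + h)) - ∑ k ∈ S, ee (dt k (z (n + h)).2) * φ k (z (n + h)).1)‖ ≤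
        ε / 8 * H := by
      refine (norm_sum_le _ _).trans ?_
      calc ∑ h ∈ Icc 1 H, ‖mu (n + h) * (F (z (n + h)) - ∑ k ∈ S, ee (dt k (z (n + h)).2) * φ k (z (n + h)).1)‖ ≤
          ∑ h ∈ Icc 1 H, ε / 8 := by
            refine sum_le_sum fun h _ => ?_
            rw [norm_mul]
            calc _ ≤ 1 * ‖F (z (n + h)) - ∑ k ∈ S, ee (dt k (z (n + h)).2) * φ k (z (n + h)).1‖ :=
                  mul_le_mul_of_nonneg_right (hμ _) (norm_nonneg _)
              _ ≤ ε / 8 := by rw [one_mul]; exact hS _ _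
        _ = ε / 8 * H := by rw [sum_const, Nat.card_Icc, nsmul_eq_mul]; simp [mul_comm]
    -- the decomposition
    have hsplit : ∑ h ∈ Icc 1 H, mu (n + h) * F (z (n + h)) =
        ∑ k ∈ S', ∑ h ∈ Icc 1 H, mu (n + h) * (ee (dt k (z (n + h)).2) * φ k (z (n + h)).1) +
        (if (0 : Fin c → ℤ) ∈ S then 1 else 0) * ∑ h ∈ Icc 1 H, mu (n + h) * φ 0 (z (n + h)).1 +
        ∑ h ∈ Icc 1 H, mu (n + h) * (F (z (n + h)) - ∑ k ∈ S, ee (dt k (z (n + h)).2) * φ k (z (n + h)).1) := by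
      rw [sum_comm, mul_sum, ← sum_add_distrib, ← sum_add_distrib]
      refine sum_congr rfl fun h _ => ?_
      have h1 := sum_filter_add_sum_filter_not S (fun k : Fin c → ℤ => k ≠ 0)
        (fun k => ee (dt k (z (n + h)).2) * φ k (z (n + h)).1)
      have h2 : ∑ k ∈ S.filter (fun k => ¬ k ≠ 0), ee (dt k (z (n + h)).2) * φ k (z (n + h)).1 =
          (if (0 : Fin c → ℤ) ∈ S then 1 else 0) * φ 0 (z (n + h)).1 := by
        have h3 : ∀ k ∈ S.filter (fun k => ¬ k ≠ 0), ee (dt k (z (n + h)).2) * φ k (z (n + h)).1 =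
            φ 0 (z (n + h)).1 := by
          intro k hk
          have h4 : k = 0 := not_not.1 (mem_filter.1 hk).2
          subst h4
          have h5 : dt (0 : Fin c → ℤ) (z (n + h)).2 = 0 := by unfold dt; simp
          rw [h5]
          unfold ee
          simp
        rw [sum_congr rfl h3, sum_const]
        have h5 : S.filter (fun k => ¬ k ≠ 0) = if (0 : Fin c → ℤ) ∈ S then {0} else ∅ := by
          ext k
          simp only [mem_filter, not_not]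
          split_ifs with h6
          · rw [mem_singleton]
            constructor
            · exact fun h => h.2
            · rintro rfl; exact ⟨h6, rfl⟩
          · constructor
            · rintro ⟨h7, rfl⟩; exact absurd h7 h6
            · intro h; simp at h
        rw [h5]
        split_ifs <;> simp
      rw [← h1, h2, ← mul_sum]
      ring
    rw [hsplit]
    refine (norm_add_le _ _).trans (add_le_add ((norm_add_le _ _).trans (add_le_add ?_ ?_)) herr)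
    · exact (norm_sum_le _ _).trans (sum_le_sum fun k hk => hone k hk)
    · rw [norm_mul]
      have h1 : ‖(if (0 : Fin c → ℤ) ∈ S then (1 : ℂ) else 0)‖ ≤ 1 := by split_ifs <;> simp
      calc _ ≤ 1 * ‖∑ h ∈ Icc 1 H, mu (n + h) * φ 0 (z (n + h)).1‖ := mul_le_mul_of_nonneg_right h1 (norm_nonneg _)
        _ ≤ _ := by rw [one_mul]; exact hzero
  calc ∑ n ∈ Icc 1 N, (1 / (n : ℝ)) * nSup β F E mu n H ≤
      ∑ n ∈ Icc 1 N, (1 / (n : ℝ)) * (∑ k ∈ S', M * sT (Cl (fun x => φ k x / M) (Tg E)) mu n H +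
        oSup (1 : Matrix (Fin d) (Fin d) ℤ) F₀ E mu n H + ε / 8 * H) :=
        sum_le_sum fun n _ => mul_le_mul_of_nonneg_left (hpt n) (by positivity)
    _ = ∑ k ∈ S', M * ∑ n ∈ Icc 1 N, (1 / (n : ℝ)) * sT (Cl (fun x => φ k x / M) (Tg E)) mu n H +
        ∑ n ∈ Icc 1 N, (1 / (n : ℝ)) * oSup (1 : Matrix (Fin d) (Fin d) ℤ) F₀ E mu n H +
        ε / 8 * H * ∑ n ∈ Icc 1 N, 1 / (n : ℝ) := by
        simp only [mul_add, sum_add_distrib, mul_sum]
        rw [sum_comm]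
        congr 1
        · congr 1
          refine sum_congr rfl fun k _ => sum_congr rfl fun n _ => ?_
          ring
        · refine sum_congr rfl fun n _ => ?_
          ring
    _ ≤ ∑ k ∈ S', (ε / (4 * (#S' + 1))) * H * Real.log N + ε / 4 * H * Real.log N +
        ε / 8 * H * (1 + Real.log N) := by
        refine add_le_add (add_le_add (sum_le_sum fun k hk => ?_) (hZ N H (by omega) hN))
          (mul_le_mul_of_nonneg_left hharm (by positivity))
        have h1 : HG k ≤ ∑ k ∈ S', HG k := single_le_sum (f := HG) (fun _ _ => Nat.zero_le _) hk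
        have h2 := hG k hk N H (by omega) hN
        refine (mul_le_mul_of_nonneg_left h2 hM.le).trans (le_of_eq ?_)
        field_simp
    _ ≤ ε / 4 * H * Real.log N + ε / 4 * H * Real.log N + ε / 8 * H * (1 + Real.log N) := by
        refine add_le_add (add_le_add ?_ le_rfl) le_rfl
        rw [sum_const, nsmul_eq_mul]
        have h1 : (#S' : ℝ) * (ε / (4 * (#S' + 1)) * H * Real.log N) = (#S' * (ε / (4 * (#S' + 1)))) * (H * Real.log N) := by
          ring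
        rw [h1, mul_assoc (ε / 4)]
        refine mul_le_mul_of_nonneg_right ?_ (by positivity)
        rw [mul_div_assoc', div_le_div_iff₀ (by positivity) (by norm_num)]
        nlinarith
    _ ≤ ε * H * Real.log N := by
        have h1 : 0 < ε * H := by positivity
        nlinarith

end Pool.Agent.Helper44K9.FN
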