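import Pool.Agent.Helper44K9.FN.Stm

/-! Project FN: the mean value. -/

set_option autoImplicit false

namespace Pool.Agent.Helper44K9.FN

open Finset MeasureTheory
open Pool.Agent.H807R2.Dav (ee)

/-- the mean value over the unit cube -/
noncomputable def meanF {d c : ℕ} (F : (Fin d → ℝ) × (Fin c → ℝ) → ℂ) : ℂ :=
  ∫ p in Set.Icc (0 : (Fin d → ℝ) × (Fin c → ℝ)) 1, F p

open Classical in
/-- [MEAN] Proof: integrate the approximation over the cube: `∫ e(k · t) dt = 0` over `[0,1]^c` for `k ≠ 0`, and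
`∫ φ_0` over `[0,1]^d` is the integral of `F₀` over the torus (see `mFourierCoeff_eq_integral` in Mathlib's
AddCircleMulti and `FB.mean_zero`). -/
def S_MEAN : Prop := ∀ (d c : ℕ) (F : (Fin d → ℝ) × (Fin c → ℝ) → ℂ), Continuous F →
  ∀ (S : Finset (Fin c → ℤ)) (φ : (Fin c → ℤ) → (Fin d → ℝ) → ℂ), (∀ k, Continuous (φ k)) → ∀ ε : ℝ,
  (∀ (x : Fin d → ℝ) (t : Fin c → ℝ), ‖F (x, t) - ∑ k ∈ S, ee (dt k t) * φ k x‖ ≤ ε) →
  ∀ F₀ : C(Fin d → UnitAddCircle, ℂ), (∀ x, F₀ (md x) = φ 0 x) →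
  ‖meanF F - (if (0 : Fin c → ℤ) ∈ S then ∫ y, F₀ y else 0)‖ ≤ ε

end Pool.Agent.Helper44K9.FN
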