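import Pool.Agent.Helper44K9.FN.Lsn

/-!
# [EQN] equidistribution over primes (helper27)
-/

set_option autoImplicit false

namespace Pool.Agent.Helper44K9.FN

open Finset MeasureTheory Polynomial
open Pool.Agent.H807R2.Dav (ee)
open Pool.Agent.Helper44K9.FU (Mul1 MM S_TK S_EQ S_DIL S_PIG S_SUB)

namespace EqnL

theorem lf_cont {d : ℕ} (k : Fin d → ℤ) : Continuous (FB.lf k) := by
  unfold FB.lf
  fun_prop

theorem lf_md {d : ℕ} (k : Fin d → ℤ) (x : Fin d → ℝ) : FB.lf k (md x) = ((dt k x : ℝ) : UnitAddCircle) := by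
  unfold FB.lf md dt
  have h : ((∑ i, (k i : ℝ) * x i : ℝ) : UnitAddCircle) = ∑ i, (((k i : ℝ) * x i : ℝ) : UnitAddCircle) :=
    map_sum (QuotientAddGroup.mk' (AddSubgroup.zmultiples (1 : ℝ))) _ _
  rw [h]
  refine sum_congr rfl fun i _ => ?_
  rw [← AddCircle.coe_zsmul, zsmul_eq_mul]

/-- the small integer vectors -/
noncomputable def Bx (d K : ℕ) : Finset (Fin d → ℤ) := Fintype.piFinset fun _ => Icc (-(K : ℤ)) K

theorem mem_Bx {d K : ℕ} {ζ : Fin d → ℤ} (h : ∀ i, |ζ i| ≤ K) : ζ ∈ Bx d K := by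
  unfold Bx
  rw [Fintype.mem_piFinset]
  intro i
  rw [mem_Icc]
  exact abs_le.1 (h i)

/-- `ζ' · fr (p β)` is `p (ζ' · β)` modulo one -/
theorem dt_fr {d : ℕ} (ζ : Fin d → ℤ) (p : ℝ) (β : Fin d → ℝ) :
    ∃ j : ℤ, dt ζ (fr (p • β)) = p * dt ζ β - j := by
  refine ⟨∑ i, ζ i * ⌊p * β i⌋, ?_⟩
  unfold dt fr
  push_cast
  rw [mul_sum, ← sum_sub_distrib]
  refine sum_congr rfl fun i _ => ?_
  rw [Pi.smul_apply, smul_eq_mul]
  have : Int.fract (p * β i) = p * β i - ⌊p * β i⌋ := rfl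
  rw [this]
  ring

theorem fr_box {d : ℕ} (x : Fin d → ℝ) : fr x ∈ Box d := fun _ => ⟨Int.fract_nonneg _, Int.fract_lt_one _⟩

open Classical in
theorem sum_bi {ι : Type*} (s : Finset ι) (t : ι → Finset ℕ) (f : ℕ → ℝ) (hf : ∀ n, 0 ≤ f n) :
    ∑ p ∈ s.biUnion t, f p ≤ ∑ i ∈ s, ∑ p ∈ t i, f p := by
  induction s using Finset.induction_on with
  | empty => simp
  | insert a s ha ih =>
    rw [biUnion_insert, sum_insert ha]
    have h1 := sum_union_inter (s₁ := t a) (s₂ := s.biUnion t) (f := f)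
    have h2 : 0 ≤ ∑ p ∈ t a ∩ s.biUnion t, f p := sum_nonneg fun p _ => hf p
    linarith

end EqnL

open LsnL EqnL in
theorem eqn : S_RED → S_VDC → S_INV → S_EQ → S_EQN := by
  classical
  intro hred hvdc hinv heq d b φ hφ hb E hE hEi hE0 δ c hδ hc z A
  obtain ⟨S, C, c', H₀, hC, hc', hV⟩ := hvdc d b φ hφ δ hδ
  obtain ⟨K, H₁, hI⟩ := hinv d b hb E hE hEi S C c' hC hc'
  set N : ℝ := (Bx d K).card + 1 with hN
  have hN0 : 0 < N := by positivity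
  obtain ⟨δ', hδ', hEQ⟩ := heq 1 1 le_rfl le_rfl (c / N) (by positivity)
  -- the union of the images
  set Es : Set UnitAddCircle := ⋃ ζ ∈ (Bx d K).filter (fun ζ => ζ ≠ 0), FB.lf ζ '' E with hEs
  have hEsc : IsCompact Es := by
    apply Finset.isCompact_biUnion
    intro ζ _
    exact hE.image (lf_cont ζ)
  have hEs0 : volume Es ≤ ENNReal.ofReal δ' := by
    have h1 : volume Es ≤ ∑ ζ ∈ (Bx d K).filter (fun ζ => ζ ≠ 0), volume (FB.lf ζ '' E) :=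
      measure_biUnion_finset_le _ _
    have h2 : ∑ ζ ∈ (Bx d K).filter (fun ζ => ζ ≠ 0), volume (FB.lf ζ '' E) = 0 := by
      apply Finset.sum_eq_zero
      intro ζ hζ
      exact hE0 ζ (mem_filter.1 hζ).2
    rw [h2] at h1
    exact h1.trans (by positivity)
  have hEst : ∀ x ∈ Es, addOrderOf x = 0 := by
    intro x hx
    rw [hEs] at hx
    simp only [Set.mem_iUnion] at hx
    obtain ⟨ζ, hζ, y, hy, rfl⟩ := hx
    exact hEi ζ (mem_filter.1 hζ).2 y hy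
  obtain ⟨I, hI1, hI2, τ, hτ, hI3⟩ := hEQ Es hEsc hEs0 hEst z A
  refine ⟨I, hI1, hI2, ?_⟩
  obtain ⟨B, hB⟩ : ∃ B : ℕ, ∀ p ∈ I, p ≤ B := ⟨I.sup id, fun p hp => le_sup (f := id) hp⟩
  obtain ⟨H₂, hH₂⟩ := exists_nat_gt ((K : ℝ) / τ)
  refine ⟨B * (max H₀ (max H₁ (H₂ + 1))), fun H hH n ψ hψ => ?_⟩
  obtain ⟨β, -, y, P, hP, hψ⟩ := hψ
  set s : ℝ := ∑ p ∈ I, 1 / (p : ℝ) with hs
  have hs0 : 0 ≤ s := sum_nonneg fun p _ => by positivity
  -- the primes of the filter are in one of the sets of `S_EQ`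
  have hsub : ∀ p ∈ I.filter (fun p : ℕ => ∃ φ' ∈ Cl φ (Tg E), δ * ((H / p : ℕ) : ℝ) ≤
      pw φ' (fun m => ψ (p * m)) (n / p) (H / p)), ∃ ζ' ∈ Bx d K,
      p ∈ I.filter (fun p : ℕ => ∃ β' : ℝ, (β' : UnitAddCircle) ∈ Es ∧ ∃ m : ℕ, 1 ≤ m ∧ m ≤ 1 ∧ ∃ a : ℤ,
      |m * (β' - (p : ℝ) ^ 1 * dt ζ' β) - a| ≤ τ) := by
    intro p hp
    rw [mem_filter] at hp
    obtain ⟨hpI, φ', hφ', hcor⟩ := hp
    have hp0 : 0 < p := (hI1 p hpI).1.pos
    have hdiv : max H₀ (max H₁ (H₂ + 1)) ≤ H / p := by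
      rw [Nat.le_div_iff_mul_le hp0]
      calc max H₀ (max H₁ (H₂ + 1)) * p ≤ max H₀ (max H₁ (H₂ + 1)) * B :=
            Nat.mul_le_mul_left _ (hB p hpI)
        _ = B * max H₀ (max H₁ (H₂ + 1)) := mul_comm _ _
        _ ≤ H := hH
    have hd0 : H₀ ≤ H / p := (le_max_left _ _).trans hdiv
    have hd1 : H₁ ≤ H / p := ((le_max_left _ _).trans (le_max_right _ _)).trans hdiv
    have hd2 : H₂ + 1 ≤ H / p := ((le_max_right _ _).trans (le_max_right _ _)).trans hdiv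
    obtain ⟨α, hα, x, Q, hQ, hφ'⟩ := hφ'
    obtain ⟨P1, hP1, h1⟩ := dil_seq hred hφ β y P hP p
    have hR : Rl b S C c' α (fr ((p : ℝ) • β)) (H / p) := by
      apply hV (H / p) hd0 (n / p) α (fr ((p : ℝ) • β)) x y (Q - P1) (deg_sub hQ hP1)
      refine hcor.trans (le_of_eq ?_)
      unfold pw
      congr 1
      refine sum_congr rfl fun m _ => ?_
      show φ' m * (starRingEnd ℂ) (ψ (p * m)) = _
      rw [hφ', hψ, h1]
      exact prod_seq _ _ _ _ _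
    obtain ⟨ζ, ζ', hζ0, hζ, hζ', a, ha⟩ := hI (H / p) hd1 α hα.1 hα.2 _ (fr_box _) hR
    obtain ⟨j, hj⟩ := dt_fr ζ' (p : ℝ) β
    refine ⟨ζ', mem_Bx hζ', mem_filter.2 ⟨hpI, dt ζ α, ?_, 1, le_rfl, le_rfl, a - j, ?_⟩⟩
    · rw [← lf_md, hEs]
      simp only [Set.mem_iUnion]
      exact ⟨ζ, mem_filter.2 ⟨mem_Bx hζ, hζ0⟩, md α, hα.2, rfl⟩
    · rw [hj] at ha
      have e : ((1 : ℕ) : ℝ) * (dt ζ α - (p : ℝ) ^ 1 * dt ζ' β) - ((a - j : ℤ) : ℝ) =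
          dt ζ α - ((p : ℝ) * dt ζ' β - j) - a := by
        push_cast
        ring
      rw [e]
      refine ha.trans ?_
      have h3 : ((H₂ : ℝ) + 1) ≤ ((H / p : ℕ) : ℝ) := by exact_mod_cast hd2
      have h4 : (0 : ℝ) ≤ H₂ := Nat.cast_nonneg _
      rw [div_le_iff₀ (by linarith)]
      have h5 : (K : ℝ) < τ * H₂ := by
        have := (div_lt_iff₀ hτ).1 hH₂
        linarith
      nlinarith
  calc ∑ p ∈ I.filter (fun p : ℕ => ∃ φ' ∈ Cl φ (Tg E), δ * ((H / p : ℕ) : ℝ) ≤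
        pw φ' (fun m => ψ (p * m)) (n / p) (H / p)), 1 / (p : ℝ)
      ≤ ∑ ζ' ∈ Bx d K, ∑ p ∈ I.filter (fun p : ℕ => ∃ β' : ℝ, (β' : UnitAddCircle) ∈ Es ∧ ∃ m : ℕ,
          1 ≤ m ∧ m ≤ 1 ∧ ∃ a : ℤ, |m * (β' - (p : ℝ) ^ 1 * dt ζ' β) - a| ≤ τ), 1 / (p : ℝ) := by
        refine (sum_le_sum_of_subset_of_nonneg (t := (Bx d K).biUnion fun ζ' =>
          I.filter (fun p : ℕ => ∃ β' : ℝ, (β' : UnitAddCircle) ∈ Es ∧ ∃ m : ℕ,
          1 ≤ m ∧ m ≤ 1 ∧ ∃ a : ℤ, |m * (β' - (p : ℝ) ^ 1 * dt ζ' β) - a| ≤ τ)) ?_ ?_).trans ?_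
        · intro p hp
          rw [mem_biUnion]
          exact hsub p hp
        · intro p _ _
          positivity
        · exact sum_bi _ _ _ fun p => by positivity
    _ ≤ ∑ ζ' ∈ Bx d K, c / N * s := by
        refine sum_le_sum fun ζ' _ => ?_
        exact hI3 (dt ζ' β)
    _ = (Bx d K).card * (c / N * s) := by rw [sum_const, nsmul_eq_mul]
    _ ≤ c * s := by
        have h1 : ((Bx d K).card : ℝ) ≤ N := by rw [hN]; linarith
        calc ((Bx d K).card : ℝ) * (c / N * s) ≤ N * (c / N * s) :=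
              mul_le_mul_of_nonneg_right h1 (by positivity)
          _ = c * s := by field_simp

end Pool.Agent.Helper44K9.FN
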