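import Pool.Agent.Helper44K9.FN.Stm

/-!
# Project FN, leaf FINA: from the doubly logarithmic averages to all scales.
-/

set_option autoImplicit false

namespace Pool.Agent.Helper44K9.FN

open Finset
open Pool.Agent.Helper44K9.FU (Mul1 S_SUB)

namespace FinaL

theorem cw_le {f ψ : ℕ → ℂ} (hf : ∀ n, ‖f n‖ ≤ 1) (hψ : ∀ n, ‖ψ n‖ ≤ 1) (n H : ℕ) :
    cw f ψ n H ≤ H := by
  unfold cw
  refine (norm_sum_le _ _).trans ?_
  calc ∑ m ∈ Ioc n (n + H), ‖f m * ψ m‖ ≤ ∑ m ∈ Ioc n (n + H), (1 : ℝ) := by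
        refine sum_le_sum fun m _ => ?_
        rw [norm_mul]
        exact mul_le_one₀ (hf m) (norm_nonneg _) (hψ m)
    _ = _ := by simp

/-- the sum over the window -/
noncomputable def WW (g : ℕ → ℂ) (n H : ℕ) : ℂ := ∑ m ∈ Ioc n (n + H), g m

lemma W_range (g : ℕ → ℂ) (n H : ℕ) : WW g n H = ∑ h ∈ range H, g (n + h + 1) := by
  unfold WW
  have h1 : Ioc n (n + H) = (range H).image (fun h => n + h + 1) := by
    ext m
    simp only [mem_Ioc, mem_image, mem_range]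
    constructor
    · intro h; exact ⟨m - n - 1, by omega, by omega⟩
    · rintro ⟨j, hj, rfl⟩; omega
  rw [h1, sum_image fun a _ b _ hab => by omega]

/-- shifting the window -/
lemma shift {g : ℕ → ℂ} (hg : ∀ n, ‖g n‖ ≤ 1) (n H j : ℕ) : ‖WW g n H - WW g (n + j) H‖ ≤ 2 * j := by
  induction j with
  | zero => simp
  | succ j ih =>
    have h1 : WW g (n + j) H - WW g (n + (j + 1)) H = g (n + j + 1) - g (n + j + H + 1) := by
      set F : ℕ → ℂ := fun m => g (n + j + m + 1) with hF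
      have e1 : WW g (n + j) H = ∑ h ∈ range H, F h := W_range g (n + j) H
      have e2 : WW g (n + (j + 1)) H = ∑ h ∈ range H, F (h + 1) := by
        rw [W_range]
        refine sum_congr rfl fun h _ => ?_
        simp only [hF]
        rw [show n + (j + 1) + h + 1 = n + j + (h + 1) + 1 by ring]
      have e3 := sum_range_succ F H
      have e4 := sum_range_succ' F H
      rw [e1, e2]
      have e5 : ∑ h ∈ range H, F h - ∑ h ∈ range H, F (h + 1) = F 0 - F H := by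
        linear_combination -e3 + e4
      rw [e5]
    have h2 : ‖WW g (n + j) H - WW g (n + (j + 1)) H‖ ≤ 2 := by
      rw [h1]
      refine (norm_sub_le _ _).trans ?_
      linarith [hg (n + j + 1), hg (n + j + H + 1)]
    calc ‖WW g n H - WW g (n + (j + 1)) H‖ =
        ‖(WW g n H - WW g (n + j) H) + (WW g (n + j) H - WW g (n + (j + 1)) H)‖ := by congr 1; ring
      _ ≤ _ := norm_add_le _ _
      _ ≤ 2 * ((j + 1 : ℕ) : ℝ) := by push_cast; linarith

/-- sub-windows -/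
lemma sub_window {g : ℕ → ℂ} (hg : ∀ n, ‖g n‖ ≤ 1) (n H H' : ℕ) :
    (H' : ℝ) * ‖WW g n H‖ ≤ ∑ i ∈ range H, ‖WW g (n + i) H'‖ + 2 * (H' : ℝ) ^ 2 := by
  have h1 : ∑ j ∈ range H', WW g (n + j) H = ∑ i ∈ range H, WW g (n + i) H' := by
    simp only [W_range]
    rw [sum_comm]
    refine sum_congr rfl fun i _ => sum_congr rfl fun j _ => ?_
    rw [show n + j + i + 1 = n + i + j + 1 by ring]
  have h2 : ∑ j ∈ range H', WW g n H = ∑ i ∈ range H, WW g (n + i) H' +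
      ∑ j ∈ range H', (WW g n H - WW g (n + j) H) := by
    rw [sum_sub_distrib, h1]; ring
  have h3 : ‖∑ j ∈ range H', WW g n H‖ = H' * ‖WW g n H‖ := by
    rw [sum_const, card_range, nsmul_eq_mul, norm_mul, Complex.norm_natCast]
  rw [← h3, h2]
  refine (norm_add_le _ _).trans (add_le_add (norm_sum_le _ _) ((norm_sum_le _ _).trans ?_))
  calc ∑ j ∈ range H', ‖WW g n H - WW g (n + j) H‖ ≤ ∑ j ∈ range H', 2 * (H' : ℝ) := by
        refine sum_le_sum fun j hj => (shift hg n H j).trans ?_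
        have : (j : ℝ) ≤ H' := by exact_mod_cast (mem_range.1 hj).le
        linarith
    _ = 2 * (H' : ℝ) ^ 2 := by rw [sum_const, card_range, nsmul_eq_mul]; ring

variable {T : Set (ℕ → ℂ)} {f : ℕ → ℂ}

lemma sT_bdd (hT : ∀ ψ ∈ T, ∀ m, ‖ψ m‖ ≤ 1) (hf : ∀ n, ‖f n‖ ≤ 1) (n H : ℕ) :
    BddAbove (Set.range fun φ : T => cw f φ n H) := by
  refine ⟨H, ?_⟩
  rintro _ ⟨φ, rfl⟩
  exact cw_le hf (hT φ.1 φ.2) n H

lemma le_sT (hT : ∀ ψ ∈ T, ∀ m, ‖ψ m‖ ≤ 1) (hf : ∀ n, ‖f n‖ ≤ 1) (n H : ℕ) {ψ : ℕ → ℂ} (hψ : ψ ∈ T) :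
    cw f ψ n H ≤ sT T f n H :=
  le_ciSup (sT_bdd hT hf n H) (⟨ψ, hψ⟩ : T)

lemma sT_nonneg (n H : ℕ) : 0 ≤ sT T f n H :=
  Real.iSup_nonneg fun _ => norm_nonneg _

lemma sT_le {n H : ℕ} {x : ℝ} (hx : 0 ≤ x) (h : ∀ ψ ∈ T, cw f ψ n H ≤ x) : sT T f n H ≤ x :=
  Real.iSup_le (fun φ => h φ.1 φ.2) hx

end FinaL

open FinaL in
/-- the leaf FINA -/
theorem fina (hSUB : S_SUB) (hABS : S_ABS) : S_FINA := by
  classical
  intro C T hC hTC hEQ hLS ε hε
  have hT : ∀ ψ ∈ T, ∀ m, ‖ψ m‖ ≤ 1 := fun ψ hψ => hC.1 ψ (hTC hψ)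
  obtain ⟨ε₁, hε₁⟩ : ∃ ε₁ : ℝ, ε₁ = ε / 16 := ⟨_, rfl⟩
  have hε₁0 : 0 < ε₁ := by rw [hε₁]; positivity
  obtain ⟨H₁, H₂, N₁, hH₁, hmain⟩ := hABS C T hC hTC hEQ ε₁ hε₁0
  set ε₂ : ℝ := ε / 32 with hε₂
  have hε₂0 : 0 < ε₂ := by positivity
  obtain ⟨X₀, hX₀⟩ := hLS ε₂ hε₂0
  obtain ⟨A, hA⟩ := exists_nat_ge (16 * (H₂ : ℝ) / ε)
  obtain ⟨A', hA'⟩ := exists_nat_ge ((X₀ : ℝ) / ε₂)
  obtain ⟨A'', hA''⟩ := exists_nat_ge (Real.exp (1 + 4 / ε))
  refine ⟨N₁ + X₀ + A + A' + A'' + H₂ + 1, fun f hf N H hH hN => ?_⟩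
  have hH0 : (0 : ℝ) < H := by exact_mod_cast (by omega : 0 < H)
  have hHA : 16 * (H₂ : ℝ) / ε ≤ H := hA.trans (by exact_mod_cast (by omega : A ≤ H))
  have hHA' : (X₀ : ℝ) / ε₂ ≤ H := hA'.trans (by exact_mod_cast (by omega : A' ≤ H))
  have hHA'' : Real.exp (1 + 4 / ε) ≤ N := hA''.trans (by exact_mod_cast (by omega : A'' ≤ N))
  obtain ⟨H', hH', hsmall⟩ := hmain N (by omega) f hf
  rw [mem_Ico] at hH'
  have hH'0 : (0 : ℝ) < H' := by exact_mod_cast (by omega : 0 < H')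
  set hn : ℝ := ∑ n ∈ Icc 1 N, 1 / (n : ℝ) with hhn
  have hn0 : 0 ≤ hn := sum_nonneg fun _ _ => by positivity
  have hlog : hn ≤ 1 + Real.log N := by
    have h1 := harmonic_le_one_add_log N
    refine le_trans (le_of_eq ?_) h1
    rw [harmonic_eq_sum_Icc]
    push_cast
    exact sum_congr rfl fun x _ => one_div _
  have hlogN : 1 + 4 / ε ≤ Real.log N := by
    rw [Real.le_log_iff_exp_le (lt_of_lt_of_le (Real.exp_pos _) hHA'')]
    exact hHA''
  -- normalized suprema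
  set s : ℕ → ℕ → ℝ := fun H n => sT T f n H / H with hs
  have hs01 : ∀ H n, 0 ≤ s H n ∧ s H n ≤ 1 := by
    intro H n
    simp only [hs]
    refine ⟨div_nonneg (sT_nonneg n H) (Nat.cast_nonneg _), ?_⟩
    refine div_le_one_of_le₀ (sT_le (Nat.cast_nonneg _) fun ψ hψ => cw_le hf.1 (hT ψ hψ) n H)
      (Nat.cast_nonneg _)
  -- small scale
  have hsm : ∑ n ∈ Icc 1 N, (1 / (n : ℝ)) * s H' n ≤ 2 * ε₁ * hn := by
    have h1 : ∀ n, s H' n ≤ (if ∃ φ ∈ T, ε₁ * H' ≤ cw f φ n H' then 1 else 0) + ε₁ := by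
      intro n
      split_ifs with h
      · linarith [(hs01 H' n).2]
      · push Not at h
        rw [zero_add]
        simp only [hs]
        rw [div_le_iff₀ hH'0]
        exact sT_le (by positivity) fun ψ hψ => (h ψ hψ).le
    calc ∑ n ∈ Icc 1 N, (1 / (n : ℝ)) * s H' n ≤ ∑ n ∈ Icc 1 N, (1 / (n : ℝ)) *
        ((if ∃ φ ∈ T, ε₁ * H' ≤ cw f φ n H' then 1 else 0) + ε₁) :=
          sum_le_sum fun n _ => mul_le_mul_of_nonneg_left (h1 n) (by positivity)
      _ = ∑ n ∈ Icc 1 N, (1 / (n : ℝ)) *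
        (if ∃ φ ∈ T, ε₁ * H' ≤ cw f φ n H' then 1 else 0) + hn * ε₁ := by
          simp only [mul_add]
          rw [sum_add_distrib, hhn, sum_mul]
      _ ≤ 2 * ε₁ * hn := by linarith
  -- large n
  have hlarge : ∑ n ∈ Ioc (1 * H) N, (1 / (n : ℝ)) * s H n ≤
      (1 + 1 / ((1 : ℕ) : ℝ)) * (∑ n ∈ Icc 1 N, (1 / (n : ℝ)) * s H' n + 1) + ε / 8 * hn := by
    refine hSUB (s H) (s H') 1 H N (ε / 8) (fun n => hs01 H' n) le_rfl (by omega) (by omega)
      (by positivity) fun n => ?_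
    have h2 : ∀ ψ ∈ T, cw f ψ n H ≤ ∑ i ∈ range H, s H' (n + i) + 2 * H' := by
      intro ψ hψ
      have hg : ∀ m, ‖f m * ψ m‖ ≤ 1 := fun m => by
        rw [norm_mul]
        exact mul_le_one₀ (hf.1 m) (norm_nonneg _) (hT ψ hψ m)
      have h3 := sub_window (g := fun m => f m * ψ m) hg n H H'
      have h4 : ∑ i ∈ range H, ‖WW (fun m => f m * ψ m) (n + i) H'‖ ≤
          H' * ∑ i ∈ range H, s H' (n + i) := by
        rw [mul_sum]
        refine sum_le_sum fun i _ => ?_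
        simp only [hs]
        rw [mul_div_cancel₀ _ hH'0.ne']
        exact le_sT hT hf.1 (n + i) H' hψ
      have h5 : (H' : ℝ) * cw f ψ n H ≤ H' * (∑ i ∈ range H, s H' (n + i) + 2 * H') := by
        refine h3.trans ?_
        rw [mul_add]
        nlinarith
      exact le_of_mul_le_mul_left h5 hH'0
    have h6 : sT T f n H ≤ ∑ i ∈ range H, s H' (n + i) + 2 * H' :=
      sT_le (add_nonneg (sum_nonneg fun i _ => (hs01 H' (n + i)).1) (by positivity)) h2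
    show sT T f n H / H ≤ _
    rw [div_le_iff₀ hH0, add_mul, mul_comm (1 / (H : ℝ)), mul_assoc, one_div_mul_cancel hH0.ne',
      mul_one]
    refine h6.trans (add_le_add le_rfl ?_)
    have h7 : (H' : ℝ) ≤ H₂ := by exact_mod_cast hH'.2.le
    rw [div_le_iff₀ hε] at hHA
    linarith
  -- small n
  have hsmalln : ∑ n ∈ Icc 1 H, (1 / (n : ℝ)) * s H n ≤ ε / 8 * hn := by
    have h1 : ∀ n ∈ Icc 1 H, s H n ≤ ε / 8 := by
      intro n hn'
      rw [mem_Icc] at hn'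
      simp only [hs]
      rw [div_le_iff₀ hH0]
      refine sT_le (by positivity) fun ψ hψ => ?_
      obtain ⟨w, hw⟩ : ∃ w : ℕ → ℕ → ℂ, w = fun n H => ∑ m ∈ Ioc n (n + H), f m * ψ m := ⟨_, rfl⟩
      have hcw : ∀ n H, cw f ψ n H = ‖w n H‖ := fun n H => by rw [hw]; rfl
      have h2 : w n H = w 0 (n + H) - w 0 n := by
        rw [hw]
        simp only
        rw [Nat.zero_add, Nat.zero_add, eq_sub_iff_add_eq, add_comm]
        rw [← sum_union]
        · congr 1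
          ext m; simp only [mem_union, mem_Ioc]; omega
        · rw [Finset.disjoint_left]
          intro m hm hm'
          rw [mem_Ioc] at hm hm'
          omega
      have h3 : ‖w 0 (n + H)‖ ≤ ε₂ * ((n + H : ℕ) : ℝ) := by
        rw [← hcw]
        exact hX₀ (n + H) (by omega) f hf ψ hψ
      have h4 : ‖w 0 n‖ ≤ ε₂ * H := by
        rw [← hcw]
        by_cases hn2 : X₀ ≤ n
        · refine (hX₀ n hn2 f hf ψ hψ).trans ?_
          have : (n : ℝ) ≤ H := by exact_mod_cast hn'.2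
          exact mul_le_mul_of_nonneg_left this hε₂0.le
        · push Not at hn2
          refine (cw_le hf.1 (hT ψ hψ) 0 n).trans ?_
          rw [div_le_iff₀ hε₂0] at hHA'
          have : (n : ℝ) ≤ X₀ := by exact_mod_cast hn2.le
          linarith
      rw [hcw, h2]
      refine (norm_sub_le _ _).trans ?_
      push_cast at h3
      have h5 : (n : ℝ) ≤ H := by exact_mod_cast hn'.2
      have h6 : ε₂ * ((n : ℝ) + H) ≤ ε₂ * (2 * H) := mul_le_mul_of_nonneg_left (by linarith) hε₂0.le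
      rw [hε₂] at h3 h4 h6
      nlinarith
    calc ∑ n ∈ Icc 1 H, (1 / (n : ℝ)) * s H n ≤ ∑ n ∈ Icc 1 H, (1 / (n : ℝ)) * (ε / 8) :=
          sum_le_sum fun n hn' => mul_le_mul_of_nonneg_left (h1 n hn') (by positivity)
      _ = ε / 8 * ∑ n ∈ Icc 1 H, 1 / (n : ℝ) := by rw [← sum_mul]; ring
      _ ≤ ε / 8 * hn := by
          refine mul_le_mul_of_nonneg_left ?_ (by positivity)
          exact sum_le_sum_of_subset_of_nonneg (Icc_subset_Icc_right hN) fun _ _ _ => by positivity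
  -- total
  have htot : ∑ n ∈ Icc 1 N, (1 / (n : ℝ)) * sT T f n H = H * (∑ n ∈ Icc 1 H, (1 / (n : ℝ)) * s H n +
      ∑ n ∈ Ioc (1 * H) N, (1 / (n : ℝ)) * s H n) := by
    rw [one_mul, ← sum_union]
    · rw [mul_sum]
      have h1 : Icc 1 H ∪ Ioc H N = Icc 1 N := by
        ext m; simp only [mem_union, mem_Icc, mem_Ioc]; omega
      rw [h1]
      refine sum_congr rfl fun n _ => ?_
      simp only [hs]
      field_simp
    · rw [Finset.disjoint_left]
      intro m hm hm'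
      rw [mem_Icc] at hm
      rw [mem_Ioc] at hm'
      omega
  rw [htot]
  have h9 : ∑ n ∈ Icc 1 H, (1 / (n : ℝ)) * s H n + ∑ n ∈ Ioc (1 * H) N, (1 / (n : ℝ)) * s H n ≤
      ε * Real.log N := by
    have h10 : (1 + 1 / ((1 : ℕ) : ℝ)) * (∑ n ∈ Icc 1 N, (1 / (n : ℝ)) * s H' n + 1) ≤ 4 * ε₁ * hn + 2 := by
      rw [show (1 + 1 / ((1 : ℕ) : ℝ)) = 2 by norm_num]
      linarith
    have h11 : 4 * ε₁ * hn + 2 + ε / 8 * hn + ε / 8 * hn ≤ ε * Real.log N := by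
      have h12 : 4 * ε₁ * hn + 2 + ε / 8 * hn + ε / 8 * hn = ε / 2 * hn + 2 := by rw [hε₁]; ring
      rw [h12]
      have h13 : ε / 2 * hn ≤ ε / 2 * (1 + Real.log N) := mul_le_mul_of_nonneg_left hlog (by positivity)
      have h14 : ε / 2 * (1 + 4 / ε) ≤ ε / 2 * Real.log N := mul_le_mul_of_nonneg_left hlogN (by positivity)
      have h15 : ε / 2 * (1 + 4 / ε) = ε / 2 + 2 := by field_simp; ring
      linarith
    linarith
  calc (H : ℝ) * _ ≤ H * (ε * Real.log N) := mul_le_mul_of_nonneg_left h9 hH0.le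
    _ = ε * H * Real.log N := by ring

end Pool.Agent.Helper44K9.FN
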