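import Pool.Agent.Helper44K9.FN.Stm
import Pool.Agent.Helper44K9.FU.Kap

/-! Leaves [INV], [INV2] (helper18). -/

set_option autoImplicit false

namespace Pool.Agent.Helper44K9.FN

namespace InvL

open Finset MeasureTheory

variable {d : ℕ}

theorem coe_dt (k : Fin d → ℤ) (α : Fin d → ℝ) :
    ((dt k α : ℝ) : UnitAddCircle) = FB.lf k (md α) := by
  unfold dt FB.lf md
  have h1 : ∀ s : Finset (Fin d), ((∑ i ∈ s, (k i : ℝ) * α i : ℝ) : UnitAddCircle) =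
      ∑ i ∈ s, k i • ((α i : ℝ) : UnitAddCircle) := by
    intro s
    induction s using Finset.induction_on with
    | empty => simp
    | insert i s hi ih =>
      rw [sum_insert hi, sum_insert hi, AddCircle.coe_add, ih]
      congr 1
      rw [← AddCircle.coe_zsmul, zsmul_eq_mul]
  exact h1 univ

/-- compactness for one linear form -/
theorem irr_kap (E : Set (Fin d → UnitAddCircle)) (hE : IsCompact E) (hI : Irr E)
    (k : Fin d → ℤ) (hk : k ≠ 0) (Q : ℕ) : ∃ κ : ℝ, 0 < κ ∧ ∀ α : Fin d → ℝ, md α ∈ E →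
      ∀ s : ℕ, 1 ≤ s → s ≤ Q → ∀ a : ℤ, κ ≤ |s * dt k α - a| := by
  have hc : Continuous (FB.lf k) := by
    unfold FB.lf
    exact continuous_finsetSum _ fun i _ => (continuous_apply i).zsmul (k i)
  obtain ⟨κ, hκ, h⟩ := FU.kap (FB.lf k '' E) (hE.image hc) (by
    rintro _ ⟨x, hx, rfl⟩
    exact hI k hk x hx) Q
  refine ⟨κ, hκ, fun α hα s hs hsQ a => h (dt k α) ?_ s hs hsQ a⟩
  rw [coe_dt]
  exact ⟨md α, hα, rfl⟩

/-- compactness for finitely many linear forms -/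
theorem irr_fin (E : Set (Fin d → UnitAddCircle)) (hE : IsCompact E) (hI : Irr E)
    (F : Finset (Fin d → ℤ)) : ∃ κ : ℝ, 0 < κ ∧ ∀ k ∈ F, k ≠ 0 → ∀ α : Fin d → ℝ, md α ∈ E →
      ∀ a : ℤ, κ ≤ |dt k α - a| := by
  classical
  induction F using Finset.induction_on with
  | empty => exact ⟨1, one_pos, fun k hk => absurd hk (notMem_empty k)⟩
  | insert k F hkF ih =>
    obtain ⟨κ, hκ, h⟩ := ih
    by_cases hk : k = 0
    · refine ⟨κ, hκ, fun k' hk' h0 => ?_⟩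
      rcases mem_insert.1 hk' with h1 | h1
      · exact absurd (h1.trans hk) h0
      · exact h k' h1 h0
    · obtain ⟨κ', hκ', h'⟩ := irr_kap E hE hI k hk 1
      refine ⟨min κ κ', lt_min hκ hκ', fun k' hk' h0 α hα a => ?_⟩
      rcases mem_insert.1 hk' with h1 | h1
      · subst h1
        have := h' α hα 1 le_rfl le_rfl a
        rw [Nat.cast_one, one_mul] at this
        exact (min_le_right _ _).trans this
      · exact (min_le_left _ _).trans (h k' h1 h0 α hα a)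

/-- the column `j` of the antisymmetric matrix -/
def col (b : Matrix (Fin d) (Fin d) ℤ) (j : Fin d) : Fin d → ℤ := fun i => b i j - b j i

theorem exists_col (b : Matrix (Fin d) (Fin d) ℤ) (hb : b.transpose ≠ b) :
    ∃ j, col b j ≠ 0 := by
  by_contra hcon
  push Not at hcon
  apply hb
  ext i j
  have := congrFun (hcon j) i
  simp only [col, Pi.zero_apply] at this
  rw [Matrix.transpose_apply]
  omega

/-- `lam` is near a line -/
theorem lam_lin (b : Matrix (Fin d) (Fin d) ℤ) (α : Fin d → ℝ) (η : Fin d → ℤ) (h : ℕ)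
    (j : Fin d) : |((lam b α η h j : ℤ) : ℝ) - h * dt (col b j) α| ≤
      ∑ i, |(col b j i : ℝ)| + |(η j : ℝ)| := by
  have h1 : ((lam b α η h j : ℤ) : ℝ) - h * dt (col b j) α =
      ∑ i, ((⌊(h : ℝ) * α i⌋ : ℝ) - h * α i) * (col b j i : ℝ) + (η j : ℝ) := by
    unfold lam dt col
    push_cast
    rw [mul_sum, ← sub_eq_zero]
    have : ∑ i, ((⌊(h : ℝ) * α i⌋ : ℝ) - h * α i) * ((b i j : ℝ) - (b j i : ℝ)) =
        ∑ i, (⌊(h : ℝ) * α i⌋ : ℝ) * ((b i j : ℝ) - (b j i : ℝ)) -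
          ∑ i, (h : ℝ) * (((b i j : ℝ) - (b j i : ℝ)) * α i) := by
      rw [← sum_sub_distrib]
      exact sum_congr rfl fun i _ => by ring
    rw [this]
    ring
  rw [h1]
  refine (abs_add_le _ _).trans (add_le_add ?_ le_rfl)
  refine (abs_sum_le_sum_abs _ _).trans (sum_le_sum fun i _ => ?_)
  rw [abs_mul]
  have h2 : |(⌊(h : ℝ) * α i⌋ : ℝ) - h * α i| ≤ 1 := by
    rw [abs_le]
    have h3 := Int.floor_le ((h : ℝ) * α i)
    have h4 := Int.lt_floor_add_one ((h : ℝ) * α i)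
    constructor <;> linarith
  calc _ ≤ 1 * |(col b j i : ℝ)| := mul_le_mul_of_nonneg_right h2 (abs_nonneg _)
    _ = _ := one_mul _

/-- differences of `lam` -/
theorem lam_diff (b : Matrix (Fin d) (Fin d) ℤ) (α : Fin d → ℝ) (hα : α ∈ Box d)
    (η η' : Fin d → ℤ) (h h' K : ℕ) (hh : h ≤ h') (hK : h' ≤ h + K) (j : Fin d) :
    |lam b α η' h' j - lam b α η h j| ≤ ∑ i, (K + 1) * |col b j i| + (|η' j| + |η j|) := by
  have h1 : lam b α η' h' j - lam b α η h j =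
      ∑ i, (⌊(h' : ℝ) * α i⌋ - ⌊(h : ℝ) * α i⌋) * col b j i + (η' j - η j) := by
    unfold lam col
    have : ∑ i, (⌊(h' : ℝ) * α i⌋ - ⌊(h : ℝ) * α i⌋) * (b i j - b j i) =
        ∑ i, ⌊(h' : ℝ) * α i⌋ * (b i j - b j i) - ∑ i, ⌊(h : ℝ) * α i⌋ * (b i j - b j i) := by
      rw [← sum_sub_distrib]
      exact sum_congr rfl fun i _ => by ring
    rw [this]
    ring
  rw [h1]
  refine (abs_add_le _ _).trans (add_le_add ?_ (abs_sub _ _))
  refine (abs_sum_le_sum_abs _ _).trans (sum_le_sum fun i _ => ?_)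
  rw [abs_mul]
  refine mul_le_mul_of_nonneg_right ?_ (abs_nonneg _)
  have h0 := hα i
  have h2 := Int.floor_le ((h : ℝ) * α i)
  have h3 := Int.lt_floor_add_one ((h : ℝ) * α i)
  have h4 := Int.floor_le ((h' : ℝ) * α i)
  have h5 := Int.lt_floor_add_one ((h' : ℝ) * α i)
  have h6 : (h : ℝ) ≤ h' := by exact_mod_cast hh
  have h7 : (h' : ℝ) ≤ h + K := by exact_mod_cast hK
  have h8 : (h : ℝ) * α i ≤ h' * α i := mul_le_mul_of_nonneg_right h6 h0.1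
  have h9 : (h' : ℝ) * α i ≤ h * α i + K := by
    have : ((h' : ℝ) - h) * α i ≤ K * 1 :=
      mul_le_mul (by linarith) h0.2.le h0.1 (Nat.cast_nonneg _)
    linarith
  rw [abs_le]
  constructor
  · have : ((-1 : ℤ) : ℝ) < ((⌊(h' : ℝ) * α i⌋ - ⌊(h : ℝ) * α i⌋ : ℤ) : ℝ) := by
      push_cast; linarith
    have := Int.cast_lt.1 this
    omega
  · have : ((⌊(h' : ℝ) * α i⌋ - ⌊(h : ℝ) * α i⌋ : ℤ) : ℝ) < (((K : ℤ) + 1 : ℤ) : ℝ) := by
      push_cast; linarith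
    exact (Int.cast_lt.1 this).le

/-- the combination of four vectors -/
def cmb (Λ : ℕ → Fin d → ℤ) (h h' g g' : ℕ) : Fin d → ℤ := fun j =>
  ((g' : ℤ) - g) * (Λ h' j - Λ h j) - ((h' : ℤ) - h) * (Λ g' j - Λ g j)

theorem dt_cmb (Λ : ℕ → Fin d → ℤ) (h h' g g' : ℕ) (α : Fin d → ℝ) :
    dt (cmb Λ h h' g g') α = ((g' : ℝ) - g) * (dt (Λ h') α - dt (Λ h) α) -
      ((h' : ℝ) - h) * (dt (Λ g') α - dt (Λ g) α) := by
  unfold dt cmb
  rw [← sum_sub_distrib, ← sum_sub_distrib, mul_sum, mul_sum, ← sum_sub_distrib]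
  refine sum_congr rfl fun i _ => ?_
  push_cast
  ring

theorem cmb_bd (Λ : ℕ → Fin d → ℤ) (h h' g g' K : ℕ) (N : ℤ) (hh : h < h') (hK : h' ≤ h + K)
    (hg : g < g') (hK' : g' ≤ g + K) (j : Fin d) (h1 : |Λ h' j - Λ h j| ≤ N)
    (h2 : |Λ g' j - Λ g j| ≤ N) : |cmb Λ h h' g g' j| ≤ 2 * K * N := by
  unfold cmb
  have e1 : |(g' : ℤ) - g| ≤ K := by rw [abs_le]; constructor <;> omega
  have e2 : |(h' : ℤ) - h| ≤ K := by rw [abs_le]; constructor <;> omega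
  have hN : 0 ≤ N := (abs_nonneg _).trans h1
  calc _ ≤ |((g' : ℤ) - g) * (Λ h' j - Λ h j)| + |((h' : ℤ) - h) * (Λ g' j - Λ g j)| :=
        abs_sub _ _
    _ ≤ K * N + K * N := by
        rw [abs_mul, abs_mul]
        exact add_le_add (mul_le_mul e1 h1 (abs_nonneg _) (by omega))
          (mul_le_mul e2 h2 (abs_nonneg _) (by omega))
    _ = _ := by ring

/-- elimination of `κ` -/
theorem elim (κ ε : ℝ) (h h' g g' K : ℕ) (hh : h < h') (hK : h' ≤ h + K)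
    (hg : g < g') (hK' : g' ≤ g + K) (R : ℕ → ℝ)
    (e1 : ∃ a : ℤ, |κ * h + R h - a| ≤ ε) (e2 : ∃ a : ℤ, |κ * h' + R h' - a| ≤ ε)
    (e3 : ∃ a : ℤ, |κ * g + R g - a| ≤ ε) (e4 : ∃ a : ℤ, |κ * g' + R g' - a| ≤ ε) :
    ∃ a : ℤ, |((g' : ℝ) - g) * (R h' - R h) - ((h' : ℝ) - h) * (R g' - R g) - a| ≤ 4 * K * ε := by
  obtain ⟨a1, e1⟩ := e1
  obtain ⟨a2, e2⟩ := e2
  obtain ⟨a3, e3⟩ := e3
  obtain ⟨a4, e4⟩ := e4
  refine ⟨((g' : ℤ) - g) * (a2 - a1) - ((h' : ℤ) - h) * (a4 - a3), ?_⟩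
  have h1 : ((g' : ℝ) - g) * (R h' - R h) - ((h' : ℝ) - h) * (R g' - R g) -
      ((((g' : ℤ) - g) * (a2 - a1) - ((h' : ℤ) - h) * (a4 - a3) : ℤ) : ℝ) =
      ((g' : ℝ) - g) * ((κ * h' + R h' - a2) - (κ * h + R h - a1)) -
        ((h' : ℝ) - h) * ((κ * g' + R g' - a4) - (κ * g + R g - a3)) := by
    push_cast
    ring
  rw [h1]
  have f1 : |(g' : ℝ) - g| ≤ K := by
    rw [abs_of_pos (sub_pos.2 (by exact_mod_cast hg))]
    have : (g' : ℝ) ≤ g + K := by exact_mod_cast hK'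
    linarith
  have f2 : |(h' : ℝ) - h| ≤ K := by
    rw [abs_of_pos (sub_pos.2 (by exact_mod_cast hh))]
    have : (h' : ℝ) ≤ h + K := by exact_mod_cast hK
    linarith
  have f3 : |(κ * h' + R h' - a2) - (κ * h + R h - a1)| ≤ 2 * ε := by
    refine (abs_sub _ _).trans ?_
    linarith
  have f4 : |(κ * g' + R g' - a4) - (κ * g + R g - a3)| ≤ 2 * ε := by
    refine (abs_sub _ _).trans ?_
    linarith
  refine (abs_sub _ _).trans ?_
  rw [abs_mul, abs_mul]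
  calc _ ≤ (K : ℝ) * (2 * ε) + K * (2 * ε) :=
        add_le_add (mul_le_mul f1 f3 (abs_nonneg _) (Nat.cast_nonneg _))
          (mul_le_mul f2 f4 (abs_nonneg _) (Nat.cast_nonneg _))
    _ = _ := by ring

/-- a bound for the elements of a finite set of vectors -/
theorem fin_bd (S : Finset (Fin d → ℤ)) : ∃ M : ℕ, ∀ η ∈ S, ∀ j, |η j| ≤ M := by
  classical
  induction S using Finset.induction_on with
  | empty => exact ⟨0, fun η hη => absurd hη (notMem_empty η)⟩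
  | insert η S _ ih =>
    obtain ⟨M, hM⟩ := ih
    refine ⟨M + ∑ j, (η j).natAbs, fun η' hη' j => ?_⟩
    rcases mem_insert.1 hη' with rfl | h1
    · have h2 := single_le_sum (f := fun j => (η' j).natAbs) (fun _ _ => Nat.zero_le _) (mem_univ j)
      have h3 : |η' j| = ((η' j).natAbs : ℤ) := (Int.natCast_natAbs _).symm
      rw [h3]
      push_cast
      have h4 : ((η' j).natAbs : ℤ) ≤ ((∑ j, (η' j).natAbs : ℕ) : ℤ) := by exact_mod_cast h2
      push_cast at h4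
      have : (0 : ℤ) ≤ M := Int.natCast_nonneg M
      linarith
    · refine (hM η' h1 j).trans ?_
      have : (0 : ℤ) ≤ ((∑ j, (η j).natAbs : ℕ) : ℤ) := Int.natCast_nonneg _
      rw [Nat.cast_add]
      linarith

/-- a bound for the differences of `lam` -/
theorem lam_diff_bd (b : Matrix (Fin d) (Fin d) ℤ) (M K : ℕ) : ∃ N : ℕ, ∀ (α : Fin d → ℝ),
    α ∈ Box d → ∀ (η η' : Fin d → ℤ), (∀ j, |η j| ≤ M) → (∀ j, |η' j| ≤ M) → ∀ h h' : ℕ, h ≤ h' →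
    h' ≤ h + K → ∀ j, |lam b α η' h' j - lam b α η h j| ≤ N := by
  refine ⟨∑ j, ∑ i, (K + 1) * (col b j i).natAbs + 2 * M, fun α hα η η' h1 h2 h h' h3 h4 j => ?_⟩
  refine (lam_diff b α hα η η' h h' K h3 h4 j).trans ?_
  have h5 := h1 j
  have h6 := h2 j
  have h7 : ∑ i, ((K : ℤ) + 1) * |col b j i| ≤
      ∑ j, ∑ i, ((K : ℤ) + 1) * |col b j i| :=
    single_le_sum (f := fun j => ∑ i, ((K : ℤ) + 1) * |col b j i|)
      (fun j _ => sum_nonneg fun i _ => by positivity) (mem_univ j)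
  have h8 : (((∑ j, ∑ i, (K + 1) * (col b j i).natAbs + 2 * M : ℕ)) : ℤ) =
      ∑ j, ∑ i, ((K : ℤ) + 1) * |col b j i| + 2 * M := by
    push_cast
    rfl
  rw [h8]
  linarith

theorem dt_fr (k : Fin d → ℤ) (p : ℕ) (α : Fin d → ℝ) :
    ∃ a : ℤ, dt k (fr ((p : ℝ) • α)) = p * dt k α - a := by
  refine ⟨∑ i, k i * ⌊(p : ℝ) * α i⌋, ?_⟩
  unfold dt fr
  push_cast
  rw [mul_sum, ← sum_sub_distrib]
  refine sum_congr rfl fun i _ => ?_
  rw [Pi.smul_apply, smul_eq_mul, ← Int.self_sub_floor]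
  ring

theorem dt_smul (m : ℤ) (k : Fin d → ℤ) (α : Fin d → ℝ) : dt (m • k) α = m * dt k α := by
  unfold dt
  rw [mul_sum]
  refine sum_congr rfl fun i _ => ?_
  rw [Pi.smul_apply, smul_eq_mul]
  push_cast
  ring

theorem dt_two (p q : ℕ) (k l : Fin d → ℤ) (α : Fin d → ℝ) :
    dt (fun j => (p : ℤ) * k j - (q : ℤ) * l j) α = p * dt k α - q * dt l α := by
  unfold dt
  rw [mul_sum, mul_sum, ← sum_sub_distrib]
  refine sum_congr rfl fun i _ => ?_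
  push_cast
  ring

theorem fr_mem (x : Fin d → ℝ) : fr x ∈ Box d := fun _ => ⟨Int.fract_nonneg _, Int.fract_lt_one _⟩

end InvL

open InvL Finset in
/-- **INV** -/
theorem inv : S_AFF → S_INV := by
  intro hAFF d b hb E hE hI S C c hC hc
  obtain ⟨j, hj⟩ := exists_col b hb
  obtain ⟨M, hM⟩ := fin_bd S
  obtain ⟨κ₀, hκ₀, hkap⟩ := irr_kap E hE hI (col b j) hj ⌈4 / c⌉₊
  obtain ⟨W, hW⟩ : ∃ W : ℝ, W = ∑ i, |(col b j i : ℝ)| + M + 1 := ⟨_, rfl⟩
  have hs0 : 0 ≤ ∑ i, |(col b j i : ℝ)| := sum_nonneg fun _ _ => abs_nonneg _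
  have hW0 : 0 < W := by rw [hW]; positivity
  obtain ⟨K₁, H₁, hA⟩ := hAFF c W κ₀ hc hW0 hκ₀
  obtain ⟨N, hN⟩ := lam_diff_bd b M K₁
  refine ⟨2 * K₁ * N + ⌈4 * K₁ * C⌉₊, H₁, fun H hH α hα hαE β hβ hRl => ?_⟩
  obtain ⟨κ, U, η, η', hU, hUc, hηS, hrel⟩ := hRl
  have hl : ∀ h ∈ U, |((lam b α (η h) h j : ℤ) : ℝ) - h * dt (col b j) α| ≤ W := by
    intro h hh
    refine (lam_lin b α (η h) h j).trans ?_
    have h1 := hM _ (hηS h hh).1 j
    have h2 : |((η h j : ℤ) : ℝ)| ≤ M := by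
      rw [← Int.cast_abs]; exact_mod_cast h1
    rw [hW]; linarith
  obtain ⟨h, hh, h', hh', g, hg, g', hg', q1, q2, q3, q4, q5⟩ :=
    hA H hH U hU hUc (fun h => lam b α (η h) h j) (dt (col b j) α) hl
      (fun s hs hs' a => hkap α hαE s hs hs' a)
  refine ⟨cmb (fun h => lam b α (η h) h) h h' g g', cmb (fun h => lam b β (η' h) h) h h' g g',
    ?_, ?_, ?_, ?_⟩
  · intro h0
    have h1 := congrFun h0 j
    simp only [cmb, Pi.zero_apply] at h1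
    exact q5 (sub_eq_zero.1 h1)
  · intro i
    refine (cmb_bd _ h h' g g' K₁ N q1 q2 q3 q4 i
      (hN α hα _ _ (hM _ (hηS h hh).1) (hM _ (hηS h' hh').1) h h' q1.le q2 i)
      (hN α hα _ _ (hM _ (hηS g hg).1) (hM _ (hηS g' hg').1) g g' q3.le q4 i)).trans ?_
    push_cast
    have : (0 : ℤ) ≤ (⌈4 * (K₁ : ℝ) * C⌉₊ : ℤ) := Int.natCast_nonneg _
    linarith
  · intro i
    refine (cmb_bd _ h h' g g' K₁ N q1 q2 q3 q4 i
      (hN β hβ _ _ (hM _ (hηS h hh).2) (hM _ (hηS h' hh').2) h h' q1.le q2 i)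
      (hN β hβ _ _ (hM _ (hηS g hg).2) (hM _ (hηS g' hg').2) g g' q3.le q4 i)).trans ?_
    push_cast
    have : (0 : ℤ) ≤ (⌈4 * (K₁ : ℝ) * C⌉₊ : ℤ) := Int.natCast_nonneg _
    linarith
  · have hH0 : (0 : ℝ) ≤ H := Nat.cast_nonneg _
    have hrel' : ∀ h ∈ U, ∃ a : ℤ, |κ * h + (dt (lam b α (η h) h) α - dt (lam b β (η' h) h) β) - a| ≤
        C / H := by
      intro h hh
      obtain ⟨a, ha⟩ := hrel h hh
      refine ⟨a, ?_⟩
      rw [← add_sub_assoc]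
      exact ha
    obtain ⟨a, ha⟩ := elim κ (C / H) h h' g g' K₁ q1 q2 q3 q4
      (fun h => dt (lam b α (η h) h) α - dt (lam b β (η' h) h) β)
      (hrel' h hh) (hrel' h' hh') (hrel' g hg) (hrel' g' hg')
    refine ⟨a, ?_⟩
    rw [dt_cmb, dt_cmb]
    have e1 : ((g' : ℝ) - g) * (dt (lam b α (η h') h') α - dt (lam b α (η h) h) α) -
        ((h' : ℝ) - h) * (dt (lam b α (η g') g') α - dt (lam b α (η g) g) α) -
        (((g' : ℝ) - g) * (dt (lam b β (η' h') h') β - dt (lam b β (η' h) h) β) -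
        ((h' : ℝ) - h) * (dt (lam b β (η' g') g') β - dt (lam b β (η' g) g) β)) - a =
        ((g' : ℝ) - g) * ((dt (lam b α (η h') h') α - dt (lam b β (η' h') h') β) -
          (dt (lam b α (η h) h) α - dt (lam b β (η' h) h) β)) -
        ((h' : ℝ) - h) * ((dt (lam b α (η g') g') α - dt (lam b β (η' g') g') β) -
          (dt (lam b α (η g) g) α - dt (lam b β (η' g) g) β)) - a := by ring
    rw [e1]
    refine ha.trans ?_
    rw [← mul_div_assoc]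
    refine div_le_div_of_nonneg_right ?_ hH0
    have h8 := Nat.le_ceil (4 * (K₁ : ℝ) * C)
    push_cast
    have h9 : (0 : ℝ) ≤ 2 * K₁ * N := by positivity
    linarith

open InvL Finset in
/-- **INV2** -/
theorem inv2 : S_AFF → S_INV2 := by
  intro hAFF d b hb E hE hI p q hp hq hpq S C c hC hc
  obtain ⟨j, hj⟩ := exists_col b hb
  obtain ⟨M, hM⟩ := fin_bd S
  have hk2 : (((p : ℤ) ^ 2 - (q : ℤ) ^ 2) • col b j) ≠ 0 := by
    intro h0
    rcases smul_eq_zero.1 h0 with h1 | h1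
    · have h2 : ((p : ℤ) - q) * (p + q) = 0 := by linear_combination h1
      rcases mul_eq_zero.1 h2 with h3 | h3 <;> omega
    · exact hj h1
  obtain ⟨κ₀, hκ₀, hkap⟩ := irr_kap E hE hI _ hk2 ⌈4 / c⌉₊
  obtain ⟨V, hV⟩ : ∃ V : ℝ, V = ∑ i, |(col b j i : ℝ)| + M + 1 := ⟨_, rfl⟩
  have hs0 : 0 ≤ ∑ i, |(col b j i : ℝ)| := sum_nonneg fun _ _ => abs_nonneg _
  have hV0 : 0 < V := by rw [hV]; positivity
  have hp0 : (0 : ℝ) < p := by exact_mod_cast hp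
  have hq0 : (0 : ℝ) < q := by exact_mod_cast hq
  have hW0 : 0 < (p + q) * V := by positivity
  obtain ⟨K₁, H₁, hA⟩ := hAFF c ((p + q) * V) κ₀ hc hW0 hκ₀
  obtain ⟨N, hN⟩ := lam_diff_bd b M K₁
  obtain ⟨B, hB⟩ : ∃ B : ℤ, B = 2 * (K₁ : ℤ) * (((p : ℤ) + q) * N) := ⟨_, rfl⟩
  obtain ⟨κ₁, hκ₁, hkap1⟩ := irr_fin E hE hI (Fintype.piFinset fun _ : Fin d => Icc (-B) B)
  refine ⟨max H₁ (⌊4 * K₁ * C / κ₁⌋₊ + 1), fun H hH α hα hαE hRl => ?_⟩
  obtain ⟨κ, U, η, η', hU, hUc, hηS, hrel⟩ := hRl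
  obtain ⟨α', hα'⟩ : ∃ α' : Fin d → ℝ, α' = fr ((p : ℝ) • α) := ⟨_, rfl⟩
  obtain ⟨β', hβ'⟩ : ∃ β' : Fin d → ℝ, β' = fr ((q : ℝ) • α) := ⟨_, rfl⟩
  rw [← hα', ← hβ'] at hrel
  have hα'B : α' ∈ Box d := by rw [hα']; exact fr_mem _
  have hβ'B : β' ∈ Box d := by rw [hβ']; exact fr_mem _
  have hdα : ∀ k : Fin d → ℤ, ∃ a : ℤ, dt k α' = p * dt k α - a := fun k => by
    rw [hα']; exact dt_fr k p α
  have hdβ : ∀ k : Fin d → ℤ, ∃ a : ℤ, dt k β' = q * dt k α - a := fun k => by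
    rw [hβ']; exact dt_fr k q α
  have hV' : ∀ η : Fin d → ℤ, (∀ j, |η j| ≤ M) → ∑ i, |(col b j i : ℝ)| + |(η j : ℝ)| ≤ V := by
    intro η h1
    have h2 : |((η j : ℤ) : ℝ)| ≤ M := by
      rw [← Int.cast_abs]; exact_mod_cast h1 j
    rw [hV]; linarith
  obtain ⟨v, hv⟩ : ∃ v : ℝ, v = p * dt (col b j) α' - q * dt (col b j) β' := ⟨_, rfl⟩
  have hl : ∀ h ∈ U, |(((p : ℤ) * lam b α' (η h) h j - (q : ℤ) * lam b β' (η' h) h j : ℤ) : ℝ) -
      h * v| ≤ (p + q) * V := by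
    intro h hh
    have h1 := (lam_lin b α' (η h) h j).trans (hV' _ (hM _ (hηS h hh).1))
    have h2 := (lam_lin b β' (η' h) h j).trans (hV' _ (hM _ (hηS h hh).2))
    have h3 : (((p : ℤ) * lam b α' (η h) h j - (q : ℤ) * lam b β' (η' h) h j : ℤ) : ℝ) - h * v =
        p * (((lam b α' (η h) h j : ℤ) : ℝ) - h * dt (col b j) α') -
        q * (((lam b β' (η' h) h j : ℤ) : ℝ) - h * dt (col b j) β') := by
      rw [hv]; push_cast; ring
    rw [h3]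
    refine (abs_sub _ _).trans ?_
    rw [abs_mul, abs_mul, abs_of_pos hp0, abs_of_pos hq0, add_mul]
    exact add_le_add (mul_le_mul_of_nonneg_left h1 hp0.le) (mul_le_mul_of_nonneg_left h2 hq0.le)
  have hsv : ∀ s : ℕ, 1 ≤ s → s ≤ ⌈4 / c⌉₊ → ∀ a : ℤ, κ₀ ≤ |s * v - a| := by
    intro s hs hs' a
    obtain ⟨a1, h1⟩ := hdα (col b j)
    obtain ⟨a2, h2⟩ := hdβ (col b j)
    have h3 := hkap α hαE s hs hs' (s * (p * a1 - q * a2) + a)
    rw [dt_smul] at h3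
    have h4 : (s : ℝ) * v - a = s * ((((p : ℤ) ^ 2 - (q : ℤ) ^ 2 : ℤ) : ℝ) * dt (col b j) α) -
        ((s * (p * a1 - q * a2) + a : ℤ) : ℝ) := by
      rw [hv, h1, h2]; push_cast; ring
    rw [h4]
    exact h3
  obtain ⟨h, hh, h', hh', g, hg, g', hg', q1, q2, q3, q4, q5⟩ :=
    hA H ((le_max_left _ _).trans hH) U hU hUc
      (fun h => (p : ℤ) * lam b α' (η h) h j - (q : ℤ) * lam b β' (η' h) h j) v hl hsv
  obtain ⟨Λ, hΛ⟩ : ∃ Λ : ℕ → Fin d → ℤ, Λ = fun h j =>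
    (p : ℤ) * lam b α' (η h) h j - (q : ℤ) * lam b β' (η' h) h j := ⟨_, rfl⟩
  have hξ0 : cmb Λ h h' g g' ≠ 0 := by
    intro h0
    have h1 := congrFun h0 j
    rw [hΛ] at h1
    simp only [cmb, Pi.zero_apply] at h1
    exact q5 (sub_eq_zero.1 h1)
  have hbd : ∀ h ∈ U, ∀ h' ∈ U, h < h' → h' ≤ h + K₁ → ∀ i, |Λ h' i - Λ h i| ≤
      ((p : ℤ) + q) * N := by
    intro h hh h' hh' h1 h2 i
    have h3 := hN α' hα'B _ _ (hM _ (hηS h hh).1) (hM _ (hηS h' hh').1) h h' h1.le h2 i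
    have h4 := hN β' hβ'B _ _ (hM _ (hηS h hh).2) (hM _ (hηS h' hh').2) h h' h1.le h2 i
    have h5 : Λ h' i - Λ h i = (p : ℤ) * (lam b α' (η h') h' i - lam b α' (η h) h i) -
        (q : ℤ) * (lam b β' (η' h') h' i - lam b β' (η' h) h i) := by
      rw [hΛ]; ring
    rw [h5]
    refine (abs_sub _ _).trans ?_
    rw [abs_mul, abs_mul, Nat.abs_cast, Nat.abs_cast, add_mul]
    exact add_le_add (mul_le_mul_of_nonneg_left h3 (Int.natCast_nonneg _))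
      (mul_le_mul_of_nonneg_left h4 (Int.natCast_nonneg _))
  have hξB : cmb Λ h h' g g' ∈ Fintype.piFinset fun _ : Fin d => Icc (-B) B := by
    rw [Fintype.mem_piFinset]
    intro i
    rw [mem_Icc, ← abs_le, hB]
    exact cmb_bd _ h h' g g' K₁ _ q1 q2 q3 q4 i (hbd h hh h' hh' q1 q2 i)
      (hbd g hg g' hg' q3 q4 i)
  have hrel' : ∀ h ∈ U, ∃ a : ℤ, |κ * h + dt (Λ h) α - a| ≤ C / H := by
    intro h hh
    obtain ⟨a, ha⟩ := hrel h hh
    obtain ⟨a1, h1⟩ := hdα (lam b α' (η h) h)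
    obtain ⟨a2, h2⟩ := hdβ (lam b β' (η' h) h)
    refine ⟨a + a1 - a2, ?_⟩
    have h3 : dt (Λ h) α = p * dt (lam b α' (η h) h) α - q * dt (lam b β' (η' h) h) α := by
      rw [hΛ]; exact dt_two p q _ _ α
    have h4 : κ * h + dt (Λ h) α - ((a + a1 - a2 : ℤ) : ℝ) =
        κ * h + dt (lam b α' (η h) h) α' - dt (lam b β' (η' h) h) β' - a := by
      rw [h3, h1, h2]; push_cast; ring
    rw [h4]
    exact ha
  obtain ⟨a, ha⟩ := elim κ (C / H) h h' g g' K₁ q1 q2 q3 q4 (fun h => dt (Λ h) α)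
    (hrel' h hh) (hrel' h' hh') (hrel' g hg) (hrel' g' hg')
  rw [← dt_cmb] at ha
  have h5 := (hkap1 _ hξB hξ0 α hαE a).trans ha
  have hH1 : ⌊4 * K₁ * C / κ₁⌋₊ + 1 ≤ H := (le_max_right _ _).trans hH
  have hH2 : 4 * K₁ * C / κ₁ < H :=
    (Nat.lt_floor_add_one _).trans_le (by exact_mod_cast hH1)
  have hH0 : (0 : ℝ) < H := lt_of_le_of_lt (by positivity) hH2
  rw [div_lt_iff₀ hκ₁] at hH2
  rw [← mul_div_assoc, le_div_iff₀ hH0] at h5
  linarith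

end Pool.Agent.Helper44K9.FN
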