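import Pool.Agent.Helper44K9.FN.Pusha
import Pool.Agent.Helper44K9.FU.Ls

/-!
# Project FN, leaf KATA: the criterion of Katai for a class of sequences.
-/

set_option autoImplicit false

namespace Pool.Agent.Helper44K9.FN

open Finset
open Pool.Agent.Helper44K9.FU (Mul1 S_TK)
open Pool.Agent.Helper44K9.FU.LsL (dual exists_primes)

namespace KataL

theorem cw_le {f ψ : ℕ → ℂ} (hf : ∀ n, ‖f n‖ ≤ 1) (hψ : ∀ n, ‖ψ n‖ ≤ 1) (n H : ℕ) :
    cw f ψ n H ≤ H := by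
  unfold cw
  refine (norm_sum_le _ _).trans ?_
  calc ∑ m ∈ Ioc n (n + H), ‖f m * ψ m‖ ≤ ∑ m ∈ Ioc n (n + H), (1 : ℝ) := by
        refine sum_le_sum fun m _ => ?_
        rw [norm_mul]
        exact mul_le_one₀ (hf m) (norm_nonneg _) (hψ m)
    _ = _ := by simp

/-- the second moment of the correlations with the dilated sequences -/
theorem second (I : Finset ℕ) (hI : ∀ p ∈ I, p.Prime) (ψ : ℕ → ℂ) (hψ : ∀ n, ‖ψ n‖ ≤ 1) (f : ℕ → ℂ)
    (hf : ∀ n, ‖f n‖ ≤ 1) (X : ℕ)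
    (u : ℝ) (hu : (I.card : ℝ) ^ 2 ≤ u) (hu0 : 0 < u)
    (hE : ∀ p ∈ I, ∀ q ∈ I, p ≠ q →
      u * pw (fun m => ψ (p * m)) (fun m => ψ (q * m)) 0 (min (X / p) (X / q)) ≤ X) :
    ∑ p ∈ I, (p : ℝ) * (cw f (fun m => ψ (p * m)) 0 (X / p)) ^ 2 ≤ 2 * (X : ℝ) ^ 2 := by
  classical
  obtain ⟨w, hw⟩ : ∃ w : ℕ → ℂ, w = fun p => ∑ m ∈ Ioc 0 (0 + X / p), f m * ψ (p * m) := ⟨_, rfl⟩
  have hcw : ∀ p, cw f (fun m => ψ (p * m)) 0 (X / p) = ‖w p‖ := fun p => by rw [hw]; rfl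
  simp only [hcw]
  set T : ℝ := ∑ p ∈ I, (p : ℝ) * ‖w p‖ ^ 2 with hT
  have hT0 : 0 ≤ T := sum_nonneg fun p _ => by positivity
  obtain ⟨g, hg⟩ : ∃ g : ℕ → ℕ → ℂ, g = fun p m => if m ≤ X / p then ψ (p * m) else 0 := ⟨_, rfl⟩
  obtain ⟨c, hc⟩ : ∃ c : ℕ → ℂ, c = fun p : ℕ => (p : ℂ) * (starRingEnd ℂ) (w p) := ⟨_, rfl⟩
  have hW : ∀ p, w p = ∑ m ∈ Ioc 0 X, f m * g p m := by
    intro p
    rw [hw]
    simp only
    rw [Nat.zero_add]
    have h1 : Ioc 0 (X / p) = (Ioc 0 X).filter (fun m => m ≤ X / p) := by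
      ext m
      rw [mem_filter, mem_Ioc, mem_Ioc]
      have := Nat.div_le_self X p
      generalize X / p = y at this ⊢
      omega
    rw [h1, sum_filter]
    refine sum_congr rfl fun m _ => ?_
    rw [hg]
    simp only
    split_ifs
    · rfl
    · rw [mul_zero]
  have hcn : ∀ p ∈ I, ‖c p‖ ≤ X := by
    intro p hp
    rw [hc]
    simp only
    rw [norm_mul, RCLike.norm_conj, Complex.norm_natCast]
    have h1 := cw_le hf (ψ := fun m => ψ (p * m)) (fun m => hψ _) 0 (X / p)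
    rw [hcw] at h1
    have h2 : ((X / p : ℕ) : ℝ) ≤ (X : ℝ) / p := Nat.cast_div_le
    have hp0 : (0 : ℝ) < p := by exact_mod_cast (hI p hp).pos
    calc (p : ℝ) * ‖w p‖ ≤ p * ((X : ℝ) / p) :=
          mul_le_mul_of_nonneg_left (h1.trans h2) hp0.le
      _ = X := by field_simp
  have hTc : ((T : ℝ) : ℂ) = ∑ p ∈ I, c p * ∑ m ∈ Ioc 0 X, f m * g p m := by
    rw [hT]
    push_cast
    refine sum_congr rfl fun p _ => ?_
    rw [← hW p, hc]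
    simp only
    rw [mul_assoc, ← Complex.conj_mul']
  have h1 := dual I (Ioc 0 X) g f c hf
  rw [← hTc, Complex.norm_real, Real.norm_of_nonneg hT0, Nat.card_Ioc] at h1
  have hgg : ∀ p q : ℕ, ∑ m ∈ Ioc 0 X, g p m * (starRingEnd ℂ) (g q m) =
      ∑ m ∈ Ioc 0 (0 + min (X / p) (X / q)), ψ (p * m) * (starRingEnd ℂ) (ψ (q * m)) := by
    intro p q
    have h2 : Ioc 0 (0 + min (X / p) (X / q)) = (Ioc 0 X).filter (fun m => m ≤ X / p ∧ m ≤ X / q) := by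
      ext m
      rw [mem_filter, mem_Ioc, mem_Ioc]
      have := Nat.div_le_self X p
      generalize X / p = y at this ⊢
      generalize X / q = z at this ⊢
      omega
    rw [h2, sum_filter]
    refine sum_congr rfl fun m _ => ?_
    rw [hg]
    simp only
    by_cases h3 : m ≤ X / p
    · by_cases h4 : m ≤ X / q
      · rw [if_pos h3, if_pos h4, if_pos ⟨h3, h4⟩]
      · rw [if_neg h4, if_neg (fun h : m ≤ X / p ∧ m ≤ X / q => h4 h.2), map_zero, mul_zero]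
    · rw [if_neg h3, if_neg (fun h : m ≤ X / p ∧ m ≤ X / q => h3 h.1), zero_mul]
  have hdiag : ∀ p ∈ I, ∑ q ∈ I, ‖c p‖ * ‖c q‖ * ‖∑ m ∈ Ioc 0 X, g p m * (starRingEnd ℂ) (g q m)‖ ≤
      X * ((p : ℝ) * ‖w p‖ ^ 2) + I.card * ((X : ℝ) ^ 3 / u) := by
    intro p hp
    have hp0 : (0 : ℝ) < p := by exact_mod_cast (hI p hp).pos
    rw [← add_sum_erase I _ hp]
    apply add_le_add
    · have h2 : ((X / p : ℕ) : ℝ) ≤ (X : ℝ) / p := Nat.cast_div_le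
      have h3 : ‖c p‖ = p * ‖w p‖ := by
        rw [hc]
        simp only
        rw [norm_mul, RCLike.norm_conj, Complex.norm_natCast]
      have h4 : ‖∑ m ∈ Ioc 0 X, g p m * (starRingEnd ℂ) (g p m)‖ ≤ (X : ℝ) / p := by
        rw [hgg p p, min_self]
        refine le_trans ?_ h2
        refine (norm_sum_le _ _).trans ?_
        calc ∑ m ∈ Ioc 0 (0 + X / p), ‖ψ (p * m) * (starRingEnd ℂ) (ψ (p * m))‖ ≤
            ∑ m ∈ Ioc 0 (0 + X / p), (1 : ℝ) := by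
              refine sum_le_sum fun m _ => ?_
              rw [norm_mul, RCLike.norm_conj]
              exact mul_le_one₀ (hψ _) (norm_nonneg _) (hψ _)
          _ = ((X / p : ℕ) : ℝ) := by simp
      rw [h3]
      calc (p : ℝ) * ‖w p‖ * (p * ‖w p‖) * ‖∑ m ∈ Ioc 0 X, g p m * (starRingEnd ℂ) (g p m)‖
          ≤ (p : ℝ) * ‖w p‖ * (p * ‖w p‖) * ((X : ℝ) / p) :=
            mul_le_mul_of_nonneg_left h4 (by positivity)
        _ = _ := by field_simp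
    · calc ∑ q ∈ I.erase p, ‖c p‖ * ‖c q‖ * ‖∑ m ∈ Ioc 0 X, g p m * (starRingEnd ℂ) (g q m)‖
          ≤ ∑ q ∈ I.erase p, (X : ℝ) ^ 3 / u := by
            refine sum_le_sum fun q hq => ?_
            rw [mem_erase] at hq
            rw [hgg p q]
            have h3 := hE p hp q hq.2 (fun h => hq.1 h.symm)
            have h4 : ‖∑ m ∈ Ioc 0 (0 + min (X / p) (X / q)),
                ψ (p * m) * (starRingEnd ℂ) (ψ (q * m))‖ ≤ X / u := by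
              rw [le_div_iff₀ hu0]
              have h5 : u * ‖∑ m ∈ Ioc 0 (0 + min (X / p) (X / q)),
                ψ (p * m) * (starRingEnd ℂ) (ψ (q * m))‖ ≤ X := h3
              linarith
            calc ‖c p‖ * ‖c q‖ * _ ≤ (X : ℝ) * X * (X / u) := by
                  apply mul_le_mul _ h4 (norm_nonneg _) (by positivity)
                  exact mul_le_mul (hcn p hp) (hcn q hq.2) (norm_nonneg _) (by positivity)
              _ = _ := by ring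
        _ ≤ I.card * ((X : ℝ) ^ 3 / u) := by
            rw [sum_const, nsmul_eq_mul]
            apply mul_le_mul_of_nonneg_right _ (by positivity)
            exact_mod_cast card_le_card (erase_subset p I)
  have h2 : T ^ 2 ≤ X * (X * T + X ^ 3) := by
    refine h1.trans ?_
    simp only [Nat.sub_zero]
    apply mul_le_mul_of_nonneg_left _ (Nat.cast_nonneg _)
    refine (sum_le_sum hdiag).trans ?_
    rw [sum_add_distrib, ← mul_sum, ← hT, sum_const, nsmul_eq_mul]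
    have h3 : (I.card : ℝ) * (I.card * ((X : ℝ) ^ 3 / u)) ≤ (X : ℝ) ^ 3 := by
      have h4 : (I.card : ℝ) * (I.card * ((X : ℝ) ^ 3 / u)) = (X : ℝ) ^ 3 * ((I.card : ℝ) ^ 2 / u) := by ring
      rw [h4]
      exact mul_le_of_le_one_right (by positivity) ((div_le_one hu0).2 hu)
    linarith
  by_contra hcon
  push Not at hcon
  have hX : (0 : ℝ) ≤ (X : ℝ) ^ 2 := by positivity
  nlinarith

end KataL

open KataL in
/-- the leaf KATA -/
theorem kata (htk : S_TK) : S_KATA := by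
  classical
  intro Tc hTb hTp ε hε
  -- constants
  have hsum : Summable fun n : ℕ => 1 / (n : ℝ) ^ 2 := Real.summable_one_div_nat_pow.2 (by norm_num)
  set Z : ℝ := ∑' n : ℕ, 1 / (n : ℝ) ^ 2 with hZ
  have hZ0 : 0 ≤ Z := tsum_nonneg fun n => by positivity
  obtain ⟨I, hI, hIA⟩ := exists_primes ((24 + 100 * Z) / ε ^ 2)
  set u : ℝ := (I.card : ℝ) ^ 2 + 1 with hu
  have hu1 : 1 ≤ u := by
    rw [hu]
    have : (0 : ℝ) ≤ (I.card : ℝ) ^ 2 := by positivity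
    linarith
  have hu0 : 0 < u := by linarith
  obtain ⟨B, hB⟩ : ∃ B : ℕ, ∀ p ∈ I, p ≤ B := ⟨I.sup id, fun p hp => le_sup (f := id) hp⟩
  have hpair : ∀ p q : ℕ, ∃ X₀ : ℕ, p.Prime → q.Prime → p ≠ q → ∀ X ≥ X₀, ∀ ψ ∈ Tc,
      pw (fun m => ψ (p * m)) (fun m => ψ (q * m)) 0 X ≤ 1 / u * X := by
    intro p q
    by_cases h : p.Prime ∧ q.Prime ∧ p ≠ q
    · obtain ⟨X₀, hX₀⟩ := hTp p q h.1 h.2.1 h.2.2 (1 / u) (by positivity)
      exact ⟨X₀, fun _ _ _ => hX₀⟩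
    · exact ⟨0, fun a b c => absurd ⟨a, b, c⟩ h⟩
  choose Y hY using hpair
  obtain ⟨H₁, hH₁⟩ : ∃ H₁ : ℕ, ∀ p ∈ I, ∀ q ∈ I, Y p q ≤ H₁ := by
    refine ⟨I.sup fun p => I.sup fun q => Y p q, fun p hp q hq => ?_⟩
    exact (le_sup (f := fun q => Y p q) hq).trans (le_sup (f := fun p => I.sup fun q => Y p q) hp)
  obtain ⟨H₀, hTK⟩ := htk I hI
  refine ⟨max H₀ (max (B * (H₁ + 1)) (B ^ 2)), fun X hX f hf ψ hψT => ?_⟩
  have hψ := hTb ψ hψT
  have hX0 : H₀ ≤ X := (le_max_left _ _).trans hX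
  have hX1 : B * (H₁ + 1) ≤ X := ((le_max_left _ _).trans (le_max_right _ _)).trans hX
  have hX2 : B ^ 2 ≤ X := ((le_max_right _ _).trans (le_max_right _ _)).trans hX
  -- the second moment
  have hT := second I hI ψ hψ f hf.1 X u (by rw [hu]; linarith) hu0 (by
    intro p hp q hq hpq
    have hdiv : ∀ r ∈ I, H₁ + 1 ≤ X / r := by
      intro r hr
      rw [Nat.le_div_iff_mul_le (hI r hr).pos]
      calc (H₁ + 1) * r ≤ (H₁ + 1) * B := Nat.mul_le_mul_left _ (hB r hr)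
        _ = B * (H₁ + 1) := mul_comm _ _
        _ ≤ X := hX1
    obtain ⟨H, hH⟩ : ∃ H, H = min (X / p) (X / q) := ⟨_, rfl⟩
    have hH1 : H₁ + 1 ≤ H := by
      rw [hH]
      exact le_min (hdiv p hp) (hdiv q hq)
    have hHX : H ≤ X := by
      rw [hH]
      exact (min_le_left _ _).trans (Nat.div_le_self _ _)
    rw [← hH]
    have hHX' : (H : ℝ) ≤ X := by exact_mod_cast hHX
    have h1 := hY p q (hI p hp) (hI q hq) hpq H (by have := hH₁ p hp q hq; omega) ψ hψT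
    calc u * pw (fun m => ψ (p * m)) (fun m => ψ (q * m)) 0 H ≤ u * (1 / u * H) :=
          mul_le_mul_of_nonneg_left h1 hu0.le
      _ = H := by field_simp
      _ ≤ X := hHX')
  -- Turan-Kubilius
  have h1 := hTK X hX0 0 (fun m => f m * ψ m) (fun m => by
    rw [norm_mul]
    exact mul_le_one₀ (hf.1 m) (norm_nonneg _) (hψ m))
  obtain ⟨A, hA⟩ : ∃ A, A = ∑ m ∈ Ioc 0 (0 + X), f m * ψ m := ⟨_, rfl⟩
  have hcwA : cw f ψ 0 X = ‖A‖ := by rw [hA]; rfl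
  rw [← hA] at h1
  rw [hcwA]
  obtain ⟨D, hD⟩ : ∃ D : ℕ → ℂ, D = fun p => ∑ m ∈ (Ioc 0 (0 + X)).filter (fun m => p ∣ m),
    f m * ψ m := ⟨_, rfl⟩
  have h1' : ∑ p ∈ I, (1 / (p : ℝ)) * ‖(p : ℂ) * D p - A‖ ^ 2 ≤ 8 * (X : ℝ) ^ 2 := by
    rw [hD]
    exact h1
  have hDp : ∀ p ∈ I, (1 / (p : ℝ)) * ‖(p : ℂ) * D p‖ ^ 2 ≤
      2 * ((p : ℝ) * (cw f (fun m => ψ (p * m)) 0 (X / p)) ^ 2) +
        50 * (X : ℝ) ^ 2 * (1 / (p : ℝ) ^ 2) := by
    intro p hp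
    have hp1 : (1 : ℝ) ≤ p := by exact_mod_cast (hI p hp).one_lt.le
    have hp0 : (0 : ℝ) < p := by linarith
    have h2 := PushaL.main hf hψ 0 X p (hI p hp)
    rw [Nat.zero_div] at h2
    have h2' : ‖D p‖ ≤ cw f (fun m => ψ (p * m)) 0 (X / p) + 3 + 2 * ((X : ℝ) / (p * p)) := by
      rw [hD]
      exact h2
    have hpX : (p : ℝ) * p ≤ X := by
      have h3 : p * p ≤ X := by
        calc p * p ≤ B * B := Nat.mul_le_mul (hB p hp) (hB p hp)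
          _ = B ^ 2 := by ring
          _ ≤ X := hX2
      exact_mod_cast h3
    have h3 : (1 : ℝ) ≤ (X : ℝ) / (p * p) := by
      rw [le_div_iff₀ (by positivity)]
      linarith
    obtain ⟨w, hw⟩ : ∃ w, w = cw f (fun m => ψ (p * m)) 0 (X / p) := ⟨_, rfl⟩
    have hw0 : 0 ≤ w := by rw [hw]; exact norm_nonneg _
    rw [← hw] at h2' ⊢
    have h4 : ‖D p‖ ≤ w + 5 * ((X : ℝ) / (p * p)) := by linarith
    rw [norm_mul, Complex.norm_natCast]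
    have h5 : ‖D p‖ ^ 2 ≤ 2 * w ^ 2 + 50 * ((X : ℝ) / (p * p)) ^ 2 := by
      have h6 : ‖D p‖ ^ 2 ≤ (w + 5 * ((X : ℝ) / (p * p))) ^ 2 := pow_le_pow_left₀ (norm_nonneg _) h4 2
      nlinarith [sq_nonneg (w - 5 * ((X : ℝ) / (p * p)))]
    calc (1 / (p : ℝ)) * ((p : ℝ) * ‖D p‖) ^ 2 = p * ‖D p‖ ^ 2 := by field_simp
      _ ≤ p * (2 * w ^ 2 + 50 * ((X : ℝ) / (p * p)) ^ 2) := mul_le_mul_of_nonneg_left h5 hp0.le
      _ = 2 * (p * w ^ 2) + 50 * (X : ℝ) ^ 2 * (1 / (p : ℝ) ^ 3) := by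
          field_simp
      _ ≤ 2 * (p * w ^ 2) + 50 * (X : ℝ) ^ 2 * (1 / (p : ℝ) ^ 2) := by
          have h6 : 1 / (p : ℝ) ^ 3 ≤ 1 / (p : ℝ) ^ 2 := by
            apply one_div_le_one_div_of_le (by positivity)
            exact pow_le_pow_right₀ hp1 (by norm_num)
          have h7 : (0 : ℝ) ≤ 50 * (X : ℝ) ^ 2 := by positivity
          nlinarith [mul_le_mul_of_nonneg_left h6 h7]
  have hZle : ∑ p ∈ I, 1 / (p : ℝ) ^ 2 ≤ Z := hsum.sum_le_tsum I (fun n _ => by positivity)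
  have h3 : ∑ p ∈ I, (1 / (p : ℝ)) * ‖(p : ℂ) * D p‖ ^ 2 ≤ 4 * (X : ℝ) ^ 2 + 50 * (X : ℝ) ^ 2 * Z := by
    refine (sum_le_sum hDp).trans ?_
    rw [sum_add_distrib, ← mul_sum, ← mul_sum]
    have h4 : 50 * (X : ℝ) ^ 2 * ∑ p ∈ I, 1 / (p : ℝ) ^ 2 ≤ 50 * (X : ℝ) ^ 2 * Z :=
      mul_le_mul_of_nonneg_left hZle (by positivity)
    linarith
  have h4 : (∑ p ∈ I, 1 / (p : ℝ)) * ‖A‖ ^ 2 ≤ (24 + 100 * Z) * (X : ℝ) ^ 2 := by
    have h5 : ∀ p ∈ I, (1 / (p : ℝ)) * ‖A‖ ^ 2 ≤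
        2 * ((1 / (p : ℝ)) * ‖(p : ℂ) * D p - A‖ ^ 2) + 2 * ((1 / (p : ℝ)) * ‖(p : ℂ) * D p‖ ^ 2) := by
      intro p _
      have h6 : ‖A‖ ≤ ‖(p : ℂ) * D p - A‖ + ‖(p : ℂ) * D p‖ := by
        have : A = (p : ℂ) * D p - ((p : ℂ) * D p - A) := by ring
        calc ‖A‖ = ‖(p : ℂ) * D p - ((p : ℂ) * D p - A)‖ := by rw [← this]
          _ ≤ ‖(p : ℂ) * D p‖ + ‖(p : ℂ) * D p - A‖ := norm_sub_le _ _
          _ = _ := add_comm _ _
      have h7 : ‖A‖ ^ 2 ≤ 2 * ‖(p : ℂ) * D p - A‖ ^ 2 + 2 * ‖(p : ℂ) * D p‖ ^ 2 := by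
        have h8 : ‖A‖ ^ 2 ≤ (‖(p : ℂ) * D p - A‖ + ‖(p : ℂ) * D p‖) ^ 2 :=
          pow_le_pow_left₀ (norm_nonneg _) h6 2
        nlinarith [sq_nonneg (‖(p : ℂ) * D p - A‖ - ‖(p : ℂ) * D p‖)]
      have h9 : (0 : ℝ) ≤ 1 / (p : ℝ) := by positivity
      nlinarith [mul_le_mul_of_nonneg_left h7 h9]
    rw [sum_mul]
    refine (sum_le_sum h5).trans ?_
    rw [sum_add_distrib, ← mul_sum, ← mul_sum]
    nlinarith
  -- the conclusion
  have hε2 : 0 < ε ^ 2 := by positivity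
  have h5 : (24 + 100 * Z) ≤ (∑ p ∈ I, 1 / (p : ℝ)) * ε ^ 2 := (div_le_iff₀ hε2).1 hIA
  have h6 : 0 < ∑ p ∈ I, 1 / (p : ℝ) := by
    by_contra hcon
    push Not at hcon
    have : (∑ p ∈ I, 1 / (p : ℝ)) * ε ^ 2 ≤ 0 := mul_nonpos_of_nonpos_of_nonneg hcon hε2.le
    linarith
  have h7 : (∑ p ∈ I, 1 / (p : ℝ)) * ‖A‖ ^ 2 ≤ (∑ p ∈ I, 1 / (p : ℝ)) * (ε * X) ^ 2 := by
    calc (∑ p ∈ I, 1 / (p : ℝ)) * ‖A‖ ^ 2 ≤ (24 + 100 * Z) * (X : ℝ) ^ 2 := h4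
      _ ≤ ((∑ p ∈ I, 1 / (p : ℝ)) * ε ^ 2) * (X : ℝ) ^ 2 :=
          mul_le_mul_of_nonneg_right h5 (by positivity)
      _ = _ := by ring
  have h8 : ‖A‖ ^ 2 ≤ (ε * X) ^ 2 := le_of_mul_le_mul_left h7 h6
  exact (pow_le_pow_iff_left₀ (norm_nonneg _) (by positivity) (by norm_num)).1 h8

end Pool.Agent.Helper44K9.FN
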