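import Pool.Agent.Helper44K9.FN.Stm

/-!
# [LSN] long sums (helper27)
-/

set_option autoImplicit false

namespace Pool.Agent.Helper44K9.FN

open Finset Polynomial
open Pool.Agent.H807R2.Dav (ee)
open Pool.Agent.Helper44K9.FU (Mul1 MM S_TK S_EQ S_DIL S_PIG S_SUB)

namespace LsnL

theorem ee_neg (x : ℝ) : (starRingEnd ℂ) (ee x) = ee (-x) := by
  rw [Pool.Agent.H807R2.Dav.ee_eq, Pool.Agent.H807R2.Dav.ee_eq, ← Complex.exp_conj]
  congr 1
  rw [map_mul, Complex.conj_I, Complex.conj_ofReal]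
  push_cast
  ring

/-- dilation of a sequence of the class -/
theorem dil_seq (hred : S_RED) {d : ℕ} {b : Matrix (Fin d) (Fin d) ℤ} {φ : (Fin d → ℝ) → ℂ} (hφ : Th b φ)
    (α x : Fin d → ℝ) (P : ℝ[X]) (hP : P.natDegree ≤ 2) (p : ℕ) : ∃ P' : ℝ[X], P'.natDegree ≤ 2 ∧
    ∀ m : ℕ, ee (P.eval (((p * m : ℕ)) : ℝ)) * φ ((((p * m : ℕ)) : ℝ) • α + x) =
      ee (P'.eval (m : ℝ)) * φ ((m : ℝ) • fr ((p : ℝ) • α) + x) := by
  obtain ⟨P', hP', h⟩ := hred d b φ hφ ((p : ℝ) • α) x (P.comp (C (p : ℝ) * X)) (by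
    refine natDegree_comp_le.trans ?_
    calc P.natDegree * (C (p : ℝ) * X).natDegree ≤ P.natDegree * 1 :=
          Nat.mul_le_mul_left _ ((natDegree_C_mul_le _ _).trans natDegree_X_le)
      _ ≤ 2 := by omega)
  refine ⟨P', hP', fun m => ?_⟩
  rw [← h m, eval_comp, eval_mul, eval_C, eval_X, smul_smul]
  push_cast
  rw [mul_comm (m : ℝ) (p : ℝ)]

/-- the product of two sequences of the class -/
theorem prod_seq (P Q : ℝ[X]) (u v : ℂ) (m : ℝ) :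
    (ee (P.eval m) * u) * (starRingEnd ℂ) (ee (Q.eval m) * v) =
      ee ((P - Q).eval m) * u * (starRingEnd ℂ) v := by
  rw [map_mul, ee_neg, eval_sub, sub_eq_add_neg, Pool.Agent.H807R2.Dav.ee_add]
  ring

theorem deg_sub {P Q : ℝ[X]} (hP : P.natDegree ≤ 2) (hQ : Q.natDegree ≤ 2) : (P - Q).natDegree ≤ 2 :=
  (natDegree_sub_le _ _).trans (max_le hP hQ)

end LsnL

open LsnL in
theorem lsn : S_RED → S_VDC → S_INV2 → S_KATA → S_LSN := by
  intro hred hvdc hinv hkata d b φ hφ hb E hE hEi ε hε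
  refine hkata (Cl φ (Tg E)) ?_ ?_ ε hε
  · rintro ψ ⟨α, -, x, P, -, hψ⟩ m
    rw [hψ, norm_mul, Pool.Agent.H807R2.Dav.norm_ee, one_mul]
    exact hφ.2.1 _
  · intro p q hp hq hpq ε' hε'
    obtain ⟨S, C, c, H₀, hC, hc, hV⟩ := hvdc d b φ hφ ε' hε'
    obtain ⟨H₁, hI⟩ := hinv d b hb E hE hEi p q hp.one_lt.le hq.one_lt.le hpq S C c hC hc
    refine ⟨max H₀ H₁, fun X hX ψ hψ => ?_⟩
    obtain ⟨α, hα, x, P, hP, hψ⟩ := hψ
    by_contra hcon
    push Not at hcon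
    obtain ⟨P1, hP1, h1⟩ := dil_seq hred hφ α x P hP p
    obtain ⟨P2, hP2, h2⟩ := dil_seq hred hφ α x P hP q
    apply hI X ((le_max_right _ _).trans hX) α hα.1 hα.2
    apply hV X ((le_max_left _ _).trans hX) 0 (fr ((p : ℝ) • α)) (fr ((q : ℝ) • α)) x x (P1 - P2)
      (deg_sub hP1 hP2)
    refine hcon.le.trans (le_of_eq ?_)
    unfold pw
    congr 1
    refine sum_congr rfl fun m _ => ?_
    show ψ (p * m) * (starRingEnd ℂ) (ψ (q * m)) = _
    rw [hψ, hψ, h1, h2]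
    exact prod_seq _ _ _ _ _

end Pool.Agent.Helper44K9.FN
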