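import Pool.Agent.Helper44K9.FN.MeanStm
import Pool.Agent.Helper44K9.FN.Eqn
import Pool.Agent.Helper44K9.FU.Trig

/-!
# [MEAN] the mean value over the unit cube (helper27)
-/

set_option autoImplicit false

namespace Pool.Agent.Helper44K9.FN

open Finset MeasureTheory
open Pool.Agent.H807R2.Dav (ee norm_ee)

namespace MeanL

lemma lf_add {m : ℕ} (k : Fin m → ℤ) (x y : Fin m → UnitAddCircle) :
    FB.lf k (x + y) = FB.lf k x + FB.lf k y := by
  unfold FB.lf
  simp only [Pi.add_apply, smul_add, sum_add_distrib]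

lemma norm_fourier (x : UnitAddCircle) : ‖(fourier 1 x : ℂ)‖ = 1 := by
  rw [fourier_apply]
  exact Circle.norm_coe _

lemma fourier_real (x : ℝ) : (fourier 1 (x : UnitAddCircle) : ℂ) = ee x := by
  have h := Pool.Agent.Helper44K9.FU.TrigL.ee_fourier 1 x
  rw [h]
  norm_num

/-- the mean of a character -/
lemma mean_zero {m : ℕ} (k : Fin m → ℤ) (hk : k ≠ 0) :
    ∫ x : Fin m → UnitAddCircle, (fourier 1 (FB.lf k x) : ℂ) = 0 := by
  obtain ⟨i, hi⟩ : ∃ i, k i ≠ 0 := by
    by_contra h
    push Not at h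
    exact hk (funext h)
  have hir : (k i : ℝ) ≠ 0 := by exact_mod_cast hi
  set t : Fin m → UnitAddCircle := Pi.single i ((1 / (2 * (k i : ℝ)) : ℝ) : UnitAddCircle) with ht
  have h1 : FB.lf k t = ((1 / 2 : ℝ) : UnitAddCircle) := by
    unfold FB.lf
    rw [sum_eq_single i]
    · rw [ht, Pi.single_eq_same, ← AddCircle.coe_zsmul]
      congr 1
      rw [zsmul_eq_mul]
      field_simp
    · intro j _ hj
      rw [ht, Pi.single_eq_of_ne hj, smul_zero]
    · intro h
      exact absurd (mem_univ i) h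
  have h2 : ∀ x, (fourier 1 (FB.lf k (t + x)) : ℂ) = - (fourier 1 (FB.lf k x) : ℂ) := by
    intro x
    rw [lf_add, h1, fourier_apply, fourier_apply, one_smul, one_smul, AddCircle.toCircle_add]
    have h3 : ((AddCircle.toCircle (((1 / 2 : ℝ) : UnitAddCircle)) : Circle) : ℂ) = -1 := by
      have h4 := fourier_real (1 / 2)
      rw [fourier_apply, one_smul] at h4
      rw [h4]
      unfold ee
      rw [show (2 * (Real.pi : ℂ) * Complex.I * ((1 / 2 : ℝ) : ℂ)) = Real.pi * Complex.I by push_cast; ring]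
      exact Complex.exp_pi_mul_I
    push_cast
    rw [h3]
    ring
  have h3 := integral_add_left_eq_self (μ := (volume : Measure (Fin m → UnitAddCircle)))
    (fun x => (fourier 1 (FB.lf k x) : ℂ)) t
  simp only [h2] at h3
  rw [integral_neg] at h3
  have h4 : (2 : ℂ) * ∫ x : Fin m → UnitAddCircle, (fourier 1 (FB.lf k x) : ℂ) = 0 := by
    linear_combination (-1 : ℂ) * h3
  rcases mul_eq_zero.1 h4 with h5 | h5
  · norm_num at h5
  · exact h5

/-- the integral over the cube is the integral over the torus -/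
lemma torus_int {m : ℕ} (f : (Fin m → UnitAddCircle) → ℂ) (hf : Continuous f) :
    ∫ x in Set.Icc (0 : Fin m → ℝ) 1, f (md x) = ∫ y, f y := by
  have h1 : MeasurePreserving (fun (a : Fin m → ℝ) i => (a i : UnitAddCircle))
      (Measure.pi fun _ : Fin m => (volume : Measure ℝ).restrict (Set.Ioc 0 (0 + 1)))
      (Measure.pi fun _ : Fin m => (volume : Measure UnitAddCircle)) :=
    measurePreserving_pi _ _ fun _ => AddCircle.measurePreserving_mk 1 0
  have h2 : (Measure.pi fun _ : Fin m => (volume : Measure ℝ).restrict (Set.Ioc 0 (0 + 1))) =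
      (volume : Measure (Fin m → ℝ)).restrict (Set.Icc 0 1) := by
    rw [← Measure.restrict_pi_pi]
    have h3 := Measure.univ_pi_Ioc_ae_eq_Icc (μ := fun _ : Fin m => (volume : Measure ℝ))
      (f := fun _ => (0 : ℝ)) (g := fun _ => (0 + 1 : ℝ))
    rw [Measure.restrict_congr_set h3]
    have h4 : (Set.Icc (fun _ : Fin m => (0 : ℝ)) (fun _ : Fin m => (0 + 1 : ℝ))) = Set.Icc (0 : Fin m → ℝ) 1 := by
      congr 1
      funext i
      simp
    rw [h4]
    rfl
  have h5 : ∫ y, f y = ∫ y, f y ∂(Measure.pi fun _ : Fin m => (volume : Measure UnitAddCircle)) := rfl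
  rw [h5, ← h1.map_eq, integral_map h1.measurable.aemeasurable hf.aestronglyMeasurable, h2]
  rfl

lemma vol_cube (m : ℕ) : volume (Set.Icc (0 : Fin m → ℝ) 1) = 1 := by
  rw [Real.volume_Icc_pi]
  simp

/-- the mean of a character over the cube -/
lemma cube_char {m : ℕ} (k : Fin m → ℤ) :
    ∫ x in Set.Icc (0 : Fin m → ℝ) 1, ee (dt k x) = if k = 0 then 1 else 0 := by
  classical
  split_ifs with h
  · have h1 : ∀ x : Fin m → ℝ, ee (dt k x) = 1 := by
      intro x
      rw [h]
      unfold dt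
      simp [ee]
    simp only [h1]
    rw [setIntegral_const]
    unfold Measure.real
    rw [vol_cube]
    simp
  · rw [← mean_zero k h, ← torus_int (fun x => (fourier 1 (FB.lf k x) : ℂ))
      ((fourier 1).continuous.comp (EqnL.lf_cont k))]
    refine integral_congr_ae (Filter.Eventually.of_forall fun x => ?_)
    show ee (dt k x) = (fourier 1 (FB.lf k (md x)) : ℂ)
    rw [EqnL.lf_md, fourier_real]

end MeanL

open MeanL in
theorem mean : S_MEAN := by
  classical
  intro d c F hF S φ hφ ε h F₀ hF₀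
  have hset : Set.Icc (0 : (Fin d → ℝ) × (Fin c → ℝ)) 1 =
      Set.Icc (0 : Fin d → ℝ) 1 ×ˢ Set.Icc (0 : Fin c → ℝ) 1 := Set.Icc_prod_eq _ _
  have hK : IsCompact (Set.Icc (0 : (Fin d → ℝ) × (Fin c → ℝ)) 1) := by
    rw [hset]
    exact isCompact_Icc.prod isCompact_Icc
  have hvol : volume (Set.Icc (0 : (Fin d → ℝ) × (Fin c → ℝ)) 1) = 1 := by
    rw [hset, Measure.volume_eq_prod, Measure.prod_prod, vol_cube, vol_cube, one_mul]
  have hdt : ∀ k : Fin c → ℤ, Continuous fun t : Fin c → ℝ => ee (dt k t) := by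
    intro k
    unfold ee dt
    fun_prop
  have hcont : ∀ k : Fin c → ℤ, Continuous fun p : (Fin d → ℝ) × (Fin c → ℝ) => φ k p.1 * ee (dt k p.2) :=
    fun k => ((hφ k).comp continuous_fst).mul ((hdt k).comp continuous_snd)
  have hint : ∀ k : Fin c → ℤ, IntegrableOn (fun p : (Fin d → ℝ) × (Fin c → ℝ) => φ k p.1 * ee (dt k p.2))
      (Set.Icc 0 1) := fun k => (hcont k).continuousOn.integrableOn_compact hK
  have hterm : ∀ k : Fin c → ℤ, ∫ p in Set.Icc (0 : (Fin d → ℝ) × (Fin c → ℝ)) 1, φ k p.1 * ee (dt k p.2) =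
      (∫ x in Set.Icc (0 : Fin d → ℝ) 1, φ k x) * (if k = 0 then 1 else 0) := by
    intro k
    rw [hset, Measure.volume_eq_prod,
      setIntegral_prod_mul (fun x : Fin d → ℝ => φ k x) (fun t : Fin c → ℝ => ee (dt k t)), cube_char]
  have hsum : ∫ p in Set.Icc (0 : (Fin d → ℝ) × (Fin c → ℝ)) 1, ∑ k ∈ S, φ k p.1 * ee (dt k p.2) =
      if (0 : Fin c → ℤ) ∈ S then ∫ y, F₀ y else 0 := by
    rw [integral_finsetSum _ fun k _ => hint k]
    simp only [hterm, mul_ite, mul_one, mul_zero]
    rw [sum_ite_eq' S (0 : Fin c → ℤ)]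
    split_ifs with h0
    · rw [← torus_int (fun y => F₀ y) F₀.continuous]
      refine integral_congr_ae (Filter.Eventually.of_forall fun x => ?_)
      exact (hF₀ x).symm
    · rfl
  rw [← hsum]
  unfold meanF
  rw [← integral_sub (hF.continuousOn.integrableOn_compact hK)
    ((continuous_finsetSum _ fun k _ => hcont k).continuousOn.integrableOn_compact hK)]
  have hb : ∀ p ∈ Set.Icc (0 : (Fin d → ℝ) × (Fin c → ℝ)) 1,
      ‖F p - ∑ k ∈ S, φ k p.1 * ee (dt k p.2)‖ ≤ ε := by
    intro p _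
    have h1 := h p.1 p.2
    have h2 : ∑ k ∈ S, φ k p.1 * ee (dt k p.2) = ∑ k ∈ S, ee (dt k p.2) * φ k p.1 :=
      sum_congr rfl fun k _ => mul_comm _ _
    rw [h2]
    exact h1
  have h3 := norm_setIntegral_le_of_norm_le_const (μ := volume) (C := ε) (by rw [hvol]; exact ENNReal.one_lt_top) hb
  refine h3.trans (le_of_eq ?_)
  unfold Measure.real
  rw [hvol]
  simp

end Pool.Agent.Helper44K9.FN
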