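import Pool.Agent.Helper44K9.FN.Stm
import Pool.Agent.Helper44K9.FU.Push

/-!
# Project FN, leaves PUSHA and PAIRP: correlations go down to shorter windows.
-/

set_option autoImplicit false

namespace Pool.Agent.Helper44K9.FN

open Finset
open Pool.Agent.Helper44K9.FU (Mul1 S_TK)

namespace PushaL

/-- the two windows -/
theorem two (p n H : ℕ) (hp : 0 < p) :
    (n + H) / p = n / p + H / p ∨ (n + H) / p = n / p + H / p + 1 := by
  have h5 : n / p + H / p ≤ (n + H) / p := Nat.div_add_div_le_add_div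
  have h6 : (n + H) / p ≤ n / p + H / p + 1 := by
    have h5 := Nat.lt_div_mul_add (a := n) hp
    have h6 := Nat.lt_div_mul_add (a := H) hp
    apply Nat.lt_succ_iff.1
    rw [Nat.div_lt_iff_lt_mul hp]
    nlinarith
  omega

theorem win (p n H : ℕ) (hp : 0 < p) (g : ℕ → ℂ) (hg1 : ∀ m, ‖g m‖ ≤ 1) :
    ‖∑ m ∈ Ioc (n / p) ((n + H) / p), g m - ∑ m ∈ Ioc (n / p) (n / p + H / p), g m‖ ≤ 1 := by
  rcases two p n H hp with h4 | h4
  · rw [h4, sub_self, norm_zero]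
    norm_num
  · rw [h4, sum_Ioc_succ_top (Nat.le_add_right _ _), add_sub_cancel_left]
    exact hg1 _

/-- the main estimate -/
theorem main {f : ℕ → ℂ} (hf : Mul1 f) {ψ : ℕ → ℂ} (hψ : ∀ m, ‖ψ m‖ ≤ 1) (n H p : ℕ) (hp : p.Prime) :
    ‖∑ m ∈ (Ioc n (n + H)).filter (fun m => p ∣ m), f m * ψ m‖ ≤
      cw f (fun m => ψ (p * m)) (n / p) (H / p) + 3 + 2 * ((H : ℝ) / (p * p)) := by
  classical
  rw [FU.PushL.reindex p n H hp.pos fun m => f m * ψ m]
  obtain ⟨g, hg⟩ : ∃ g : ℕ → ℂ, g = fun m => f m * ψ (p * m) := ⟨_, rfl⟩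
  have hg1 : ∀ m, ‖g m‖ ≤ 1 := fun m => by
    rw [hg]
    simp only
    rw [norm_mul]
    exact mul_le_one₀ (hf.1 m) (norm_nonneg _) (hψ _)
  -- the first error
  have h1 : ‖∑ m ∈ Ioc (n / p) ((n + H) / p), f (p * m) * ψ (p * m) -
      f p * ∑ m ∈ Ioc (n / p) ((n + H) / p), g m‖ ≤ 2 * ((H : ℝ) / (p * p) + 1) := by
    rw [mul_sum, ← sum_sub_distrib]
    have h2 : ∀ m ∈ Ioc (n / p) ((n + H) / p),
        ‖f (p * m) * ψ (p * m) - f p * g m‖ ≤ if p ∣ m then 2 else 0 := by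
      intro m _
      rw [hg]
      simp only
      split_ifs with h3
      · have h4 : f (p * m) * ψ (p * m) - f p * (f m * ψ (p * m)) =
            (f (p * m) - f p * f m) * ψ (p * m) := by ring
        rw [h4, norm_mul]
        have h5 := hf.1 (p * m)
        have h6 : ‖f p‖ * ‖f m‖ ≤ 1 := mul_le_one₀ (hf.1 p) (norm_nonneg _) (hf.1 m)
        have h7 : ‖f (p * m) - f p * f m‖ ≤ 2 := by
          refine (norm_sub_le _ _).trans ?_
          rw [norm_mul]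
          linarith
        calc ‖f (p * m) - f p * f m‖ * ‖ψ (p * m)‖ ≤ 2 * 1 :=
              mul_le_mul h7 (hψ _) (norm_nonneg _) (by norm_num)
          _ = 2 := by norm_num
      · rw [hf.2 p m ((Nat.Prime.coprime_iff_not_dvd hp).2 h3)]
        have h4 : f p * f m * ψ (p * m) - f p * (f m * ψ (p * m)) = 0 := by ring
        rw [h4, norm_zero]
    refine (norm_sum_le _ _).trans ((sum_le_sum h2).trans ?_)
    rw [← sum_filter, sum_const, nsmul_eq_mul, mul_comm]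
    exact mul_le_mul_of_nonneg_left (FU.PushL.few p n H hp.pos) (by norm_num)
  -- the second error
  obtain ⟨Wp, hWp⟩ : ∃ Wp : ℂ, Wp = ∑ m ∈ Ioc (n / p) (n / p + H / p), g m := ⟨_, rfl⟩
  have hcw : cw f (fun m => ψ (p * m)) (n / p) (H / p) = ‖Wp‖ := by
    rw [hWp, hg]; rfl
  have h2 := win p n H hp.pos g hg1
  rw [← hWp] at h2
  rw [hcw]
  -- conclusion
  obtain ⟨Bp, hBp⟩ : ∃ Bp : ℂ, Bp = ∑ m ∈ Ioc (n / p) ((n + H) / p), g m := ⟨_, rfl⟩
  rw [← hBp] at h1 h2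
  have h3 : ‖f p * Bp‖ ≤ ‖Bp‖ := by
    rw [norm_mul]
    calc ‖f p‖ * ‖Bp‖ ≤ 1 * ‖Bp‖ := mul_le_mul_of_nonneg_right (hf.1 p) (norm_nonneg _)
      _ = ‖Bp‖ := one_mul _
  have h4 : ‖Bp‖ ≤ ‖Wp‖ + 1 := by
    have := norm_sub_norm_le Bp Wp
    linarith
  have h5 := norm_sub_norm_le (∑ m ∈ Ioc (n / p) ((n + H) / p),
    f (p * m) * ψ (p * m)) (f p * Bp)
  linarith

end PushaL

open PushaL in
/-- the leaf PUSHA -/
theorem pusha (htk : S_TK) : S_PUSHA := by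
  classical
  intro I η hη hI
  obtain ⟨H₁, hH₁⟩ := htk I fun p hp => (hI p hp).1
  obtain ⟨H₂, hH₂⟩ := exists_nat_ge (12 * (∑ p ∈ I, (p : ℝ)) / η)
  refine ⟨H₁ + H₂ + 1, fun H hH f hf ψ hψ n => ?_⟩
  have hH0 : (0 : ℝ) < H := by exact_mod_cast (by omega : 0 < H)
  have h1 := hH₁ H (by omega) n (fun m => f m * ψ m) (fun m => by
    rw [norm_mul]
    exact mul_le_one₀ (hf.1 m) (norm_nonneg _) (hψ m))
  have hp0 : ∀ p ∈ I, (0 : ℝ) < p := fun p hp => by exact_mod_cast (hI p hp).1.pos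
  have hbig : ∀ p ∈ I, 12 * (p : ℝ) ≤ η * H := by
    intro p hp
    have h2 : (p : ℝ) ≤ ∑ p ∈ I, (p : ℝ) :=
      single_le_sum (f := fun p : ℕ => (p : ℝ)) (fun q hq => (hp0 q hq).le) hp
    have h3 : 12 * (∑ p ∈ I, (p : ℝ)) / η ≤ H := hH₂.trans (by exact_mod_cast (by omega : H₂ ≤ H))
    rw [div_le_iff₀ hη] at h3
    linarith
  obtain ⟨A, hA⟩ : ∃ A : ℂ, A = ∑ m ∈ Ioc n (n + H), f m * ψ m := ⟨_, rfl⟩
  have hWA : cw f ψ n H = ‖A‖ := by rw [hA]; rfl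
  have h2 : ∀ p ∈ I.filter (fun p => cw f (fun m => ψ (p * m)) (n / p) (H / p) <
      (cw f ψ n H / H - η) * ((H / p : ℕ) : ℝ)),
      (1 / (p : ℝ)) * (η * H / 2) ^ 2 ≤ (1 / (p : ℝ)) * ‖(p : ℂ) *
        ∑ m ∈ (Ioc n (n + H)).filter (fun m => p ∣ m), f m * ψ m -
        ∑ m ∈ Ioc n (n + H), f m * ψ m‖ ^ 2 := by
    intro p hp
    rw [mem_filter] at hp
    obtain ⟨hpI, hlt⟩ := hp
    have hpp := hp0 p hpI
    have hmain := PushaL.main hf hψ n H p (hI p hpI).1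
    apply mul_le_mul_of_nonneg_left _ (by positivity)
    apply pow_le_pow_left₀ (by positivity)
    rw [← hA]
    rw [hWA] at hlt
    obtain ⟨Wp, hWp⟩ : ∃ Wp : ℝ, Wp = cw f (fun m => ψ (p * m)) (n / p) (H / p) := ⟨_, rfl⟩
    rw [← hWp] at hlt hmain
    have hWp0 : 0 ≤ Wp := by rw [hWp]; exact norm_nonneg _
    have hfl0 : (0 : ℝ) ≤ ((H / p : ℕ) : ℝ) := Nat.cast_nonneg _
    have hfl : ((H / p : ℕ) : ℝ) * p ≤ H := by
      have := Nat.div_mul_le_self H p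
      exact_mod_cast this
    have hpos : 0 < ‖A‖ / H - η := by
      by_contra hcon
      push Not at hcon
      have := mul_nonpos_of_nonpos_of_nonneg hcon hfl0
      linarith
    have h3 : (p : ℝ) * Wp ≤ ‖A‖ - η * H := by
      calc (p : ℝ) * Wp ≤ p * ((‖A‖ / H - η) * ((H / p : ℕ) : ℝ)) :=
            mul_le_mul_of_nonneg_left hlt.le hpp.le
        _ = (‖A‖ / H - η) * (((H / p : ℕ) : ℝ) * p) := by ring
        _ ≤ (‖A‖ / H - η) * H := mul_le_mul_of_nonneg_left hfl hpos.le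
        _ = ‖A‖ - η * H := by field_simp
    obtain ⟨Ap, hAp⟩ : ∃ Ap : ℂ, Ap = ∑ m ∈ (Ioc n (n + H)).filter (fun m => p ∣ m),
        f m * ψ m := ⟨_, rfl⟩
    rw [← hAp] at hmain ⊢
    have h4 : ‖(p : ℂ) * Ap‖ ≤ p * Wp + 3 * p + 2 * (H / p) := by
      rw [norm_mul, Complex.norm_natCast]
      calc (p : ℝ) * ‖Ap‖ ≤ p * (Wp + 3 + 2 * ((H : ℝ) / (p * p))) :=
            mul_le_mul_of_nonneg_left hmain hpp.le
        _ = p * Wp + 3 * p + 2 * (H / p) := by field_simp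
    have h5 : 2 * ((H : ℝ) / p) ≤ η * H / 4 := by
      have h6 := (hI p hpI).2
      rw [div_le_iff₀ hη] at h6
      have h7 : (H : ℝ) / p * (p * η) = H * η := by field_simp
      have h8 : (H : ℝ) / p * 8 ≤ (H : ℝ) / p * (p * η) :=
        mul_le_mul_of_nonneg_left h6 (by positivity)
      linarith
    have h6 := hbig p hpI
    have h7 := norm_sub_norm_le A ((p : ℂ) * Ap)
    rw [norm_sub_rev] at h7
    linarith
  have h3 : ∑ p ∈ I.filter (fun p => cw f (fun m => ψ (p * m)) (n / p) (H / p) <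
      (cw f ψ n H / H - η) * ((H / p : ℕ) : ℝ)), (1 / (p : ℝ)) * (η * H / 2) ^ 2 ≤
      8 * (H : ℝ) ^ 2 := by
    refine (sum_le_sum h2).trans (le_trans ?_ h1)
    exact sum_le_sum_of_subset_of_nonneg (filter_subset _ _) fun p hp _ => by
      have := hp0 p hp
      positivity
  rw [← sum_mul] at h3
  rw [le_div_iff₀ (by positivity)]
  have h4 : (∑ p ∈ I.filter (fun p => cw f (fun m => ψ (p * m)) (n / p) (H / p) <
      (cw f ψ n H / H - η) * ((H / p : ℕ) : ℝ)), 1 / (p : ℝ)) * η ^ 2 * (H : ℝ) ^ 2 ≤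
      100 * (H : ℝ) ^ 2 := by
    have h5 : (η * H / 2) ^ 2 = η ^ 2 * (H : ℝ) ^ 2 / 4 := by ring
    rw [h5] at h3
    have h6 : (0 : ℝ) < (H : ℝ) ^ 2 := by positivity
    nlinarith
  exact le_of_mul_le_mul_right h4 (by positivity)

open PushaL in
/-- the leaf PAIRP -/
theorem pairp (htk : S_TK) : S_PAIRP := by
  classical
  intro I η hη hI
  obtain ⟨H₁, hH₁⟩ := htk I fun p hp => (hI p hp).1
  obtain ⟨H₂, hH₂⟩ := exists_nat_ge (12 * (∑ p ∈ I, (p : ℝ)) / η)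
  refine ⟨H₁ + H₂ + 1, fun H hH ψ ψ' hψ hψ' n => ?_⟩
  have hH0 : (0 : ℝ) < H := by exact_mod_cast (by omega : 0 < H)
  obtain ⟨a, ha⟩ : ∃ a : ℕ → ℂ, a = fun m => ψ m * (starRingEnd ℂ) (ψ' m) := ⟨_, rfl⟩
  have ha1 : ∀ m, ‖a m‖ ≤ 1 := fun m => by
    rw [ha]
    simp only
    rw [norm_mul, RCLike.norm_conj]
    exact mul_le_one₀ (hψ m) (norm_nonneg _) (hψ' m)
  have h1 := hH₁ H (by omega) n a ha1
  have hp0 : ∀ p ∈ I, (0 : ℝ) < p := fun p hp => by exact_mod_cast (hI p hp).1.pos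
  have hbig : ∀ p ∈ I, 12 * (p : ℝ) ≤ η * H := by
    intro p hp
    have h2 : (p : ℝ) ≤ ∑ p ∈ I, (p : ℝ) :=
      single_le_sum (f := fun p : ℕ => (p : ℝ)) (fun q hq => (hp0 q hq).le) hp
    have h3 : 12 * (∑ p ∈ I, (p : ℝ)) / η ≤ H := hH₂.trans (by exact_mod_cast (by omega : H₂ ≤ H))
    rw [div_le_iff₀ hη] at h3
    linarith
  obtain ⟨A, hA⟩ : ∃ A : ℂ, A = ∑ m ∈ Ioc n (n + H), a m := ⟨_, rfl⟩
  have hWA : pw ψ ψ' n H = ‖A‖ := by rw [hA, ha]; rfl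
  have h2 : ∀ p ∈ I.filter (fun p => (pw ψ ψ' n H / H + η) * ((H / p : ℕ) : ℝ) <
      pw (fun m => ψ (p * m)) (fun m => ψ' (p * m)) (n / p) (H / p)),
      (1 / (p : ℝ)) * (η * H / 2) ^ 2 ≤ (1 / (p : ℝ)) * ‖(p : ℂ) *
        ∑ m ∈ (Ioc n (n + H)).filter (fun m => p ∣ m), a m -
        ∑ m ∈ Ioc n (n + H), a m‖ ^ 2 := by
    intro p hp
    rw [mem_filter] at hp
    obtain ⟨hpI, hlt⟩ := hp
    have hpp := hp0 p hpI
    have hpn : 0 < p := (hI p hpI).1.pos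
    apply mul_le_mul_of_nonneg_left _ (by positivity)
    apply pow_le_pow_left₀ (by positivity)
    rw [← hA]
    rw [hWA] at hlt
    obtain ⟨Wp, hWp⟩ : ∃ Wp : ℂ, Wp = ∑ m ∈ Ioc (n / p) (n / p + H / p), a (p * m) := ⟨_, rfl⟩
    have hpw : pw (fun m => ψ (p * m)) (fun m => ψ' (p * m)) (n / p) (H / p) = ‖Wp‖ := by
      rw [hWp, ha]; rfl
    rw [hpw] at hlt
    obtain ⟨Ap, hAp⟩ : ∃ Ap : ℂ, Ap = ∑ m ∈ (Ioc n (n + H)).filter (fun m => p ∣ m), a m :=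
      ⟨_, rfl⟩
    rw [← hAp]
    have hmain : ‖Ap - Wp‖ ≤ 1 := by
      rw [hAp, FU.PushL.reindex p n H hpn a, hWp]
      exact win p n H hpn (fun m => a (p * m)) fun m => ha1 _
    have hfl0 : (0 : ℝ) ≤ ((H / p : ℕ) : ℝ) := Nat.cast_nonneg _
    have hfl : (H : ℝ) ≤ ((H / p : ℕ) : ℝ) * p + p := by
      have := Nat.lt_div_mul_add (a := H) hpn
      exact_mod_cast this.le
    have hAH : 0 ≤ ‖A‖ / H + η := by positivity
    have hA1 : ‖A‖ / H ≤ 1 := by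
      rw [div_le_one hH0, hA]
      refine (norm_sum_le _ _).trans ?_
      calc ∑ m ∈ Ioc n (n + H), ‖a m‖ ≤ ∑ m ∈ Ioc n (n + H), (1 : ℝ) :=
            sum_le_sum fun m _ => ha1 m
        _ = H := by simp
    -- p * Wp is large
    have h3 : ‖A‖ + η * H - (1 + η) * p ≤ p * ‖Wp‖ := by
      have h4 : (‖A‖ / H + η) * ((H : ℝ) - p) ≤ (‖A‖ / H + η) * (((H / p : ℕ) : ℝ) * p) :=
        mul_le_mul_of_nonneg_left (by linarith) hAH
      have h5 : (‖A‖ / H + η) * (((H / p : ℕ) : ℝ) * p) ≤ p * ‖Wp‖ := by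
        calc (‖A‖ / H + η) * (((H / p : ℕ) : ℝ) * p) =
              p * ((‖A‖ / H + η) * ((H / p : ℕ) : ℝ)) := by ring
          _ ≤ p * ‖Wp‖ := mul_le_mul_of_nonneg_left hlt.le hpp.le
      have h6 : (‖A‖ / H + η) * ((H : ℝ) - p) = ‖A‖ + η * H - (‖A‖ / H + η) * p := by
        field_simp
      have h7 : (‖A‖ / H + η) * p ≤ (1 + η) * p :=
        mul_le_mul_of_nonneg_right (by linarith) hpp.le
      linarith
    have h4 : ‖(p : ℂ) * Wp‖ ≤ ‖(p : ℂ) * Ap‖ + p := by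
      have h5 : (p : ℂ) * Wp = (p : ℂ) * Ap - (p : ℂ) * (Ap - Wp) := by ring
      rw [h5]
      refine (norm_sub_le _ _).trans ?_
      rw [norm_mul (p : ℂ) (Ap - Wp), Complex.norm_natCast]
      have : (p : ℝ) * ‖Ap - Wp‖ ≤ p * 1 := mul_le_mul_of_nonneg_left hmain hpp.le
      linarith
    rw [norm_mul, Complex.norm_natCast] at h4
    have h6 := hbig p hpI
    have h7 := norm_sub_norm_le ((p : ℂ) * Ap) A
    have h8 : η * (p : ℝ) ≤ η * H / 12 ∨ True := Or.inr trivial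
    -- `η p ≤ η H / 4` since `4 p ≤ H`, or `η ≥ 3`
    have h9 : (2 + η) * p ≤ η * H / 2 := by
      rcases le_or_gt η 1 with hη1 | hη1
      · have : (2 + η) * p ≤ 3 * p := mul_le_mul_of_nonneg_right (by linarith) hpp.le
        linarith
      · have h10 : (2 + η) * (p : ℝ) ≤ 3 * η * p := mul_le_mul_of_nonneg_right (by linarith) hpp.le
        have h11 : ‖Wp‖ ≤ ((H / p : ℕ) : ℝ) := by
          rw [hWp]
          refine (norm_sum_le _ _).trans ?_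
          calc ∑ m ∈ Ioc (n / p) (n / p + H / p), ‖a (p * m)‖ ≤
              ∑ m ∈ Ioc (n / p) (n / p + H / p), (1 : ℝ) := sum_le_sum fun m _ => ha1 _
            _ = ((H / p : ℕ) : ℝ) := by simp
        have h12 : 1 < ‖A‖ / H + η := by
          have : 0 ≤ ‖A‖ / H := by positivity
          linarith
        exfalso
        have h13 : ((H / p : ℕ) : ℝ) ≤ (‖A‖ / H + η) * ((H / p : ℕ) : ℝ) := by
          nlinarith
        linarith
    linarith
  have h3 : ∑ p ∈ I.filter (fun p => (pw ψ ψ' n H / H + η) * ((H / p : ℕ) : ℝ) <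
      pw (fun m => ψ (p * m)) (fun m => ψ' (p * m)) (n / p) (H / p)),
      (1 / (p : ℝ)) * (η * H / 2) ^ 2 ≤ 8 * (H : ℝ) ^ 2 := by
    refine (sum_le_sum h2).trans (le_trans ?_ h1)
    exact sum_le_sum_of_subset_of_nonneg (filter_subset _ _) fun p hp _ => by
      have := hp0 p hp
      positivity
  rw [← sum_mul] at h3
  rw [le_div_iff₀ (by positivity)]
  have h4 : (∑ p ∈ I.filter (fun p => (pw ψ ψ' n H / H + η) * ((H / p : ℕ) : ℝ) <
      pw (fun m => ψ (p * m)) (fun m => ψ' (p * m)) (n / p) (H / p)),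
      1 / (p : ℝ)) * η ^ 2 * (H : ℝ) ^ 2 ≤ 100 * (H : ℝ) ^ 2 := by
    have h5 : (η * H / 2) ^ 2 = η ^ 2 * (H : ℝ) ^ 2 / 4 := by ring
    rw [h5] at h3
    have h6 : (0 : ℝ) < (H : ℝ) ^ 2 := by positivity
    nlinarith
  exact le_of_mul_le_mul_right h4 (by positivity)

end Pool.Agent.Helper44K9.FN
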