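import Pool.Agent.Helper44K9.FN.Stm

/-! Leaves [RED] and [ORB] (helper94). -/

set_option autoImplicit false

namespace Pool.Agent.Helper44K9.FN

open Finset MeasureTheory Polynomial
open Pool.Agent.H807R2.Dav (ee ee_add)

namespace RedL

variable {d : ℕ}

theorem bf_add_left (b : Matrix (Fin d) (Fin d) ℤ) (x y z : Fin d → ℝ) :
    bf b (x + y) z = bf b x z + bf b y z := by
  unfold bf
  simp only [Pi.add_apply, add_mul, sum_add_distrib]

theorem bf_add_right (b : Matrix (Fin d) (Fin d) ℤ) (x y z : Fin d → ℝ) :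
    bf b x (y + z) = bf b x y + bf b x z := by
  unfold bf
  simp only [Pi.add_apply, mul_add, sum_add_distrib]

theorem bf_smul_left (b : Matrix (Fin d) (Fin d) ℤ) (r : ℝ) (x z : Fin d → ℝ) :
    bf b (r • x) z = r * bf b x z := by
  unfold bf
  simp only [Pi.smul_apply, smul_eq_mul, mul_sum]
  exact sum_congr rfl fun i _ => sum_congr rfl fun j _ => by ring

theorem bf_smul_right (b : Matrix (Fin d) (Fin d) ℤ) (r : ℝ) (x z : Fin d → ℝ) :
    bf b x (r • z) = r * bf b x z := by
  unfold bf
  simp only [Pi.smul_apply, smul_eq_mul, mul_sum]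
  exact sum_congr rfl fun i _ => sum_congr rfl fun j _ => by ring

theorem cst_smul (m : ℕ) (j : Fin d → ℤ) : cst ((m : ℤ) • j) = (m : ℝ) • cst j := by
  funext i
  simp [cst]

theorem fr_add (x : Fin d → ℝ) : fr x + cst (fun i => ⌊x i⌋) = x := by
  funext i
  simp only [Pi.add_apply, fr, cst]
  exact Int.fract_add_floor (x i)

theorem dt_add (k : Fin d → ℤ) (x y : Fin d → ℝ) : dt k (x + y) = dt k x + dt k y := by
  unfold dt
  simp only [Pi.add_apply, mul_add, sum_add_distrib]

end RedL

open RedL in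
/-- **RED** -/
theorem red : S_RED := by
  intro d b φ hφ α x P hP
  obtain ⟨j, hj⟩ : ∃ j : Fin d → ℤ, j = fun i => ⌊α i⌋ := ⟨_, rfl⟩
  have hα : fr α + cst j = α := by rw [hj]; exact fr_add α
  refine ⟨P - C (bf b (fr α) (cst j)) * X ^ 2 - C (bf b x (cst j)) * X, ?_, fun m => ?_⟩
  · refine (natDegree_sub_le _ _).trans (max_le ((natDegree_sub_le _ _).trans (max_le hP ?_)) ?_)
    · exact (natDegree_C_mul_le _ _).trans (natDegree_X_pow_le 2)
    · exact (natDegree_C_mul_le _ _).trans (natDegree_X_le.trans (by norm_num))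
  · have h1 : (m : ℝ) • α + x = ((m : ℝ) • fr α + x) + cst ((m : ℤ) • j) := by
      rw [cst_smul]
      conv_lhs => rw [← hα]
      rw [smul_add]
      abel
    rw [h1, hφ.2.2, ← mul_assoc, ← ee_add]
    congr 2
    rw [cst_smul, bf_smul_right, bf_add_left, bf_smul_left]
    simp only [eval_sub, eval_mul, eval_C, eval_X, eval_pow]
    ring

open RedL in
/-- **ORB** -/
theorem orb : S_ORB := by
  intro d c β k g y
  obtain ⟨A, hA⟩ : ∃ A : ℝ, A = dt k g.2 + ∑ l, (k l : ℝ) * bf (β l) g.1 y.1 := ⟨_, rfl⟩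
  obtain ⟨B, hB⟩ : ∃ B : ℝ, B = ∑ l, (k l : ℝ) * bf (β l) g.1 g.1 := ⟨_, rfl⟩
  refine ⟨C (dt k y.2) + C A * X + C (B / 2) * (X ^ 2 - X), ?_, fun n => ?_⟩
  · refine (natDegree_add_le _ _).trans (max_le ((natDegree_add_le _ _).trans (max_le ?_ ?_)) ?_)
    · rw [natDegree_C]
      norm_num
    · exact (natDegree_C_mul_le _ _).trans (natDegree_X_le.trans (by norm_num))
    · refine (natDegree_C_mul_le _ _).trans ((natDegree_sub_le _ _).trans (max_le ?_ ?_))
      · exact natDegree_X_pow_le 2
      · exact natDegree_X_le.trans (by norm_num)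
  · have h1 : ∀ n : ℕ, ((mulG β g)^[n] y).1 = (n : ℝ) • g.1 + y.1 := by
      intro n
      induction n with
      | zero => simp
      | succ n ih =>
        rw [Function.iterate_succ_apply']
        unfold mulG at ih ⊢
        simp only
        rw [ih]
        push_cast
        rw [add_smul, one_smul]
        abel
    refine ⟨h1 n, ?_⟩
    induction n with
    | zero => simp
    | succ n ih =>
      rw [Function.iterate_succ_apply']
      have h2 : (mulG β g ((mulG β g)^[n] y)).2 = g.2 + ((mulG β g)^[n] y).2 +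
        fun l => bf (β l) g.1 ((mulG β g)^[n] y).1 := rfl
      rw [h2, dt_add, dt_add, ih, h1 n]
      have h3 : dt k (fun l => bf (β l) g.1 ((n : ℝ) • g.1 + y.1)) =
          n * B + ∑ l, (k l : ℝ) * bf (β l) g.1 y.1 := by
        unfold dt
        rw [hB, mul_sum, ← sum_add_distrib]
        refine sum_congr rfl fun l _ => ?_
        beta_reduce
        rw [bf_add_right, bf_smul_right]
        ring
      rw [h3]
      simp only [eval_add, eval_sub, eval_mul, eval_C, eval_X, eval_pow]
      push_cast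
      rw [hA]
      ring

end Pool.Agent.Helper44K9.FN
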