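import Mathlib
import Pool.Agent.Helper44K9.FU.Stm
import Pool.Agent.Helper44K9.FB.Stm

/-!
# Project FN (MP_663568_nt, helper44): two-step nilmanifolds.

`G = ℝ^d × ℝ^c` with `(x, t) (y, s) = (x + y, t + s + β(x, y))`, `β` bilinear with integer coefficients,
`Γ = ℤ^d × ℤ^c` (all simply connected two-step nilpotent Lie groups with a lattice). The supremum over all `g` in `G`
whose horizontal part is in a small set. Definitions and statements of the leaves.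
-/

set_option autoImplicit false

namespace Pool.Agent.Helper44K9.FN

open Finset MeasureTheory Polynomial
open Pool.Agent.H807R2.Dav (ee)
open Pool.Agent.Helper44K9.FU (Mul1 MM S_TK S_EQ S_DIL S_PIG S_SUB)

/-- the bilinear form of an integer matrix -/
noncomputable def bf {d : ℕ} (b : Matrix (Fin d) (Fin d) ℤ) (x y : Fin d → ℝ) : ℝ :=
  ∑ i, ∑ j, x i * (b i j : ℝ) * y j

/-- the linear form of an integer vector -/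
noncomputable def dt {d : ℕ} (m : Fin d → ℤ) (x : Fin d → ℝ) : ℝ := ∑ i, (m i : ℝ) * x i

/-- integer vectors as real vectors -/
def cst {d : ℕ} (m : Fin d → ℤ) : Fin d → ℝ := fun i => (m i : ℝ)

/-- fractional parts -/
noncomputable def fr {d : ℕ} (x : Fin d → ℝ) : Fin d → ℝ := fun i => Int.fract (x i)

/-- the class modulo one -/
def md {d : ℕ} (x : Fin d → ℝ) : Fin d → UnitAddCircle := fun i => (x i : UnitAddCircle)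

/-- the unit box -/
def Box (d : ℕ) : Set (Fin d → ℝ) := {α | ∀ i, 0 ≤ α i ∧ α i < 1}

/-- continuous functions bounded by one with the transformation rule of theta functions -/
def Th {d : ℕ} (b : Matrix (Fin d) (Fin d) ℤ) (φ : (Fin d → ℝ) → ℂ) : Prop :=
  Continuous φ ∧ (∀ x, ‖φ x‖ ≤ 1) ∧ ∀ (x : Fin d → ℝ) (m : Fin d → ℤ), φ (x + cst m) = ee (-bf b x (cst m)) * φ x

/-- the sequences `e(P(m)) φ(m α + x)`, `α ∈ A`, `x` arbitrary, `P` of degree at most two -/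
def Cl {d : ℕ} (φ : (Fin d → ℝ) → ℂ) (A : Set (Fin d → ℝ)) : Set (ℕ → ℂ) :=
  {ψ | ∃ α ∈ A, ∃ (x : Fin d → ℝ) (P : ℝ[X]), P.natDegree ≤ 2 ∧
    ∀ m : ℕ, ψ m = ee (P.eval (m : ℝ)) * φ ((m : ℝ) • α + x)}

/-- correlation of `f` and `ψ` on the window (not normalized) -/
noncomputable def cw (f ψ : ℕ → ℂ) (n H : ℕ) : ℝ := ‖∑ m ∈ Ioc n (n + H), f m * ψ m‖

/-- correlation of two phases on the window (not normalized) -/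
noncomputable def pw (ψ ψ' : ℕ → ℂ) (n H : ℕ) : ℝ := ‖∑ m ∈ Ioc n (n + H), ψ m * (starRingEnd ℂ) (ψ' m)‖

/-- torsion-free, horizontally -/
def Irr {d : ℕ} (E : Set (Fin d → UnitAddCircle)) : Prop :=
  ∀ k : Fin d → ℤ, k ≠ 0 → ∀ x ∈ E, addOrderOf (FB.lf k x) = 0

/-! ### Part 1: the list method for abstract classes of sequences -/

/-- a class of sequences bounded by one, closed under dilations -/
def Clos (C : Set (ℕ → ℂ)) : Prop := (∀ ψ ∈ C, ∀ m, ‖ψ m‖ ≤ 1) ∧ ∀ ψ ∈ C, ∀ p : ℕ, (fun m => ψ (p * m)) ∈ C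

/-- [BESA] Bessel. Proof: `(∑_i |⟨f, ψ_i⟩|)² ≤ H ∑_{i,j} |⟨ψ_i, ψ_j⟩| ≤ H (r H + r² (t²/4) H)` (see
`FU.BesL.cs`, `FU.BesL.gram`), so `r ≤ 4/(3 t²)`. -/
def S_BESA : Prop := ∀ t : ℝ, 0 < t → ∃ R : ℕ, ∀ f : ℕ → ℂ, (∀ n, ‖f n‖ ≤ 1) → ∀ (n H r : ℕ) (ψ : Fin r → ℕ → ℂ),
  1 ≤ H → (∀ i m, ‖ψ i m‖ ≤ 1) → (∀ i, t * H ≤ cw f (ψ i) n H) →
  (∀ i j, i ≠ j → pw (ψ i) (ψ j) n H ≤ t ^ 2 / 4 * H) → r ≤ R

open Classical in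
/-- [PUSHA] `FU.S_TK → S_PUSHA`, as `FU.push` (which is the case `ψ(m) = e(P(m))`; the proof does not use it). -/
def S_PUSHA : Prop := ∀ (I : Finset ℕ) (η : ℝ), 0 < η → (∀ p ∈ I, p.Prime ∧ 8 / η ≤ p) → ∃ H₀ : ℕ, ∀ H ≥ H₀,
  ∀ f : ℕ → ℂ, Mul1 f → ∀ ψ : ℕ → ℂ, (∀ m, ‖ψ m‖ ≤ 1) → ∀ n : ℕ,
  ∑ p ∈ I.filter (fun p => cw f (fun m => ψ (p * m)) (n / p) (H / p) < (cw f ψ n H / H - η) * ((H / p : ℕ) : ℝ)),
    1 / (p : ℝ) ≤ 100 / η ^ 2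

open Classical in
/-- [PAIRP] `FU.S_TK → S_PAIRP`: the same for the correlation of two sequences, upper bound. Apply `S_TK` to
`a m = ψ m * conj (ψ' m)`; `∑_{m ∈ (n/p, (n+H)/p]} a(p m) = ∑_{p | m, m ∈ (n, n+H]} a m`, and the window
`Ioc (n/p) (n/p + H/p)` differs from `(n/p, (n+H)/p]` by at most one element. -/
def S_PAIRP : Prop := ∀ (I : Finset ℕ) (η : ℝ), 0 < η → (∀ p ∈ I, p.Prime ∧ 8 / η ≤ p) → ∃ H₀ : ℕ, ∀ H ≥ H₀,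
  ∀ ψ ψ' : ℕ → ℂ, (∀ m, ‖ψ m‖ ≤ 1) → (∀ m, ‖ψ' m‖ ≤ 1) → ∀ n : ℕ,
  ∑ p ∈ I.filter (fun p => (pw ψ ψ' n H / H + η) * ((H / p : ℕ) : ℝ) <
    pw (fun m => ψ (p * m)) (fun m => ψ' (p * m)) (n / p) (H / p)), 1 / (p : ℝ) ≤ 100 / η ^ 2

open Classical in
/-- the condition on the target `T` and the class `C` -/
def EQA (C T : Set (ℕ → ℂ)) : Prop := ∀ δ c : ℝ, 0 < δ → 0 < c → ∀ (z : ℕ) (A : ℝ), ∃ I : Finset ℕ,
  (∀ p ∈ I, p.Prime ∧ z < p) ∧ A ≤ ∑ p ∈ I, 1 / (p : ℝ) ∧ ∃ H₀ : ℕ, ∀ H ≥ H₀, ∀ (n : ℕ), ∀ ψ ∈ C,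
    ∑ p ∈ I.filter (fun p : ℕ => ∃ φ ∈ T, δ * ((H / p : ℕ) : ℝ) ≤ pw φ (fun m => ψ (p * m)) (n / p) (H / p)),
      1 / (p : ℝ) ≤ c * ∑ p ∈ I, 1 / (p : ℝ)

open Classical in
/-- [ABS] `S_BESA → S_PUSHA → S_PAIRP → FU.S_DIL → FU.S_PIG → S_ABS`. Proof: copy of `FU.mone` (files FU/Lst.lean,
FU/Mone.lean) with `Rel` replaced by the relation: correlation at least `δ_j`: lists of `ψ_i ∈ C` with `t_j H ≤ cw f ψ_i n H` and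
`pw ψ_i ψ_i' n H < δ_j H` for `i ≠ i'`, `t_j = ε - j η`, `δ_j = δ₀ + j η`, `δ_J ≤ (ε/2)²/4`. -/
def S_ABS : Prop := ∀ C T : Set (ℕ → ℂ), Clos C → T ⊆ C → EQA C T → ∀ ε : ℝ, 0 < ε → ∃ H₁ H₂ N₀ : ℕ, 1 ≤ H₁ ∧
  ∀ N ≥ N₀, ∀ f : ℕ → ℂ, Mul1 f → ∃ H ∈ Ico H₁ H₂, ∑ n ∈ Icc 1 N, (1 / (n : ℝ)) *
    (if ∃ φ ∈ T, ε * H ≤ cw f φ n H then 1 else 0) ≤ ε * ∑ n ∈ Icc 1 N, 1 / (n : ℝ)

/-- the supremum over a class -/
noncomputable def sT (T : Set (ℕ → ℂ)) (f : ℕ → ℂ) (n H : ℕ) : ℝ := ⨆ φ : T, cw f φ n H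

/-- [FINA] `FU.S_SUB → S_ABS → S_FINA`: copy of `FU.fin_core` (FU/Fin2.lean; `LS` is the hypothesis on long sums). -/
def S_FINA : Prop := ∀ C T : Set (ℕ → ℂ), Clos C → T ⊆ C → EQA C T →
  (∀ ε : ℝ, 0 < ε → ∃ X₀ : ℕ, ∀ X ≥ X₀, ∀ f : ℕ → ℂ, Mul1 f → ∀ ψ ∈ T, cw f ψ 0 X ≤ ε * X) →
  ∀ ε : ℝ, 0 < ε → ∃ H₀ : ℕ, ∀ f : ℕ → ℂ, Mul1 f → ∀ N H : ℕ, H₀ ≤ H → H ≤ N →
    ∑ n ∈ Icc 1 N, (1 / (n : ℝ)) * sT T f n H ≤ ε * H * Real.log N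

/-- [KATA] `FU.S_TK → S_KATA`: Kátai's criterion for a class of sequences. Proof: as `FU.ls` (FU/Ls.lean: `dual`,
`exists_primes`), where `T` is the class of the `e(P(m))`: for `f` multiplicative and a finite set `I` of primes
`X ∑_{I} 1/p ≥ ...`. -/
def S_KATA : Prop := ∀ T : Set (ℕ → ℂ), (∀ ψ ∈ T, ∀ m, ‖ψ m‖ ≤ 1) →
  (∀ p q : ℕ, p.Prime → q.Prime → p ≠ q → ∀ ε : ℝ, 0 < ε → ∃ X₀ : ℕ, ∀ X ≥ X₀, ∀ ψ ∈ T,
    pw (fun m => ψ (p * m)) (fun m => ψ (q * m)) 0 X ≤ ε * X) →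
  ∀ ε : ℝ, 0 < ε → ∃ X₀ : ℕ, ∀ X ≥ X₀, ∀ f : ℕ → ℂ, Mul1 f → ∀ ψ ∈ T, cw f ψ 0 X ≤ ε * X

/-! ### Part 2: correlations of two sequences -/

/-- [RED] reduction of the frequency modulo one: `φ(m (α + j) + x) = e(-m² b(α, j) - m b(x, j)) φ(m α + x)` for an
integer vector `j`. -/
def S_RED : Prop := ∀ (d : ℕ) (b : Matrix (Fin d) (Fin d) ℤ) (φ : (Fin d → ℝ) → ℂ), Th b φ →
  ∀ (α x : Fin d → ℝ) (P : ℝ[X]), P.natDegree ≤ 2 → ∃ P' : ℝ[X], P'.natDegree ≤ 2 ∧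
    ∀ m : ℕ, ee (P.eval (m : ℝ)) * φ ((m : ℝ) • α + x) = ee (P'.eval (m : ℝ)) * φ ((m : ℝ) • fr α + x)

/-- [TRU] uniform trigonometric approximation. The function `Φ_r(z) = e(b(r, z)) φ(z + r) conj (φ z)` is periodic in
`z` and depends continuously on `r`; cover the compact box by finitely many balls and use `FB.S_TRIGM`
(`FB.trigm`) for the centres; uniform continuity on `[0,1]^d × [0,1]^d` and periodicity in `z`. -/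
def S_TRU : Prop := ∀ (d : ℕ) (b : Matrix (Fin d) (Fin d) ℤ) (φ : (Fin d → ℝ) → ℂ), Th b φ → ∀ ε : ℝ, 0 < ε →
  ∃ (S : Finset (Fin d → ℤ)) (M : ℝ), 0 < M ∧ ∀ r : Fin d → ℝ, (∀ i, 0 ≤ r i ∧ r i ≤ 1) → ∃ c : (Fin d → ℤ) → ℂ,
    (∀ k, ‖c k‖ ≤ M) ∧ ∀ z : Fin d → ℝ,
      ‖ee (bf b r z) * φ (z + r) * (starRingEnd ℂ) (φ z) - ∑ k ∈ S, c k * ee (dt k z)‖ ≤ ε

/-- the integer vector `(b - bᵀ)ᵀ ⌊h α⌋ + η` -/
noncomputable def lam {d : ℕ} (b : Matrix (Fin d) (Fin d) ℤ) (α : Fin d → ℝ) (η : Fin d → ℤ) (h : ℕ) : Fin d → ℤ :=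
  fun j => ∑ i, ⌊(h : ℝ) * α i⌋ * (b i j - b j i) + η j

/-- many approximate relations -/
def Rl {d : ℕ} (b : Matrix (Fin d) (Fin d) ℤ) (S : Finset (Fin d → ℤ)) (C c : ℝ) (α β : Fin d → ℝ) (H : ℕ) : Prop :=
  ∃ (κ : ℝ) (U : Finset ℕ) (η η' : ℕ → Fin d → ℤ), U ⊆ Ico 1 H ∧ c * H ≤ #U ∧
    (∀ h ∈ U, η h ∈ S ∧ η' h ∈ S) ∧ ∀ h ∈ U, ∃ a : ℤ,
      |κ * h + dt (lam b α (η h) h) α - dt (lam b β (η' h) h) β - a| ≤ C / H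

/-- [VDC] `S_TRU → S_VDC`. Proof: let `u(m)` be the summand. `‖∑ u‖² = ∑_{|h| < H} A_h`,
`A_h = ∑_{m, m+h in the window} u(m+h) conj u(m)`, so at least `δ² H / 8` of the `h ∈ [1, H)` have
`‖A_h‖ ≥ δ² H / 8`. With `z = m α + x`, `r = {h α}` (`fr`), `j = ⌊h α⌋`:
`φ(z + h α) conj φ(z) = e(-b(z + r, j) - b(r, z)) Φ_r(z)`, the phase is `m (b(j, α) - b(α, j) - h b(α, α))` plus a
constant; the same for `β`; `P(m+h) - P(m) = 2 p₂ h m + const`; `κ = 2 p₂ - b(α, α) + b(β, β)`. Insert `S_TRU` for the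
two functions `Φ`: some `η, η' ∈ S` have `‖∑_m e(m θ)‖ ≥ δ' H`, `θ = κ h + λ_h · α - λ'_h · β` (interval of length
`≤ H`), so `θ` is within `1/(2 δ' H)` of an integer (`BsL.far` in FC/Bs.lean, or
`Pool.Agent.Helper602.MK.N_J5b.KD_far`). -/
def S_VDC : Prop := ∀ (d : ℕ) (b : Matrix (Fin d) (Fin d) ℤ) (φ : (Fin d → ℝ) → ℂ), Th b φ → ∀ δ : ℝ, 0 < δ →
  ∃ (S : Finset (Fin d → ℤ)) (C c : ℝ) (H₀ : ℕ), 0 < C ∧ 0 < c ∧ ∀ H ≥ H₀, ∀ (n : ℕ) (α β x y : Fin d → ℝ) (P : ℝ[X]),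
    P.natDegree ≤ 2 → δ * H ≤ ‖∑ m ∈ Ioc n (n + H), ee (P.eval (m : ℝ)) * φ ((m : ℝ) • α + x) *
      (starRingEnd ℂ) (φ ((m : ℝ) • β + y))‖ → Rl b S C c α β H

/-- [AFF] a dense set of times on which an integer sequence is near a line contains two pairs with different slopes.
Proof: cut `[1, H)` into blocks of length `K`, one of them, `J`, contains at least `c K / 2` elements of `U`. If all
slopes are equal to `u` in `U ∩ J`, then `|v - u| ≤ 2 W / (c K / 2 - 1)`, and there are `h < h'` in `U ∩ J` with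
`s = h' - h ≤ 4 / c`, so `s u = λ h' - λ h` is an integer and `|s v - s u| < κ₀` for `K` large. -/
def S_AFF : Prop := ∀ c W κ₀ : ℝ, 0 < c → 0 < W → 0 < κ₀ → ∃ K H₀ : ℕ, ∀ H ≥ H₀, ∀ U ⊆ Ico 1 H, c * H ≤ #U →
  ∀ (l : ℕ → ℤ) (v : ℝ), (∀ h ∈ U, |(l h : ℝ) - h * v| ≤ W) →
  (∀ s : ℕ, 1 ≤ s → s ≤ ⌈4 / c⌉₊ → ∀ a : ℤ, κ₀ ≤ |s * v - a|) →
  ∃ h ∈ U, ∃ h' ∈ U, ∃ g ∈ U, ∃ g' ∈ U, h < h' ∧ h' ≤ h + K ∧ g < g' ∧ g' ≤ g + K ∧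
    ((g' : ℤ) - g) * (l h' - l h) ≠ ((h' : ℤ) - h) * (l g' - l g)

/-- [INV] `S_AFF → S_INV`. Proof: choose `i` with `(b_{j i} - b_{i j})_j ≠ 0`; `l h = lam b α (η h) h i` is within `W` of
`h v`, `v = ∑_j α_j (b_{j i} - b_{i j}) `, and `s v` is at distance at least `κ₀` from the integers for `s ≤ ⌈4/c⌉`, by
compactness of `E` and `Irr` (`FU.kap` for the image of `E` under the linear form). `S_AFF` gives
`ζ = (g' - g) (λ_{h'} - λ_h) - (h' - h) (λ_{g'} - λ_g)`, nonzero; the same combination of the relations eliminates `κ`. -/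
def S_INV : Prop := ∀ (d : ℕ) (b : Matrix (Fin d) (Fin d) ℤ), b.transpose ≠ b → ∀ E : Set (Fin d → UnitAddCircle),
  IsCompact E → Irr E → ∀ (S : Finset (Fin d → ℤ)) (C c : ℝ), 0 < C → 0 < c → ∃ K H₀ : ℕ, ∀ H ≥ H₀,
  ∀ α ∈ Box d, md α ∈ E → ∀ β ∈ Box d, Rl b S C c α β H → ∃ ζ ζ' : Fin d → ℤ, ζ ≠ 0 ∧ (∀ i, |ζ i| ≤ K) ∧
    (∀ i, |ζ' i| ≤ K) ∧ ∃ a : ℤ, |dt ζ α - dt ζ' β - a| ≤ K / H

/-- [INV2] `S_AFF → S_INV2`, for `(p α, q α)`. Proof: `Λ_h = p λ_h - q λ'_h` is within a constant of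
`h (p Bᵀ{pα} - q Bᵀ{qα}) = h ((p² - q²) Bᵀ α - integer vector)`; as in [INV] a nonzero integer combination `ξ` of the `Λ_h`
satisfies `‖ξ · α‖ ≤ C' / H`, which contradicts `FU.kap`-type compactness (`Irr E`) for `H` large (finitely many `ξ`).
-/
def S_INV2 : Prop := ∀ (d : ℕ) (b : Matrix (Fin d) (Fin d) ℤ), b.transpose ≠ b → ∀ E : Set (Fin d → UnitAddCircle),
  IsCompact E → Irr E → ∀ (p q : ℕ), 1 ≤ p → 1 ≤ q → p ≠ q → ∀ (S : Finset (Fin d → ℤ)) (C c : ℝ), 0 < C → 0 < c →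
  ∃ H₀ : ℕ, ∀ H ≥ H₀, ∀ α ∈ Box d, md α ∈ E → ¬ Rl b S C c (fr ((p : ℝ) • α)) (fr ((q : ℝ) • α)) H

/-- the target frequencies -/
def Tg {d : ℕ} (E : Set (Fin d → UnitAddCircle)) : Set (Fin d → ℝ) := {α | α ∈ Box d ∧ md α ∈ E}

/-- [EQN] `S_RED → S_VDC → S_INV → FU.S_EQ → S_EQN`. Proof: `K` from `S_VDC`, `S_INV` for `δ`; `E* = ⋃_{0 ≠ |ζ| ≤ K} ζ(E)`
is compact, null and torsion-free; `FU.S_EQ` with `d = 1`, `K = 1`, `c / (2K+1)^d`; the frequency of `ψ(p m)` is `p β`,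
`ζ' · fr (p β)` is `p (ζ' · β)` modulo one. -/
def S_EQN : Prop := ∀ (d : ℕ) (b : Matrix (Fin d) (Fin d) ℤ) (φ : (Fin d → ℝ) → ℂ), Th b φ → b.transpose ≠ b →
  ∀ E : Set (Fin d → UnitAddCircle), IsCompact E → Irr E →
  (∀ k : Fin d → ℤ, k ≠ 0 → volume (FB.lf k '' E) = 0) → EQA (Cl φ Set.univ) (Cl φ (Tg E))

/-- [LSN] `S_RED → S_VDC → S_INV2 → S_KATA → S_LSN`: long sums. -/
def S_LSN : Prop := ∀ (d : ℕ) (b : Matrix (Fin d) (Fin d) ℤ) (φ : (Fin d → ℝ) → ℂ), Th b φ → b.transpose ≠ b →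
  ∀ E : Set (Fin d → UnitAddCircle), IsCompact E → Irr E →
  ∀ ε : ℝ, 0 < ε → ∃ X₀ : ℕ, ∀ X ≥ X₀, ∀ f : ℕ → ℂ, Mul1 f → ∀ ψ ∈ Cl φ (Tg E), cw f ψ 0 X ≤ ε * X

/-! ### Part 3: functions on the nilmanifold -/

/-- the product of the group -/
noncomputable def mulG {d c : ℕ} (β : Fin c → Matrix (Fin d) (Fin d) ℤ) (g h : (Fin d → ℝ) × (Fin c → ℝ)) :
    (Fin d → ℝ) × (Fin c → ℝ) := (g.1 + h.1, g.2 + h.2 + fun l => bf (β l) g.1 h.1)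

/-- the form of a vertical character -/
def vb {d c : ℕ} (β : Fin c → Matrix (Fin d) (Fin d) ℤ) (k : Fin c → ℤ) : Matrix (Fin d) (Fin d) ℤ := ∑ l, k l • β l

/-- [ORB] orbits: `g^n y = (n α + x, n τ + (n choose 2) β(α, α) + t + n β(α, x))`, `g = (α, τ)`, `y = (x, t)`; so the
vertical character `k` gives a polynomial of degree at most two. -/
def S_ORB : Prop := ∀ (d c : ℕ) (β : Fin c → Matrix (Fin d) (Fin d) ℤ) (k : Fin c → ℤ)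
  (g y : (Fin d → ℝ) × (Fin c → ℝ)), ∃ P : ℝ[X], P.natDegree ≤ 2 ∧ ∀ n : ℕ,
    ((mulG β g)^[n] y).1 = (n : ℝ) • g.1 + y.1 ∧ dt k ((mulG β g)^[n] y).2 = P.eval (n : ℝ)

/-- [VERT] vertical Fourier expansion. `F` is bounded, and uniformly continuous in the vertical direction: the
translations by `(0, s)` commute with `Γ`, and every element is in `[0,1]^(d+c) Γ`. Take a continuous bump `ρ ≥ 0` on the
torus `(ℝ/ℤ)^c` with integral one, supported near `0`, a trigonometric polynomial `∑ a_k e(k s)` near `ρ` (`FB.trigm`),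
and `φ_k(x) = a_k ∫_{[0,1]^c} F(x, s) e(-k s) ds` (the sign convention is free; `F(x, ·)` is periodic). The transformation
rule follows from the invariance of `F` and of the integral over a period. -/
def S_VERT : Prop := ∀ (d c : ℕ) (β : Fin c → Matrix (Fin d) (Fin d) ℤ) (F : (Fin d → ℝ) × (Fin c → ℝ) → ℂ),
  Continuous F → (∀ (g : (Fin d → ℝ) × (Fin c → ℝ)) (m : Fin d → ℤ) (j : Fin c → ℤ), F (mulG β g (cst m, cst j)) = F g) →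
  ∀ ε : ℝ, 0 < ε → ∃ (S : Finset (Fin c → ℤ)) (φ : (Fin c → ℤ) → (Fin d → ℝ) → ℂ) (M : ℝ), 0 < M ∧
    (∀ k, Continuous (φ k) ∧ (∀ x, ‖φ k x‖ ≤ M) ∧
      ∀ (x : Fin d → ℝ) (m : Fin d → ℤ), φ k (x + cst m) = ee (-bf (vb β k) x (cst m)) * φ k x) ∧
    ∀ (x : Fin d → ℝ) (t : Fin c → ℝ), ‖F (x, t) - ∑ k ∈ S, ee (dt k t) * φ k x‖ ≤ ε

end Pool.Agent.Helper44K9.FN
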