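import Pool.Agent.Helper44K9.FN.Stm
import Pool.Agent.Helper44K9.FB.Trigm

/-! [TRU] uniform trigonometric approximation (helper15). -/

set_option autoImplicit false

namespace Pool.Agent.Helper44K9.FN

open Finset MeasureTheory Polynomial
open Pool.Agent.H807R2.Dav (ee ee_add norm_ee ee_zero)

namespace TruL

variable {d : ℕ}

lemma conj_ee (x : ℝ) : (starRingEnd ℂ) (ee x) = ee (-x) := by
  rw [Pool.Agent.H807R2.Dav.ee_eq, Pool.Agent.H807R2.Dav.ee_eq, ← Complex.exp_conj]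
  congr 1
  rw [map_mul, Complex.conj_ofReal, Complex.conj_I]
  push_cast
  ring

lemma ee_cont : Continuous ee := by
  unfold ee
  fun_prop

lemma bf_add_left (b : Matrix (Fin d) (Fin d) ℤ) (x x' y : Fin d → ℝ) : bf b (x + x') y = bf b x y + bf b x' y := by
  simp only [bf, Pi.add_apply, add_mul, sum_add_distrib]

lemma bf_add_right (b : Matrix (Fin d) (Fin d) ℤ) (x y y' : Fin d → ℝ) : bf b x (y + y') = bf b x y + bf b x y' := by
  simp only [bf, Pi.add_apply, mul_add, sum_add_distrib]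

/-- the function `Φ` -/
noncomputable def Ph (b : Matrix (Fin d) (Fin d) ℤ) (φ : (Fin d → ℝ) → ℂ) (r z : Fin d → ℝ) : ℂ :=
  ee (bf b r z) * φ (z + r) * (starRingEnd ℂ) (φ z)

lemma Ph_cont {b : Matrix (Fin d) (Fin d) ℤ} {φ : (Fin d → ℝ) → ℂ} (h : Continuous φ) :
    Continuous fun p : (Fin d → ℝ) × (Fin d → ℝ) => Ph b φ p.1 p.2 := by
  unfold Ph bf
  have := ee_cont
  fun_prop

lemma Ph_per {b : Matrix (Fin d) (Fin d) ℤ} {φ : (Fin d → ℝ) → ℂ} (h : Th b φ) (r z : Fin d → ℝ) (m : Fin d → ℤ) :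
    Ph b φ r (z + cst m) = Ph b φ r z := by
  unfold Ph
  have h1 : z + cst m + r = (z + r) + cst m := by abel
  rw [h1, h.2.2, h.2.2, map_mul, conj_ee, bf_add_right, bf_add_left]
  have h2 : ee (bf b r z + bf b r (cst m)) * (ee (-(bf b z (cst m) + bf b r (cst m))) * φ (z + r)) *
      (ee (- -bf b z (cst m)) * (starRingEnd ℂ) (φ z)) =
      (ee (bf b r z + bf b r (cst m)) * ee (-(bf b z (cst m) + bf b r (cst m))) * ee (- -bf b z (cst m))) *
        φ (z + r) * (starRingEnd ℂ) (φ z) := by ring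
  rw [h2, ← ee_add, ← ee_add]
  congr 3
  ring

lemma quot_md : IsOpenQuotientMap (md (d := d)) :=
  IsOpenQuotientMap.piMap (f := fun _ : Fin d => ((fun x : ℝ => (x : UnitAddCircle)))) fun _ =>
    QuotientAddGroup.isOpenQuotientMap_mk

lemma md_eq {x y : Fin d → ℝ} (h : md x = md y) : ∃ m : Fin d → ℤ, y = x + cst m := by
  have h1 : ∀ i, ∃ m : ℤ, y i = x i + m := by
    intro i
    have h2 : (x i : UnitAddCircle) = (y i : UnitAddCircle) := congrFun h i
    rw [QuotientAddGroup.eq, AddSubgroup.mem_zmultiples_iff] at h2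
    obtain ⟨m, hm⟩ := h2
    refine ⟨m, ?_⟩
    simp only [zsmul_eq_mul, mul_one] at hm
    linarith
  choose m hm using h1
  exact ⟨m, funext hm⟩

lemma lf_md (k : Fin d → ℤ) (x : Fin d → ℝ) : FB.lf k (md x) = ((dt k x : ℝ) : UnitAddCircle) := by
  unfold FB.lf md dt
  have h : ((∑ i, (k i : ℝ) * x i : ℝ) : UnitAddCircle) = ∑ i, (((k i : ℝ) * x i : ℝ) : UnitAddCircle) :=
    map_sum (QuotientAddGroup.mk' (AddSubgroup.zmultiples (1 : ℝ))) _ _
  rw [h]
  refine sum_congr rfl fun i _ => ?_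
  rw [← AddCircle.coe_zsmul, zsmul_eq_mul]

lemma fourier_md (k : Fin d → ℤ) (x : Fin d → ℝ) : (fourier 1 (FB.lf k (md x)) : ℂ) = ee (dt k x) := by
  rw [lf_md, fourier_coe_apply, ee]
  congr 1
  push_cast
  ring

/-- continuous periodic functions come from the torus -/
lemma lift {f : (Fin d → ℝ) → ℂ} (hf : Continuous f) (hper : ∀ (z : Fin d → ℝ) (m : Fin d → ℤ), f (z + cst m) = f z) :
    ∃ F : C(Fin d → UnitAddCircle, ℂ), ∀ z, F (md z) = f z := by
  have hfac : Function.FactorsThrough f (md (d := d)) := by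
    intro x y hxy
    obtain ⟨m, hm⟩ := md_eq hxy
    rw [hm, hper]
  obtain ⟨g, hg⟩ : ∃ g : (Fin d → UnitAddCircle) → ℂ, ∀ z, g (md z) = f z := by
    refine ⟨Function.extend md f 0, fun z => hfac.extend_apply _ z⟩
  have hcomp : g ∘ md = f := funext hg
  have hcont : Continuous g := by
    have h0 := (quot_md (d := d)).continuous_comp_iff (g := g)
    rw [hcomp] at h0
    exact h0.1 hf
  exact ⟨⟨g, hcont⟩, hg⟩

/-- approximation for one `r` -/
lemma one {b : Matrix (Fin d) (Fin d) ℤ} {φ : (Fin d → ℝ) → ℂ} (h : Th b φ) (r : Fin d → ℝ) {ε : ℝ} (hε : 0 < ε) :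
    ∃ (S : Finset (Fin d → ℤ)) (c : (Fin d → ℤ) → ℂ), (∀ k ∉ S, c k = 0) ∧
      ∀ z : Fin d → ℝ, ‖Ph b φ r z - ∑ k ∈ S, c k * ee (dt k z)‖ ≤ ε := by
  classical
  have hcont : Continuous (Ph b φ r) := by
    have h1 := h.1
    have h2 := ee_cont
    unfold Ph bf
    fun_prop
  obtain ⟨F, hF⟩ := lift hcont (Ph_per h r)
  obtain ⟨S, a, ha⟩ := FB.trigm d F ε hε
  refine ⟨S, fun k => if k ∈ S then a k else 0, fun k hk => by simp [hk], fun z => ?_⟩
  have h1 := ha (md z)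
  rw [hF] at h1
  have h3 : ∑ k ∈ S, (if k ∈ S then a k else 0) * ee (dt k z) = ∑ k ∈ S, a k * (fourier 1 (FB.lf k (md z)) : ℂ) := by
    refine sum_congr rfl fun k hk => ?_
    rw [if_pos hk, fourier_md]
  rw [h3]
  exact h1

end TruL

open TruL in
theorem tru : S_TRU := by
  classical
  intro d b φ h ε hε
  -- the unit box
  set B : Set (Fin d → ℝ) := Set.pi Set.univ fun _ => Set.Icc (0 : ℝ) 1 with hB
  have hBc : IsCompact B := isCompact_univ_pi fun _ => isCompact_Icc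
  have huc : UniformContinuousOn (fun p : (Fin d → ℝ) × (Fin d → ℝ) => Ph b φ p.1 p.2) (B ×ˢ B) :=
    (hBc.prod hBc).uniformContinuousOn_of_continuous (Ph_cont h.1).continuousOn
  rw [Metric.uniformContinuousOn_iff] at huc
  obtain ⟨η, hη, huc⟩ := huc (ε / 2) (by positivity)
  obtain ⟨T, hTB, hT, hcov⟩ := hBc.finite_cover_balls hη
  have hone : ∀ r : Fin d → ℝ, ∃ (S : Finset (Fin d → ℤ)) (c : (Fin d → ℤ) → ℂ), (∀ k ∉ S, c k = 0) ∧
      ∀ z : Fin d → ℝ, ‖Ph b φ r z - ∑ k ∈ S, c k * ee (dt k z)‖ ≤ ε / 2 := fun r => one h r (by positivity)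
  choose S c hc0 hc using hone
  refine ⟨hT.toFinset.biUnion S, 1 + ∑ r ∈ hT.toFinset, ∑ k ∈ S r, ‖c r k‖, ?_, ?_⟩
  · have : 0 ≤ ∑ r ∈ hT.toFinset, ∑ k ∈ S r, ‖c r k‖ := sum_nonneg fun _ _ => sum_nonneg fun _ _ => norm_nonneg _
    linarith
  · intro r hr
    have hrB : r ∈ B := by
      rw [hB, Set.mem_univ_pi]
      exact fun i => hr i
    obtain ⟨s, hs⟩ := Set.mem_iUnion.1 (hcov hrB)
    obtain ⟨hsT, hs⟩ := Set.mem_iUnion.1 hs
    have hsT' : s ∈ hT.toFinset := hT.mem_toFinset.2 hsT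
    refine ⟨c s, fun k => ?_, fun z => ?_⟩
    · by_cases hk : k ∈ S s
      · have h1 : ‖c s k‖ ≤ ∑ k ∈ S s, ‖c s k‖ := single_le_sum (fun _ _ => norm_nonneg _) hk
        have h2 : ∑ k ∈ S s, ‖c s k‖ ≤ ∑ r ∈ hT.toFinset, ∑ k ∈ S r, ‖c r k‖ :=
          single_le_sum (f := fun r => ∑ k ∈ S r, ‖c r k‖) (fun _ _ => sum_nonneg fun _ _ => norm_nonneg _) hsT'
        linarith
      · rw [hc0 s k hk, norm_zero]
        have : 0 ≤ ∑ r ∈ hT.toFinset, ∑ k ∈ S r, ‖c r k‖ := sum_nonneg fun _ _ => sum_nonneg fun _ _ => norm_nonneg _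
        linarith
    · -- move z to the box
      obtain ⟨m, hm⟩ : ∃ m : Fin d → ℤ, z = (fun i => Int.fract (z i)) + cst m :=
        ⟨fun i => ⌊z i⌋, funext fun i => by simp [cst]⟩
      set w : Fin d → ℝ := fun i => Int.fract (z i) with hw
      have hwB : w ∈ B := by
        rw [hB, Set.mem_univ_pi]
        exact fun i => ⟨Int.fract_nonneg _, (Int.fract_lt_one _).le⟩
      have h1 : ‖Ph b φ r z - Ph b φ s z‖ ≤ ε / 2 := by
        rw [hm, Ph_per h, Ph_per h, ← dist_eq_norm]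
        refine (huc (r, w) ⟨hrB, hwB⟩ (s, w) ⟨hTB hsT, hwB⟩ ?_).le
        rw [Prod.dist_eq]
        simp only [dist_self]
        rw [max_eq_left dist_nonneg]
        exact Metric.mem_ball.1 hs
      have h2 : ∑ k ∈ hT.toFinset.biUnion S, c s k * ee (dt k z) = ∑ k ∈ S s, c s k * ee (dt k z) := by
        symm
        refine sum_subset (fun k hk => mem_biUnion.2 ⟨s, hsT', hk⟩) fun k _ hk => ?_
        rw [hc0 s k hk, zero_mul]
      rw [h2]
      have h3 := hc s z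
      have h4 : ee (bf b r z) * φ (z + r) * (starRingEnd ℂ) (φ z) - ∑ k ∈ S s, c s k * ee (dt k z) =
          (Ph b φ r z - Ph b φ s z) + (Ph b φ s z - ∑ k ∈ S s, c s k * ee (dt k z)) := by
        simp only [Ph]
        ring
      rw [h4]
      refine (norm_add_le _ _).trans ?_
      linarith

end Pool.Agent.Helper44K9.FN
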