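import Pool.Agent.Helper44K9.FN.Stm

/-! [VDC] van der Corput's inequality for theta phases (helper15). -/

set_option autoImplicit false

namespace Pool.Agent.Helper44K9.FN

open Finset MeasureTheory Polynomial
open Pool.Agent.H807R2.Dav (ee ee_add norm_ee ee_zero dd dd_ge dd_add_int geo_bound KK_le' KK)

namespace VdcL

lemma conj_ee (x : ℝ) : (starRingEnd ℂ) (ee x) = ee (-x) := by
  rw [Pool.Agent.H807R2.Dav.ee_eq, Pool.Agent.H807R2.Dav.ee_eq, ← Complex.exp_conj]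
  congr 1
  rw [map_mul, Complex.conj_ofReal, Complex.conj_I]
  push_cast
  ring

/-- van der Corput's identity -/
lemma ident (v : ℕ → ℂ) (H : ℕ) :
    (∑ i ∈ range H, v i) * (starRingEnd ℂ) (∑ i ∈ range H, v i) =
      ∑ i ∈ range H, v i * (starRingEnd ℂ) (v i) +
        (∑ h ∈ Ico 1 H, ∑ i ∈ range (H - h), v (i + h) * (starRingEnd ℂ) (v i)) +
        (starRingEnd ℂ) (∑ h ∈ Ico 1 H, ∑ i ∈ range (H - h), v (i + h) * (starRingEnd ℂ) (v i)) := by
  induction H with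
  | zero => simp
  | succ H ih =>
    have key : ∑ h ∈ Ico 1 (H + 1), ∑ i ∈ range (H + 1 - h), v (i + h) * (starRingEnd ℂ) (v i) =
        (∑ h ∈ Ico 1 H, ∑ i ∈ range (H - h), v (i + h) * (starRingEnd ℂ) (v i)) +
          v H * (starRingEnd ℂ) (∑ i ∈ range H, v i) := by
      have h1 : ∀ h ∈ Ico 1 (H + 1), ∑ i ∈ range (H + 1 - h), v (i + h) * (starRingEnd ℂ) (v i) =
          ∑ i ∈ range (H - h), v (i + h) * (starRingEnd ℂ) (v i) + v H * (starRingEnd ℂ) (v (H - h)) := by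
        intro h hh
        rw [mem_Ico] at hh
        rw [show H + 1 - h = (H - h) + 1 by omega, sum_range_succ, show H - h + h = H by omega]
      rw [sum_congr rfl h1, sum_add_distrib]
      congr 1
      · rcases Nat.eq_zero_or_pos H with h0 | h0
        · subst h0; simp
        · rw [sum_Ico_succ_top (by omega)]
          simp
      · rw [map_sum, mul_sum, ← sum_range_reflect]
        rw [sum_Ico_eq_sum_range]
        refine sum_congr (by simp) fun i hi => ?_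
        rw [show H - (1 + i) = H - 1 - i by omega]
    rw [key, sum_range_succ, sum_range_succ, map_add, map_add, map_mul, Complex.conj_conj]
    linear_combination ih

/-- van der Corput's inequality -/
lemma ineq (v : ℕ → ℂ) (H : ℕ) (hv : ∀ i, ‖v i‖ ≤ 1) :
    ‖∑ i ∈ range H, v i‖ ^ 2 ≤ H + 2 * ∑ h ∈ Ico 1 H, ‖∑ i ∈ range (H - h), v (i + h) * (starRingEnd ℂ) (v i)‖ := by
  set A := ∑ h ∈ Ico 1 H, ∑ i ∈ range (H - h), v (i + h) * (starRingEnd ℂ) (v i) with hA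
  have h0 : ‖∑ i ∈ range H, v i‖ ^ 2 = ‖(∑ i ∈ range H, v i) * (starRingEnd ℂ) (∑ i ∈ range H, v i)‖ := by
    rw [norm_mul, RCLike.norm_conj, sq]
  rw [h0, ident v H, ← hA]
  have h1 : ‖∑ i ∈ range H, v i * (starRingEnd ℂ) (v i)‖ ≤ H := by
    refine (norm_sum_le _ _).trans ?_
    calc ∑ i ∈ range H, ‖v i * (starRingEnd ℂ) (v i)‖ ≤ ∑ i ∈ range H, (1 : ℝ) := by
          refine sum_le_sum fun i _ => ?_
          rw [norm_mul, RCLike.norm_conj]
          nlinarith [hv i, norm_nonneg (v i)]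
      _ = H := by simp
  have h2 : ‖A‖ ≤ ∑ h ∈ Ico 1 H, ‖∑ i ∈ range (H - h), v (i + h) * (starRingEnd ℂ) (v i)‖ := norm_sum_le _ _
  calc _ ≤ ‖∑ i ∈ range H, v i * (starRingEnd ℂ) (v i)‖ + ‖A‖ + ‖(starRingEnd ℂ) A‖ := norm_add₃_le
    _ ≤ _ := by rw [RCLike.norm_conj]; linarith

lemma Ioc_range (g : ℕ → ℂ) (n H : ℕ) : ∑ m ∈ Ioc n (n + H), g m = ∑ i ∈ range H, g (n + 1 + i) := by
  have : Ioc n (n + H) = Ico (n + 1) (n + H + 1) := by
    ext m; simp only [mem_Ioc, mem_Ico]; omega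
  rw [this, sum_Ico_eq_sum_range]
  congr 1
  congr 1
  omega

/-- many large correlations -/
lemma many {δ : ℝ} (hδ : 0 < δ) (v : ℕ → ℂ) (H : ℕ) (hv : ∀ i, ‖v i‖ ≤ 1) (hH : 2 / δ ^ 2 ≤ H)
    (h : δ * H ≤ ‖∑ i ∈ range H, v i‖) :
    δ ^ 2 / 8 * H ≤ #{h ∈ Ico 1 H | δ ^ 2 / 8 * H ≤ ‖∑ i ∈ range (H - h), v (i + h) * (starRingEnd ℂ) (v i)‖} := by
  set U := {h ∈ Ico 1 H | δ ^ 2 / 8 * H ≤ ‖∑ i ∈ range (H - h), v (i + h) * (starRingEnd ℂ) (v i)‖} with hU
  have hH0 : (0 : ℝ) < H := lt_of_lt_of_le (by positivity) hH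
  have h1 := ineq v H hv
  have h2 : (δ * H) ^ 2 ≤ ‖∑ i ∈ range H, v i‖ ^ 2 := pow_le_pow_left₀ (by positivity) h 2
  have h3 : ∑ h ∈ Ico 1 H, ‖∑ i ∈ range (H - h), v (i + h) * (starRingEnd ℂ) (v i)‖ ≤
      #U * H + H * (δ ^ 2 / 8 * H) := by
    rw [← sum_filter_add_sum_filter_not (Ico 1 H) (fun h => δ ^ 2 / 8 * H ≤ ‖∑ i ∈ range (H - h), v (i + h) * (starRingEnd ℂ) (v i)‖)]
    refine add_le_add ?_ ?_
    · refine (sum_le_card_nsmul _ _ (H : ℝ) fun h hh => ?_).trans (by rw [nsmul_eq_mul])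
      refine (norm_sum_le _ _).trans ?_
      calc ∑ i ∈ range (H - h), ‖v (i + h) * (starRingEnd ℂ) (v i)‖ ≤ ∑ i ∈ range (H - h), (1 : ℝ) := by
            refine sum_le_sum fun i _ => ?_
            rw [norm_mul, RCLike.norm_conj]
            nlinarith [hv i, hv (i + h), norm_nonneg (v i), norm_nonneg (v (i + h))]
        _ = ((H - h : ℕ) : ℝ) := by simp
        _ ≤ H := by exact_mod_cast Nat.sub_le _ _
    · refine (sum_le_card_nsmul _ _ (δ ^ 2 / 8 * H) fun h hh => ?_).trans ?_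
      · rw [mem_filter] at hh
        exact (not_le.1 hh.2).le
      · rw [nsmul_eq_mul]
        refine mul_le_mul_of_nonneg_right ?_ (by positivity)
        have : #((Ico 1 H).filter (fun h => ¬ δ ^ 2 / 8 * H ≤ ‖∑ i ∈ range (H - h), v (i + h) * (starRingEnd ℂ) (v i)‖)) ≤ H :=
          (card_filter_le _ _).trans (by simp)
        exact_mod_cast this
  have h4 : (δ * H) ^ 2 ≤ H + 2 * (#U * H + H * (δ ^ 2 / 8 * H)) := by linarith
  have h5 : δ ^ 2 * H ≤ 1 + 2 * (#U + δ ^ 2 / 8 * H) := by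
    have : (δ ^ 2 * H) * H ≤ (1 + 2 * (#U + δ ^ 2 / 8 * H)) * H := by nlinarith
    exact le_of_mul_le_mul_right this hH0
  have h6 : 2 ≤ δ ^ 2 * H := by
    rw [div_le_iff₀ (by positivity)] at hH
    linarith
  nlinarith

/-- a geometric sum -/
lemma geo {K : ℝ} (hK : 0 < K) {H H' n : ℕ} (hH : 1 ≤ H) (hH' : H' ≤ H) {θ : ℝ}
    (h : ¬ ∃ a : ℤ, |θ - a| ≤ K / H) : ‖∑ i ∈ range H', ee (((n + 1 + i : ℕ) : ℝ) * θ)‖ ≤ H / K := by
  have hH0 : (0 : ℝ) < H := by exact_mod_cast hH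
  have h1 : ∑ i ∈ range H', ee (((n + 1 + i : ℕ) : ℝ) * θ) = ∑ m ∈ Ico (n + 1) (n + 1 + H'), ee (m * θ) := by
    rw [sum_Ico_eq_sum_range, Nat.add_sub_cancel_left]
  rw [h1]
  have h2 := geo_bound (n + 1) (n + 1 + H') (by omega) (M := H) (by
    have : (H' : ℝ) ≤ H := by exact_mod_cast hH'
    push_cast; linarith) θ
  refine h2.trans ?_
  set t := Int.fract θ with ht
  have ht0 : 0 ≤ t := Int.fract_nonneg _
  have ht1 : t < 1 := Int.fract_lt_one _
  have h3 : θ = t + (⌊θ⌋ : ℤ) := by rw [ht]; exact (Int.fract_add_floor _).symm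
  have h4 : dd θ = dd t := by conv_lhs => rw [h3, dd_add_int]
  have h5 : K / H < t := by
    by_contra h6
    apply h
    refine ⟨⌊θ⌋, ?_⟩
    have : θ - (⌊θ⌋ : ℤ) = t := by rw [ht]; rfl
    rw [this, abs_of_nonneg ht0]
    exact not_lt.1 h6
  have h6 : K / H < 1 - t := by
    by_contra h6
    apply h
    refine ⟨⌊θ⌋ + 1, ?_⟩
    have : θ - ((⌊θ⌋ + 1 : ℤ) : ℝ) = -(1 - t) := by rw [ht]; push_cast; rw [← Int.self_sub_floor]; ring
    rw [this, abs_neg, abs_of_nonneg (by linarith)]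
    exact not_lt.1 h6
  have h7 : 4 * (K / H) ≤ dd θ := by
    rw [h4]
    refine le_trans ?_ (dd_ge ht0 ht1.le)
    have : K / H ≤ min t (1 - t) := le_min h5.le h6.le
    linarith
  refine (KK_le' hH0.le (by positivity) h7).trans ?_
  rw [div_le_div_iff₀ (by positivity) hK]
  have : (H : ℝ) * (4 * (K / H)) = 4 * K := by field_simp
  rw [this]
  linarith

variable {d : ℕ}

lemma bf_add_left (b : Matrix (Fin d) (Fin d) ℤ) (x x' y : Fin d → ℝ) : bf b (x + x') y = bf b x y + bf b x' y := by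
  simp only [bf, Pi.add_apply, add_mul, sum_add_distrib]

lemma bf_add_right (b : Matrix (Fin d) (Fin d) ℤ) (x y y' : Fin d → ℝ) : bf b x (y + y') = bf b x y + bf b x y' := by
  simp only [bf, Pi.add_apply, mul_add, sum_add_distrib]

lemma bf_smul_left (b : Matrix (Fin d) (Fin d) ℤ) (c : ℝ) (x y : Fin d → ℝ) : bf b (c • x) y = c * bf b x y := by
  simp only [bf, Pi.smul_apply, smul_eq_mul, mul_sum]
  exact sum_congr rfl fun i _ => sum_congr rfl fun j _ => by ring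

lemma bf_smul_right (b : Matrix (Fin d) (Fin d) ℤ) (c : ℝ) (x y : Fin d → ℝ) : bf b x (c • y) = c * bf b x y := by
  simp only [bf, Pi.smul_apply, smul_eq_mul, mul_sum]
  exact sum_congr rfl fun i _ => sum_congr rfl fun j _ => by ring

lemma dt_add (k : Fin d → ℤ) (x y : Fin d → ℝ) : dt k (x + y) = dt k x + dt k y := by
  simp only [dt, Pi.add_apply, mul_add, sum_add_distrib]

lemma dt_smul (k : Fin d → ℤ) (c : ℝ) (x : Fin d → ℝ) : dt k (c • x) = c * dt k x := by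
  simp only [dt, Pi.smul_apply, smul_eq_mul, mul_sum]
  exact sum_congr rfl fun i _ => by ring

lemma dt_lam (b : Matrix (Fin d) (Fin d) ℤ) (α : Fin d → ℝ) (k : Fin d → ℤ) (h : ℕ) :
    dt (lam b α k h) α = dt k α + (bf b (cst fun i => ⌊(h : ℝ) * α i⌋) α - bf b α (cst fun i => ⌊(h : ℝ) * α i⌋)) := by
  have h1 : bf b α (cst fun i => ⌊(h : ℝ) * α i⌋) = ∑ j, ∑ i, α j * (b j i : ℝ) * (⌊(h : ℝ) * α i⌋ : ℝ) := rfl
  have h2 : bf b (cst fun i => ⌊(h : ℝ) * α i⌋) α = ∑ j, ∑ i, (⌊(h : ℝ) * α i⌋ : ℝ) * (b i j : ℝ) * α j := by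
    rw [bf, sum_comm]; rfl
  rw [h1, h2, dt, dt, ← sum_sub_distrib, ← sum_add_distrib]
  refine sum_congr rfl fun j _ => ?_
  simp only [lam]
  push_cast
  rw [add_mul, sum_mul, add_comm, ← sum_sub_distrib]
  congr 1
  exact sum_congr rfl fun i _ => by ring

/-- approximation of `φ (z + h α) conj (φ z)` along `z = m α + x` -/
lemma app (b : Matrix (Fin d) (Fin d) ℤ) (φ : (Fin d → ℝ) → ℂ) (hφ : Th b φ) (ε : ℝ) (S : Finset (Fin d → ℤ)) (M : ℝ)
    (hS : ∀ r : Fin d → ℝ, (∀ i, 0 ≤ r i ∧ r i ≤ 1) → ∃ c : (Fin d → ℤ) → ℂ,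
      (∀ k, ‖c k‖ ≤ M) ∧ ∀ z : Fin d → ℝ,
      ‖ee (bf b r z) * φ (z + r) * (starRingEnd ℂ) (φ z) - ∑ k ∈ S, c k * ee (dt k z)‖ ≤ ε)
    (α x : Fin d → ℝ) (h : ℕ) : ∃ c : (Fin d → ℤ) → ℂ, (∀ k, ‖c k‖ ≤ M) ∧ ∀ m : ℕ,
      ‖φ (((m + h : ℕ) : ℝ) • α + x) * (starRingEnd ℂ) (φ ((m : ℝ) • α + x)) -
        ∑ k ∈ S, c k * ee (m * (dt (lam b α k h) α - h * bf b α α))‖ ≤ ε := by
  set j : Fin d → ℤ := fun i => ⌊(h : ℝ) * α i⌋ with hj
  set r : Fin d → ℝ := fun i => Int.fract ((h : ℝ) * α i) with hr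
  have hrj : r + cst j = (h : ℝ) • α := by
    funext i
    simp only [Pi.add_apply, Pi.smul_apply, smul_eq_mul, hr, hj, cst]
    exact Int.fract_add_floor _
  obtain ⟨c, hc, hc2⟩ := hS r fun i => ⟨Int.fract_nonneg _, (Int.fract_lt_one _).le⟩
  refine ⟨fun k => c k * ee (dt k x - bf b x (cst j) - bf b r (cst j) - bf b r x), fun k => ?_, fun m => ?_⟩
  · rw [norm_mul, norm_ee, mul_one]; exact hc k
  · set z : Fin d → ℝ := (m : ℝ) • α + x with hz
    have h1 : ((m + h : ℕ) : ℝ) • α + x = z + r + cst j := by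
      rw [add_assoc, hrj, hz]
      push_cast
      rw [add_smul]
      abel
    rw [h1, hφ.2.2]
    have h2 := hc2 z
    have h3 : bf b r α = h * bf b α α - bf b (cst j) α := by
      have : bf b (r + cst j) α = h * bf b α α := by rw [hrj, bf_smul_left]
      rw [bf_add_left] at this
      linarith
    have h4 : ee (-bf b (z + r) (cst j)) * φ (z + r) * (starRingEnd ℂ) (φ z) -
        ∑ k ∈ S, c k * ee (dt k x - bf b x (cst j) - bf b r (cst j) - bf b r x) *
          ee (m * (dt (lam b α k h) α - h * bf b α α)) =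
        ee (-bf b (z + r) (cst j) - bf b r z) * (ee (bf b r z) * φ (z + r) * (starRingEnd ℂ) (φ z) -
          ∑ k ∈ S, c k * ee (dt k z)) := by
      rw [mul_sub, mul_sum]
      congr 1
      · rw [← mul_assoc, ← mul_assoc, ← ee_add]
        congr 3
        ring
      · refine sum_congr rfl fun k _ => ?_
        rw [mul_assoc, ← ee_add, mul_left_comm, ← ee_add]
        congr 2
        rw [dt_lam, ← hj, hz]
        simp only [bf_add_left, bf_add_right, bf_smul_left, bf_smul_right, dt_add, dt_smul, h3]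
        ring
    rw [h4, norm_mul, norm_ee, one_mul]
    exact h2

lemma poly_diff {P : ℝ[X]} (hP : P.natDegree ≤ 2) (m h : ℝ) :
    P.eval (m + h) = P.eval m + (m * (2 * P.coeff 2 * h) + (P.coeff 1 * h + P.coeff 2 * h ^ 2)) := by
  rw [eval_eq_sum_range' (n := 3) (by omega), eval_eq_sum_range' (n := 3) (by omega)]
  simp only [sum_range_succ, sum_range_zero]
  ring

end VdcL

open VdcL in
theorem vdc (hTRU : S_TRU) : S_VDC := by
  classical
  intro d b φ hφ δ hδ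
  set ε : ℝ := min 1 (δ ^ 2 / 48) with hε
  have hε0 : 0 < ε := by rw [hε]; positivity
  have hε1 : ε ≤ 1 := min_le_left _ _
  have hε2 : 3 * ε ≤ δ ^ 2 / 16 := by
    have : ε ≤ δ ^ 2 / 48 := min_le_right _ _
    linarith
  obtain ⟨S, M, hM, hS⟩ := hTRU d b φ hφ ε hε0
  set K : ℝ := 1 + 32 * ((#S : ℝ) ^ 2 * M ^ 2) / δ ^ 2 with hK
  have hK0 : 0 < K := by rw [hK]; positivity
  have hK1 : (#S : ℝ) ^ 2 * M ^ 2 / K < δ ^ 2 / 16 := by
    rw [div_lt_iff₀ hK0, hK]
    have : δ ^ 2 / 16 * (1 + 32 * ((#S : ℝ) ^ 2 * M ^ 2) / δ ^ 2) = δ ^ 2 / 16 + 2 * ((#S : ℝ) ^ 2 * M ^ 2) := by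
      field_simp
      ring
    rw [this]
    have h1 : 0 ≤ (#S : ℝ) ^ 2 * M ^ 2 := by positivity
    have h2 : 0 < δ ^ 2 / 16 := by positivity
    linarith
  refine ⟨S, K, δ ^ 2 / 8, max 1 ⌈2 / δ ^ 2⌉₊, hK0, by positivity, ?_⟩
  intro H hH n α β x y P hP hsum
  have hH1 : 1 ≤ H := (le_max_left _ _).trans hH
  have hH2 : 2 / δ ^ 2 ≤ (H : ℝ) := (Nat.le_ceil _).trans (by exact_mod_cast (le_max_right _ _).trans hH)
  have hH0 : (0 : ℝ) < H := by exact_mod_cast hH1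
  set u : ℕ → ℂ := fun m => ee (P.eval (m : ℝ)) * φ ((m : ℝ) • α + x) * (starRingEnd ℂ) (φ ((m : ℝ) • β + y)) with hu
  have hu1 : ∀ m, ‖u m‖ ≤ 1 := by
    intro m
    simp only [hu]
    rw [norm_mul, norm_mul, norm_ee, one_mul, RCLike.norm_conj]
    nlinarith [hφ.2.1 ((m : ℝ) • α + x), hφ.2.1 ((m : ℝ) • β + y), norm_nonneg (φ ((m : ℝ) • α + x)),
      norm_nonneg (φ ((m : ℝ) • β + y))]
  rw [Ioc_range] at hsum
  have hmany := many hδ (fun i => u (n + 1 + i)) H (fun i => hu1 _) hH2 hsum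
  set U := {h ∈ Ico 1 H | δ ^ 2 / 8 * H ≤ ‖∑ i ∈ range (H - h), u (n + 1 + (i + h)) *
    (starRingEnd ℂ) (u (n + 1 + i))‖} with hU
  set κ : ℝ := 2 * P.coeff 2 - bf b α α + bf b β β with hκ
  have key : ∀ h ∈ U, ∃ k ∈ S, ∃ k' ∈ S, ∃ a : ℤ,
      |κ * h + dt (lam b α k h) α - dt (lam b β k' h) β - a| ≤ K / H := by
    intro h hh
    rw [hU, mem_filter, mem_Ico] at hh
    by_contra hcon
    push Not at hcon
    obtain ⟨c, hc, hcm⟩ := app b φ hφ ε S M hS α x h
    obtain ⟨c', hc', hcm'⟩ := app b φ hφ ε S M hS β y h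
    -- the product
    set A : ℕ → ℂ := fun m => φ (((m + h : ℕ) : ℝ) • α + x) * (starRingEnd ℂ) (φ ((m : ℝ) • α + x)) with hA
    set B : ℕ → ℂ := fun m => φ (((m + h : ℕ) : ℝ) • β + y) * (starRingEnd ℂ) (φ ((m : ℝ) • β + y)) with hB
    set A' : ℕ → ℂ := fun m => ∑ k ∈ S, c k * ee (m * (dt (lam b α k h) α - h * bf b α α)) with hA'
    set B' : ℕ → ℂ := fun m => ∑ k ∈ S, c' k * ee (m * (dt (lam b β k h) β - h * bf b β β)) with hB'
    have hA1 : ∀ m, ‖A m‖ ≤ 1 := by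
      intro m
      simp only [hA]
      rw [norm_mul, RCLike.norm_conj]
      nlinarith [hφ.2.1 (((m + h : ℕ) : ℝ) • α + x), hφ.2.1 ((m : ℝ) • α + x), norm_nonneg (φ ((m : ℝ) • α + x)),
        norm_nonneg (φ (((m + h : ℕ) : ℝ) • α + x))]
    have hB1 : ∀ m, ‖B m‖ ≤ 1 := by
      intro m
      simp only [hB]
      rw [norm_mul, RCLike.norm_conj]
      nlinarith [hφ.2.1 (((m + h : ℕ) : ℝ) • β + y), hφ.2.1 ((m : ℝ) • β + y), norm_nonneg (φ ((m : ℝ) • β + y)),
        norm_nonneg (φ (((m + h : ℕ) : ℝ) • β + y))]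
    have hAA : ∀ m, ‖A m - A' m‖ ≤ ε := hcm
    have hBB : ∀ m, ‖B m - B' m‖ ≤ ε := hcm'
    have hB2 : ∀ m, ‖B' m‖ ≤ 1 + ε := by
      intro m
      have h1 : B' m = B m - (B m - B' m) := by ring
      rw [h1]
      exact (norm_sub_le _ _).trans (add_le_add (hB1 m) (hBB m))
    set w : ℝ := P.coeff 1 * h + P.coeff 2 * h ^ 2 with hw
    have hprod : ∀ m : ℕ, u (m + h) * (starRingEnd ℂ) (u m) =
        ee (m * (2 * P.coeff 2 * h) + w) * (A m * (starRingEnd ℂ) (B m)) := by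
      intro m
      have h1 : ee (P.eval ((m + h : ℕ) : ℝ)) * (starRingEnd ℂ) (ee (P.eval (m : ℝ))) =
          ee (m * (2 * P.coeff 2 * h) + w) := by
        rw [conj_ee, ← ee_add]
        congr 1
        push_cast
        rw [poly_diff hP, hw]
        ring
      rw [← h1]
      simp only [hu, hA, hB, map_mul, Complex.conj_conj]
      ring
    -- the difference
    have hdiff : ∀ m : ℕ, ‖u (m + h) * (starRingEnd ℂ) (u m) -
        ee (m * (2 * P.coeff 2 * h) + w) * (A' m * (starRingEnd ℂ) (B' m))‖ ≤ 3 * ε := by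
      intro m
      rw [hprod, ← mul_sub, norm_mul, norm_ee, one_mul]
      have h1 : A m * (starRingEnd ℂ) (B m) - A' m * (starRingEnd ℂ) (B' m) =
          A m * (starRingEnd ℂ) (B m - B' m) + (A m - A' m) * (starRingEnd ℂ) (B' m) := by
        rw [map_sub]; ring
      rw [h1]
      refine (norm_add_le _ _).trans ?_
      rw [norm_mul (A m), norm_mul (A m - A' m), RCLike.norm_conj, RCLike.norm_conj]
      have e1 : ‖A m‖ * ‖B m - B' m‖ ≤ 1 * ε := mul_le_mul (hA1 m) (hBB m) (norm_nonneg _) zero_le_one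
      have e2 : ‖A m - A' m‖ * ‖B' m‖ ≤ ε * (1 + ε) := mul_le_mul (hAA m) (hB2 m) (norm_nonneg _) hε0.le
      nlinarith
    -- the main term
    have hmain : ∀ m : ℕ, ee (m * (2 * P.coeff 2 * h) + w) * (A' m * (starRingEnd ℂ) (B' m)) =
        ∑ k ∈ S, ∑ k' ∈ S, (ee w * c k * (starRingEnd ℂ) (c' k')) *
          ee (m * (κ * h + dt (lam b α k h) α - dt (lam b β k' h) β)) := by
      intro m
      simp only [hA', hB', map_sum]
      rw [sum_mul_sum, mul_sum]
      refine sum_congr rfl fun k _ => ?_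
      rw [mul_sum]
      refine sum_congr rfl fun k' _ => ?_
      rw [map_mul, conj_ee]
      have h1 : ee (m * (κ * h + dt (lam b α k h) α - dt (lam b β k' h) β)) =
          ee (m * (2 * P.coeff 2 * h)) * ee (m * (dt (lam b α k h) α - h * bf b α α)) *
            ee (-(m * (dt (lam b β k' h) β - h * bf b β β))) := by
        rw [← ee_add, ← ee_add]
        congr 1
        rw [hκ]
        ring
      rw [h1, ee_add]
      ring
    have hbig := hh.2
    have hsum2 : ‖∑ i ∈ range (H - h), u (n + 1 + (i + h)) * (starRingEnd ℂ) (u (n + 1 + i))‖ ≤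
        H * (3 * ε) + (#S : ℝ) ^ 2 * M ^ 2 / K * H := by
      have h1 : ∑ i ∈ range (H - h), u (n + 1 + (i + h)) * (starRingEnd ℂ) (u (n + 1 + i)) =
          ∑ i ∈ range (H - h), (u ((n + 1 + i) + h) * (starRingEnd ℂ) (u (n + 1 + i)) -
            ee (((n + 1 + i : ℕ) : ℝ) * (2 * P.coeff 2 * h) + w) * (A' (n + 1 + i) * (starRingEnd ℂ) (B' (n + 1 + i)))) +
          ∑ k ∈ S, ∑ k' ∈ S, (ee w * c k * (starRingEnd ℂ) (c' k')) *
            ∑ i ∈ range (H - h), ee (((n + 1 + i : ℕ) : ℝ) * (κ * h + dt (lam b α k h) α - dt (lam b β k' h) β)) := by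
        rw [sum_sub_distrib]
        have h2 : ∑ i ∈ range (H - h), ee (((n + 1 + i : ℕ) : ℝ) * (2 * P.coeff 2 * h) + w) *
            (A' (n + 1 + i) * (starRingEnd ℂ) (B' (n + 1 + i))) =
            ∑ k ∈ S, ∑ k' ∈ S, (ee w * c k * (starRingEnd ℂ) (c' k')) *
            ∑ i ∈ range (H - h), ee (((n + 1 + i : ℕ) : ℝ) * (κ * h + dt (lam b α k h) α - dt (lam b β k' h) β)) := by
          rw [sum_congr rfl fun i _ => hmain (n + 1 + i), sum_comm]
          refine sum_congr rfl fun k _ => ?_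
          rw [sum_comm]
          refine sum_congr rfl fun k' _ => ?_
          rw [mul_sum]
        rw [h2, sub_add_cancel]
        refine sum_congr rfl fun i _ => ?_
        rw [show n + 1 + (i + h) = n + 1 + i + h by omega]
      rw [h1]
      refine (norm_add_le _ _).trans (add_le_add ?_ ?_)
      · refine (norm_sum_le _ _).trans ?_
        refine (sum_le_card_nsmul _ _ (3 * ε) fun i _ => hdiff _).trans ?_
        rw [nsmul_eq_mul, card_range]
        refine mul_le_mul_of_nonneg_right ?_ (by positivity)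
        exact_mod_cast Nat.sub_le _ _
      · refine (norm_sum_le _ _).trans ?_
        have h3 : ∀ k ∈ S, ‖∑ k' ∈ S, (ee w * c k * (starRingEnd ℂ) (c' k')) *
            ∑ i ∈ range (H - h), ee (((n + 1 + i : ℕ) : ℝ) * (κ * h + dt (lam b α k h) α - dt (lam b β k' h) β))‖ ≤
            #S * (M ^ 2 * (H / K)) := by
          intro k hk
          refine (norm_sum_le _ _).trans ?_
          refine (sum_le_card_nsmul _ _ (M ^ 2 * (H / K)) fun k' hk' => ?_).trans (by rw [nsmul_eq_mul])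
          rw [norm_mul, norm_mul, norm_mul, norm_ee, one_mul, RCLike.norm_conj]
          have h4 := geo (n := n) hK0 hH1 (Nat.sub_le H h) (θ := κ * h + dt (lam b α k h) α - dt (lam b β k' h) β) (by
            rintro ⟨a, ha⟩
            exact absurd ha (not_le.2 (hcon k hk k' hk' a)))
          have h5 : ‖c k‖ * ‖c' k'‖ ≤ M ^ 2 := by
            rw [sq]
            exact mul_le_mul (hc k) (hc' k') (norm_nonneg _) hM.le
          exact mul_le_mul h5 h4 (norm_nonneg _) (by positivity)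
        refine (sum_le_card_nsmul _ _ _ h3).trans ?_
        rw [nsmul_eq_mul]
        apply le_of_eq
        ring
    have h9 : (#S : ℝ) ^ 2 * M ^ 2 / K * H < δ ^ 2 / 16 * H := mul_lt_mul_of_pos_right hK1 hH0
    have h10 : (H : ℝ) * (3 * ε) ≤ δ ^ 2 / 16 * H := by nlinarith
    have h11 := hbig.trans hsum2
    linarith
  choose! η hη η' hη' ha using key
  refine ⟨κ, U, η, η', filter_subset _ _, hmany, fun h hh => ⟨hη h hh, hη' h hh⟩, fun h hh => ?_⟩
  exact ha h hh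

end Pool.Agent.Helper44K9.FN
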