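import Pool.Agent.Helper44K9.FN.Red
import Pool.Agent.Helper44K9.FB.Trigm

/-! Leaf [VERT] (helper94): vertical Fourier expansion of a continuous function on a two-step nilmanifold. -/

set_option autoImplicit false

namespace Pool.Agent.Helper44K9.FN

open Finset MeasureTheory Topology
open Pool.Agent.H807R2.Dav (ee ee_add)

namespace VertL

variable {d c : ℕ}

theorem oq (d c : ℕ) : IsOpenQuotientMap (Prod.map (id : (Fin d → ℝ) → (Fin d → ℝ))
    (md : (Fin c → ℝ) → (Fin c → UnitAddCircle))) := by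
  refine IsOpenQuotientMap.id.prodMap ?_
  have h : (md : (Fin c → ℝ) → (Fin c → UnitAddCircle)) =
      Pi.map (fun _ : Fin c => ((↑) : ℝ → UnitAddCircle)) := rfl
  rw [h]
  exact IsOpenQuotientMap.piMap fun _ => QuotientAddGroup.isOpenQuotientMap_mk

theorem md_eq {t s : Fin c → ℝ} (h : md t = md s) : ∃ j : Fin c → ℤ, t = s + cst j := by
  have h1 : ∀ i, ∃ n : ℤ, t i = s i + n := by
    intro i
    have h2 : ((t i : ℝ) : UnitAddCircle) = ((s i : ℝ) : UnitAddCircle) := congrFun h i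
    have h3 : ((t i - s i : ℝ) : UnitAddCircle) = 0 := by
      rw [AddCircle.coe_sub, h2, sub_self]
    obtain ⟨n, hn⟩ := (AddCircle.coe_eq_zero_iff (1 : ℝ)).1 h3
    refine ⟨n, ?_⟩
    rw [zsmul_eq_mul, mul_one] at hn
    linarith
  choose j hj using h1
  exact ⟨j, funext fun i => by simp [cst, hj i]⟩

theorem md_surj (τ : Fin c → UnitAddCircle) : ∃ t : Fin c → ℝ, md t = τ := by
  have h1 : ∀ i, ∃ y : ℝ, (y : UnitAddCircle) = τ i := fun i => QuotientAddGroup.mk_surjective (τ i)
  choose t ht using h1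
  exact ⟨t, funext ht⟩

theorem md_sub (t s : Fin c → ℝ) : md (t - s) = md t - md s := by
  funext i
  simp [md]

theorem bf_zero_right (b : Matrix (Fin d) (Fin d) ℤ) (x : Fin d → ℝ) : bf b x (cst 0) = 0 := by
  unfold bf cst
  simp

/-- the character -/
noncomputable def chi (k : Fin c → ℤ) (τ : Fin c → UnitAddCircle) : ℂ := (fourier 1 (FB.lf k τ) : ℂ)

theorem lf_add (k : Fin c → ℤ) (τ σ : Fin c → UnitAddCircle) : FB.lf k (τ + σ) = FB.lf k τ + FB.lf k σ := by
  unfold FB.lf
  rw [← sum_add_distrib]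
  exact sum_congr rfl fun i _ => by rw [Pi.add_apply, smul_add]

theorem chi_add (k : Fin c → ℤ) (τ σ : Fin c → UnitAddCircle) : chi k (τ + σ) = chi k τ * chi k σ := by
  unfold chi
  rw [lf_add]
  simp only [fourier_apply, one_smul]
  rw [AddCircle.toCircle_add, Circle.coe_mul]

theorem chi_norm (k : Fin c → ℤ) (τ : Fin c → UnitAddCircle) : ‖chi k τ‖ = 1 := by
  unfold chi
  simp only [fourier_apply]
  exact Circle.norm_coe _

theorem chi_cont (k : Fin c → ℤ) : Continuous (chi k) := by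
  unfold chi FB.lf
  refine (map_continuous (fourier 1)).comp ?_
  exact continuous_finsetSum _ fun i _ => (continuous_apply i).zsmul (k i)

theorem lf_md (k : Fin c → ℤ) (t : Fin c → ℝ) : FB.lf k (md t) = ((dt k t : ℝ) : UnitAddCircle) := by
  unfold FB.lf md dt
  have h : ∀ s : Finset (Fin c), ((∑ i ∈ s, (k i : ℝ) * t i : ℝ) : UnitAddCircle) =
      ∑ i ∈ s, k i • ((t i : ℝ) : UnitAddCircle) := by
    intro s
    induction s using Finset.induction_on with
    | empty => simp
    | insert a s ha ih =>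
      rw [sum_insert ha, sum_insert ha, AddCircle.coe_add, ih, ← AddCircle.coe_zsmul, zsmul_eq_mul]
  exact (h univ).symm

theorem chi_md (k : Fin c → ℤ) (t : Fin c → ℝ) : chi k (md t) = ee (dt k t) := by
  unfold chi
  rw [lf_md, fourier_coe_apply]
  unfold ee
  congr 1
  push_cast
  ring

/-- the function on `ℝ^d × 𝕋^c` -/
theorem low (β : Fin c → Matrix (Fin d) (Fin d) ℤ) (F : (Fin d → ℝ) × (Fin c → ℝ) → ℂ) (hc : Continuous F)
    (hF : ∀ (g : (Fin d → ℝ) × (Fin c → ℝ)) (m : Fin d → ℤ) (j : Fin c → ℤ), F (mulG β g (cst m, cst j)) = F g) :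
    ∃ G : C((Fin d → ℝ) × (Fin c → UnitAddCircle), ℂ), (∀ x t, G (x, md t) = F (x, t)) ∧
      ∀ x (m : Fin d → ℤ) τ, G (x + cst m, τ) = G (x, τ - md (fun l => bf (β l) x (cst m))) := by
  have h1 : ∀ x t (j : Fin c → ℤ), F (x, t + cst j) = F (x, t) := by
    intro x t j
    rw [← hF (x, t) 0 j]
    congr 1
    unfold mulG
    simp only
    have h3 : (fun l => bf (β l) x (cst (0 : Fin d → ℤ))) = (0 : Fin c → ℝ) :=
      funext fun l => bf_zero_right (β l) x
    have h4 : (cst (0 : Fin d → ℤ)) = (0 : Fin d → ℝ) := by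
      funext i
      simp [cst]
    rw [h3, h4, add_zero, add_zero]
  have h2 : ∀ x t (m : Fin d → ℤ), F (x + cst m, t) = F (x, t - fun l => bf (β l) x (cst m)) := by
    intro x t m
    rw [← hF (x, t - fun l => bf (β l) x (cst m)) m 0]
    congr 1
    unfold mulG
    simp only
    have h4 : (cst (0 : Fin c → ℤ)) = (0 : Fin c → ℝ) := by
      funext i
      simp [cst]
    rw [h4, add_zero, sub_add_cancel]
  obtain ⟨g, hg⟩ : ∃ g : C((Fin d → ℝ) × (Fin c → ℝ), (Fin d → ℝ) × (Fin c → UnitAddCircle)),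
      (g : (Fin d → ℝ) × (Fin c → ℝ) → _) = Prod.map id md := ⟨⟨_, (oq d c).continuous⟩, rfl⟩
  have hq : IsQuotientMap g := by
    rw [hg]
    exact (oq d c).isQuotientMap
  have hfac : Function.FactorsThrough (⟨F, hc⟩ : C(_, ℂ)) g := by
    rintro ⟨x, t⟩ ⟨y, s⟩ hxy
    rw [hg] at hxy
    simp only [Prod.map_apply, id, Prod.mk.injEq] at hxy
    obtain ⟨hx, ht⟩ := hxy
    obtain ⟨j, hj⟩ := md_eq ht
    subst hx
    rw [hj]
    exact h1 x s j
  have h5 : ∀ x t, hq.lift ⟨F, hc⟩ hfac (x, md t) = F (x, t) := by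
    intro x t
    have h6 := congrArg (fun u : C(_, ℂ) => u (x, t)) (hq.lift_comp ⟨F, hc⟩ hfac)
    simp only [ContinuousMap.comp_apply, ContinuousMap.coe_mk] at h6
    rw [← h6, hg]
    rfl
  refine ⟨hq.lift ⟨F, hc⟩ hfac, h5, fun x m τ => ?_⟩
  obtain ⟨t, rfl⟩ := md_surj τ
  rw [h5, h2, ← md_sub, h5]

theorem red_box (β : Fin c → Matrix (Fin d) (Fin d) ℤ) (G : C((Fin d → ℝ) × (Fin c → UnitAddCircle), ℂ))
    (hG : ∀ x (m : Fin d → ℤ) τ, G (x + cst m, τ) = G (x, τ - md (fun l => bf (β l) x (cst m)))) (x : Fin d → ℝ) :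
    ∃ x' ∈ Set.Icc (0 : Fin d → ℝ) 1, ∃ v : Fin c → UnitAddCircle, ∀ τ, G (x, τ) = G (x', τ - v) := by
  refine ⟨fr x, ⟨fun i => Int.fract_nonneg _, fun i => (Int.fract_lt_one _).le⟩,
    md (fun l => bf (β l) (fr x) (cst fun i => ⌊x i⌋)), fun τ => ?_⟩
  rw [← hG, RedL.fr_add]

theorem bdd (β : Fin c → Matrix (Fin d) (Fin d) ℤ) (G : C((Fin d → ℝ) × (Fin c → UnitAddCircle), ℂ))
    (hG : ∀ x (m : Fin d → ℤ) τ, G (x + cst m, τ) = G (x, τ - md (fun l => bf (β l) x (cst m)))) :
    ∃ B : ℝ, 0 < B ∧ ∀ x τ, ‖G (x, τ)‖ ≤ B := by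
  have hK : IsCompact (Set.Icc (0 : Fin d → ℝ) 1 ×ˢ (Set.univ : Set (Fin c → UnitAddCircle))) :=
    isCompact_Icc.prod isCompact_univ
  obtain ⟨B, hB⟩ := hK.exists_bound_of_continuousOn G.continuous.continuousOn
  refine ⟨max B 1, lt_max_of_lt_right one_pos, fun x τ => ?_⟩
  obtain ⟨x', hx', v, hv⟩ := red_box β G hG x
  rw [hv]
  exact (hB (x', τ - v) ⟨hx', trivial⟩).trans (le_max_left _ _)

theorem unif (β : Fin c → Matrix (Fin d) (Fin d) ℤ) (G : C((Fin d → ℝ) × (Fin c → UnitAddCircle), ℂ))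
    (hG : ∀ x (m : Fin d → ℤ) τ, G (x + cst m, τ) = G (x, τ - md (fun l => bf (β l) x (cst m)))) (ε : ℝ)
    (hε : 0 < ε) : ∃ δ : ℝ, 0 < δ ∧ ∀ x τ σ, ‖σ‖ < δ → ‖G (x, τ) - G (x, τ - σ)‖ ≤ ε := by
  have hK : IsCompact (Set.Icc (0 : Fin d → ℝ) 1 ×ˢ (Set.univ : Set (Fin c → UnitAddCircle))) :=
    isCompact_Icc.prod isCompact_univ
  have hu := hK.uniformContinuousOn_of_continuous G.continuous.continuousOn
  obtain ⟨δ, hδ, h1⟩ := Metric.uniformContinuousOn_iff.1 hu ε hε
  refine ⟨δ, hδ, fun x τ σ hσ => ?_⟩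
  obtain ⟨x', hx', v, hv⟩ := red_box β G hG x
  rw [hv, hv, ← dist_eq_norm]
  refine (h1 (x', τ - v) ⟨hx', trivial⟩ (x', τ - σ - v) ⟨hx', trivial⟩ ?_).le
  rw [Prod.dist_eq]
  simp only [dist_self]
  rw [dist_eq_norm, show τ - v - (τ - σ - v) = σ by abel]
  exact max_lt hδ hσ

theorem integ (f : (Fin c → UnitAddCircle) → ℂ) (hf : Continuous f) : Integrable f :=
  hf.integrable_of_hasCompactSupport (HasCompactSupport.of_compactSpace f)

theorem mu (c : ℕ) : (volume : Measure (Fin c → UnitAddCircle)) Set.univ = 1 := by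
  rw [volume_pi, Measure.pi_univ]
  refine Finset.prod_eq_one fun i _ => ?_
  exact UnitAddCircle.measure_univ

instance prob (c : ℕ) : IsProbabilityMeasure (volume : Measure (Fin c → UnitAddCircle)) := ⟨mu c⟩

instance ni (c : ℕ) : (volume : Measure (Fin c → UnitAddCircle)).IsNegInvariant :=
  Measure.IsAddHaarMeasure.isNegInvariant_of_regular _

/-- a bump function on the torus -/
theorem bump (c : ℕ) (δ : ℝ) (hδ : 0 < δ) : ∃ p : (Fin c → UnitAddCircle) → ℝ, Continuous p ∧ (∀ σ, 0 ≤ p σ) ∧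
    (∀ σ, p σ ≠ 0 → ‖σ‖ < δ) ∧ ∫ σ, p σ = 1 := by
  have hc : Continuous fun σ : Fin c → UnitAddCircle => max 0 (δ - ‖σ‖) := by fun_prop
  have hp : 0 < ∫ σ : Fin c → UnitAddCircle, max 0 (δ - ‖σ‖) := by
    refine hc.integral_pos_of_hasCompactSupport_nonneg_nonzero (HasCompactSupport.of_compactSpace _)
      (fun σ => le_max_left _ _) (x := 0) ?_
    rw [norm_zero, sub_zero, max_eq_right hδ.le]
    exact hδ.ne'
  refine ⟨fun σ => max 0 (δ - ‖σ‖) / ∫ σ : Fin c → UnitAddCircle, max 0 (δ - ‖σ‖), hc.div_const _,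
    fun σ => div_nonneg (le_max_left _ _) hp.le, fun σ hσ => ?_, ?_⟩
  · by_contra hcon
    push Not at hcon
    refine hσ ?_
    beta_reduce
    rw [max_eq_left (by linarith), zero_div]
  · rw [integral_div, div_self hp.ne']

end VertL

open VertL in
/-- **VERT** -/
theorem vert : S_VERT := by
  intro d c β F hc hF ε hε
  obtain ⟨G, hG1, hG2⟩ := low β F hc hF
  obtain ⟨B, hB0, hB⟩ := bdd β G hG2
  obtain ⟨δ, hδ, hu⟩ := unif β G hG2 (ε / 2) (by positivity)
  obtain ⟨p, hpc, hp0, hp1, hpi⟩ := bump c δ hδ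
  obtain ⟨S, a, ha⟩ := FB.trigm c ⟨fun σ => ((p σ : ℝ) : ℂ), Complex.continuous_ofReal.comp hpc⟩ (ε / (2 * B))
    (by positivity)
  have ha' : ∀ σ, ‖((p σ : ℝ) : ℂ) - ∑ k ∈ S, a k * chi k σ‖ ≤ ε / (2 * B) := ha
  classical
  obtain ⟨a', ha'0⟩ : ∃ a' : (Fin c → ℤ) → ℂ, a' = fun k => if k ∈ S then a k else 0 := ⟨_, rfl⟩
  have hGc : ∀ x, Continuous fun τ => G (x, τ) := fun x => G.continuous.comp (by fun_prop)
  have hneg : ∀ k : Fin c → ℤ, Continuous fun τ => chi k (-τ) := fun k => (chi_cont k).comp continuous_neg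
  obtain ⟨I, hI⟩ : ∃ I : (Fin c → ℤ) → (Fin d → ℝ) → ℂ, I = fun k x => ∫ τ, G (x, τ) * chi k (-τ) := ⟨_, rfl⟩
  have hIb : ∀ k x, ‖I k x‖ ≤ B := by
    intro k x
    rw [hI]
    refine (norm_integral_le_of_norm_le_const (C := B) (Filter.Eventually.of_forall fun τ => ?_)).trans ?_
    · rw [norm_mul, chi_norm, mul_one]
      exact hB x τ
    · simp
  refine ⟨S, fun k x => a' k * I k x, B * ∑ k ∈ S, ‖a k‖ + 1, ?_, fun k => ⟨?_, ?_, ?_⟩, ?_⟩
  · have : 0 ≤ B * ∑ k ∈ S, ‖a k‖ := mul_nonneg hB0.le (sum_nonneg fun _ _ => norm_nonneg _)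
    linarith
  · refine continuous_const.mul ?_
    rw [hI]
    have h1 := continuous_parametric_integral_of_continuous (μ := (volume : Measure (Fin c → UnitAddCircle)))
      (f := fun (x : Fin d → ℝ) τ => G (x, τ) * chi k (-τ)) (s := Set.univ) ?_ isCompact_univ
    · simpa using h1
    · exact G.continuous.mul ((hneg k).comp continuous_snd)
  · intro x
    have h2 : ‖a' k‖ ≤ ∑ k ∈ S, ‖a k‖ := by
      rw [ha'0]
      beta_reduce
      split_ifs with hk
      · exact single_le_sum (f := fun k => ‖a k‖) (fun _ _ => norm_nonneg _) hk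
      · rw [norm_zero]
        exact sum_nonneg fun _ _ => norm_nonneg _
    rw [norm_mul]
    calc ‖a' k‖ * ‖I k x‖ ≤ (∑ k ∈ S, ‖a k‖) * B :=
          mul_le_mul h2 (hIb k x) (norm_nonneg _) (sum_nonneg fun _ _ => norm_nonneg _)
      _ ≤ B * ∑ k ∈ S, ‖a k‖ + 1 := by linarith
  · intro x m
    have h3 : I k (x + cst m) = ee (-bf (vb β k) x (cst m)) * I k x := by
      rw [hI]
      beta_reduce
      obtain ⟨v, hv⟩ : ∃ v : Fin c → ℝ, v = fun l => bf (β l) x (cst m) := ⟨_, rfl⟩
      have h4 : dt k (-v) = -bf (vb β k) x (cst m) := by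
        rw [hv]
        unfold dt bf vb
        simp only [Pi.neg_apply, mul_neg, sum_neg_distrib]
        congr 1
        simp only [mul_sum, Matrix.sum_apply, Matrix.smul_apply, smul_eq_mul]
        rw [sum_comm]
        refine sum_congr rfl fun i _ => ?_
        rw [sum_comm]
        refine sum_congr rfl fun j _ => ?_
        push_cast
        rw [mul_sum, sum_mul]
        refine sum_congr rfl fun l _ => ?_
        ring
      have h5 : (fun τ => G (x + cst m, τ) * chi k (-τ)) =
          fun τ => (fun τ => ee (-bf (vb β k) x (cst m)) * (G (x, τ) * chi k (-τ))) (τ - md v) := by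
        funext τ
        rw [hG2, ← hv]
        beta_reduce
        rw [← h4, ← chi_md, show -τ = md (-v) + -(τ - md v) from ?_, chi_add]
        · ring
        · have h6 : md (-v) = - md v := by
            funext i
            simp [md]
          rw [h6]
          abel
      rw [h5, integral_sub_right_eq_self (fun τ => ee (-bf (vb β k) x (cst m)) * (G (x, τ) * chi k (-τ))) (md v),
        integral_const_mul]
    beta_reduce
    rw [h3]
    ring
  · intro x t
    have h7 : ∀ k, ee (dt k t) * I k x = ∫ σ, G (x, md t - σ) * chi k σ := by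
      intro k
      rw [hI]
      beta_reduce
      rw [← integral_const_mul, ← integral_sub_left_eq_self (fun σ => G (x, md t - σ) * chi k σ) volume (md t)]
      refine integral_congr_ae (Filter.Eventually.of_forall fun τ => ?_)
      beta_reduce
      rw [sub_sub_cancel, ← chi_md, sub_eq_add_neg, chi_add]
      ring
    have h8 : ∑ k ∈ S, ee (dt k t) * (a' k * I k x) = ∫ σ, G (x, md t - σ) * ∑ k ∈ S, a k * chi k σ := by
      have h9 : ∀ σ, G (x, md t - σ) * ∑ k ∈ S, a k * chi k σ = ∑ k ∈ S, a k * (G (x, md t - σ) * chi k σ) := by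
        intro σ
        rw [mul_sum]
        exact sum_congr rfl fun k _ => by ring
      rw [integral_congr_ae (Filter.Eventually.of_forall h9), integral_finsetSum]
      · refine sum_congr rfl fun k hk => ?_
        rw [integral_const_mul, ← h7, ha'0]
        simp only [hk, if_true]
        ring
      · intro k _
        refine integ _ (continuous_const.mul (((hGc x).comp (continuous_const.sub continuous_id)).mul (chi_cont k)))
    have h10 : F (x, t) = ∫ σ, G (x, md t) * ((p σ : ℝ) : ℂ) := by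
      rw [integral_const_mul, integral_complex_ofReal, hpi, hG1]
      simp
    rw [h8, h10, ← integral_sub]
    · refine (norm_integral_le_of_norm_le (g := fun σ => ε / 2 * p σ + ε / 2) ?_
        (Filter.Eventually.of_forall fun σ => ?_)).trans ?_
      · refine Integrable.add (Integrable.const_mul ?_ _) (integrable_const _)
        exact hpc.integrable_of_hasCompactSupport (HasCompactSupport.of_compactSpace _)
      · have h11 : G (x, md t) * ((p σ : ℝ) : ℂ) - G (x, md t - σ) * ∑ k ∈ S, a k * chi k σ =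
            (G (x, md t) - G (x, md t - σ)) * ((p σ : ℝ) : ℂ) +
              G (x, md t - σ) * (((p σ : ℝ) : ℂ) - ∑ k ∈ S, a k * chi k σ) := by ring
        rw [h11]
        refine (norm_add_le _ _).trans (add_le_add ?_ ?_)
        · rw [norm_mul, Complex.norm_real, Real.norm_of_nonneg (hp0 σ)]
          by_cases hz : p σ = 0
          · rw [hz, mul_zero, mul_zero]
          · exact mul_le_mul_of_nonneg_right (hu x (md t) σ (hp1 σ hz)) (hp0 σ)
        · rw [norm_mul]
          calc ‖G (x, md t - σ)‖ * ‖((p σ : ℝ) : ℂ) - ∑ k ∈ S, a k * chi k σ‖ ≤ B * (ε / (2 * B)) :=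
                mul_le_mul (hB _ _) (ha' σ) (norm_nonneg _) hB0.le
            _ = ε / 2 := by field_simp
      · rw [integral_add, integral_const_mul, hpi]
        · simp
        · exact Integrable.const_mul (hpc.integrable_of_hasCompactSupport (HasCompactSupport.of_compactSpace _)) _
        · exact integrable_const _
    · exact integ _ (continuous_const.mul (Complex.continuous_ofReal.comp hpc))
    · refine integ _ (((hGc x).comp (continuous_const.sub continuous_id)).mul ?_)
      exact continuous_finsetSum _ fun k _ => continuous_const.mul (chi_cont k)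

end Pool.Agent.Helper44K9.FN
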